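import Pool.Agent.Helper89.LCY.CovK
import Pool.Agent.Helper81.LCY.RowsA
import Pool.Agent.Helper2.LCY.E1b

/-!
Block COV of MP_f7e214_ag, part L: the pencil of lines through a point.
-/

open Polynomial

namespace LCY.H89

noncomputable section

variable {L : Type} [Field L] [Algebra ℂ L]

theorem rul_of_ruling {E : IntermediateField ℂ L} {t : L} (hR : IsRuling E t)
    (h2 : Algebra.trdeg ℂ L = 2) : Rul E t := by
  have hE : Algebra.trdeg ℂ E = 1 := hR.1
  have hgen : ∀ z : L, ∃ a b : E[X], z = aeval t a / aeval t b := by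
    intro z
    have hz : z ∈ IntermediateField.adjoin E {t} := by rw [hR.2]; trivial
    rw [IntermediateField.mem_adjoin_simple_iff] at hz
    obtain ⟨a, b, h⟩ := hz
    exact ⟨a, b, h⟩
  have ht : ∀ a : E[X], aeval t a = 0 → a = 0 := by
    intro a ha
    by_contra hne
    have halg : IsAlgebraic E t := ⟨a, hne, ha⟩
    have h1 : Algebra.IsAlgebraic E L := by
      have h2 := (IntermediateField.isAlgebraic_adjoin_simple halg.isIntegral)
      rw [hR.2] at h2
      constructor
      intro z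
      have h3 := h2.isAlgebraic ⟨z, trivial⟩
      exact (isAlgebraic_algebraMap_iff (A := L)
        (algebraMap (⊤ : IntermediateField E L) L).injective).2 h3
    have h4 := trdeg_add_eq ℂ E (A := L)
    have h5 : Algebra.trdeg E L = 0 := trdeg_eq_zero
    rw [h5, hE, h2] at h4
    norm_num at h4
  refine ⟨ht, fun z => ?_⟩
  obtain ⟨a, b, hz⟩ := hgen z
  by_cases hb : b = 0
  · exact ⟨0, 1, one_ne_zero, by rw [hz, hb]; simp⟩
  · exact ⟨a, b, hb, hz⟩

theorem ev_sT (s z : L) (f : ℂ[X][X]) : ev s z (H81.sT f) = ev z (s * z) f := by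
  rw [H81.sT_eq, map_sum, ev_eq_sum z (s * z) f]
  refine Finset.sum_congr rfl fun e _ => ?_
  rw [ev_monomial, pow_add, mul_pow]
  ring

/-- The coordinates of the blow-up of the origin: `s = y / x`, `z = x`. -/
theorem exists_bl (S : Coord L) : ∃ Q : Coord L, Q.x = S.y / S.x ∧ Q.y = S.x := by
  obtain ⟨Q, h1, h2⟩ := S.tor (-1) 1 1 0 (Or.inr (by norm_num))
  refine ⟨Q, ?_, ?_⟩
  · rw [h1, zpow_one, zpow_neg_one]; ring
  · rw [h2]; simp

variable (S Q : Coord L)

/-- the base field of the pencil -/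
def Ef (Q : Coord L) : IntermediateField ℂ L := IntermediateField.adjoin ℂ {Q.x}

/-- the coordinate of the base -/
def sE (Q : Coord L) : Ef Q := ⟨Q.x, IntermediateField.mem_adjoin_simple_self ℂ Q.x⟩

theorem sE_tr : Transcendental ℂ (sE Q) := by
  rintro ⟨p, hp, h⟩
  apply Q.trans_x hp
  have h1 := congrArg (algebraMap (Ef Q) L) h
  rw [map_zero, ← aeval_algebraMap_apply] at h1
  exact h1

/-- a polynomial in two variables as polynomial over the base field -/
def toE (F : ℂ[X][X]) : (Ef Q)[X] := F.map (aeval (sE Q)).toRingHom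

theorem toE_inj : Function.Injective (aeval (R := ℂ) (sE Q)).toRingHom := by
  intro a b h
  by_contra hne
  apply sE_tr Q
  refine ⟨a - b, sub_ne_zero.2 hne, ?_⟩
  rw [map_sub, sub_eq_zero]
  exact h

theorem aeval_toE (F : ℂ[X][X]) : aeval Q.y (toE Q F) = ev Q.x Q.y F := by
  unfold toE
  rw [aeval_def, eval₂_map]
  have h1 : ((algebraMap (Ef Q) L).comp (aeval (R := ℂ) (sE Q)).toRingHom)
      = (aeval (R := ℂ) Q.x).toRingHom := by
    refine Polynomial.ringHom_ext ?_ ?_
    · intro c
      simp only [RingHom.comp_apply, AlgHom.toRingHom_eq_coe, RingHom.coe_coe, aeval_C]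
      rw [← IsScalarTower.algebraMap_apply]
    · simp only [RingHom.comp_apply, AlgHom.toRingHom_eq_coe, RingHom.coe_coe, aeval_X]
      rfl
  rw [h1]
  rfl

variable {S Q}

theorem aeval_pencil (h1 : Q.x = S.y / S.x) (h2 : Q.y = S.x) (f : ℂ[X][X]) :
    aeval Q.y (toE Q (H81.sT f)) = ev S.x S.y f := by
  rw [aeval_toE, ev_sT, h1, h2]
  congr 1
  have := S.x_ne
  field_simp

theorem toE_natDegree {f : ℂ[X][X]} (hf : f ≠ 0) :
    (toE Q (H81.sT f)).natDegree = tdeg f := by
  rw [H81.tdeg_eq hf]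
  exact natDegree_map_eq_of_injective (toE_inj Q) _

theorem toE_trailing {f : ℂ[X][X]} (hf : f ≠ 0) :
    (toE Q (H81.sT f)).natTrailingDegree = ordn f := by
  rw [H81.ordn_eq hf]
  unfold toE
  apply le_antisymm
  · apply natTrailingDegree_le_of_ne_zero
    rw [coeff_map]
    intro h0
    have h1 := (toE_inj Q) (h0.trans (map_zero _).symm)
    exact trailingCoeff_nonzero_iff_nonzero.2 (H81.sT_ne hf) h1
  · have hne : (H81.sT f).map (aeval (R := ℂ) (sE Q)).toRingHom ≠ 0 := by
      rw [Ne, Polynomial.map_eq_zero_iff (toE_inj Q)]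
      exact H81.sT_ne hf
    apply natTrailingDegree_le_of_ne_zero
    have h1 := trailingCoeff_nonzero_iff_nonzero.2 hne
    unfold trailingCoeff at h1
    rw [coeff_map] at h1
    intro h0
    exact h1 (by rw [h0, map_zero])

theorem toE_ne {f : ℂ[X][X]} (hf : f ≠ 0) : toE Q (H81.sT f) ≠ 0 := by
  unfold toE
  rw [Ne, Polynomial.map_eq_zero_iff (toE_inj Q)]
  exact H81.sT_ne hf

theorem mult_X {E : Type} [Field E] {a : E[X]} (ha : a ≠ 0) :
    multiplicity X a = a.natTrailingDegree := by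
  apply le_antisymm
  · obtain ⟨b, hb⟩ := pow_multiplicity_dvd X a
    have hb0 : b ≠ 0 := by
      rintro rfl
      exact ha (by rw [hb, mul_zero])
    conv_rhs => rw [hb]
    rw [mul_comm, natTrailingDegree_mul_X_pow hb0]
    omega
  · apply (FiniteMultiplicity.of_prime_left prime_X ha).le_multiplicity_of_pow_dvd
    rw [X_pow_dvd_iff]
    intro d hd
    exact coeff_eq_zero_of_lt_natTrailingDegree hd

/-- The place at the origin is the exceptional curve. -/
theorem pencil_zero (h1 : Q.x = S.y / S.x) (h2 : Q.y = S.x) {v : DVal L}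
    (hv : PlOf (Ef Q) Q.y X v) : IsOrd S.loc v := by
  refine ⟨S, rfl, fun f hf => ?_⟩
  rw [← aeval_pencil h1 h2 f, hv _ (toE_ne hf), mult_X (toE_ne hf), toE_trailing hf]

/-- The place at infinity is the line at infinity. -/
theorem pencil_inf (h1 : Q.x = S.y / S.x) (h2 : Q.y = S.x) {v : DVal L}
    (hv : ∀ a : (Ef Q)[X], a ≠ 0 → v.v (aeval Q.y a) = - a.natDegree) : IsInf S v := by
  intro f hf
  rw [← aeval_pencil h1 h2 f, hv _ (toE_ne hf), toE_natDegree hf]

/-- The other places are curves of the plane; their degree over the base field. -/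
theorem pencil_fin (h1 : Q.x = S.y / S.x) (h2 : Q.y = S.x) (hR : Rul (Ef Q) Q.y)
    {P : (Ef Q)[X]} (hP : P.Monic) (hPi : Irreducible P) (hPX : P ≠ X) {v : DVal L}
    (hv : PlOf (Ef Q) Q.y P v) : ∃ g, IsAdic S g v ∧ P.natDegree + ordn g ≤ tdeg g := by
  have hvx : v.v S.x = 0 := by
    have h3 := hv X X_ne_zero
    rw [aeval_X, mult_of_ne hP monic_X hPi irreducible_X hPX, h2] at h3
    exact h3
  have hs0 : (sE Q : Ef Q) ≠ 0 := by
    intro h0
    have := congrArg Subtype.val h0
    exact Q.x_ne this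
  have hvs : v.v Q.x = 0 := hR.horiz hPi hv (e := sE Q) hs0
  have hvy : v.v S.y = 0 := by
    rw [h1, v.map_div S.y_ne S.x_ne, hvx] at hvs
    omega
  have hix : v.Int S.x := Or.inr hvx.ge
  have hiy : v.Int S.y := Or.inr hvy.ge
  have hnc : ¬ ((∃ c : ℂ, v.Pos (S.x - algebraMap ℂ L c)) ∧
      ∃ c : ℂ, v.Pos (S.y - algebraMap ℂ L c)) := by
    rintro ⟨⟨c, hc⟩, ⟨d, hd⟩⟩
    -- then the residue of `s` is `d / c`
    have hc0 : c ≠ 0 := by
      rintro rfl
      rw [map_zero, sub_zero] at hc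
      rcases hc with h | h
      · exact S.x_ne h
      · omega
    have h3 : v.Pos (S.y - algebraMap ℂ L (d / c) * S.x) := by
      have h4 : S.y - algebraMap ℂ L (d / c) * S.x = (S.y - algebraMap ℂ L d)
          + algebraMap ℂ L (-(d / c)) * (S.x - algebraMap ℂ L c) := by
        have h5 : algebraMap ℂ L (d / c) * algebraMap ℂ L c = algebraMap ℂ L d := by
          rw [← map_mul, div_mul_cancel₀ _ hc0]
        rw [map_neg, neg_mul, mul_sub, h5]
        ring
      rw [h4]
      refine v.pos_add hd ?_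
      rw [mul_comm]
      exact v.pos_mul_int hc (v.int_const _)
    have h5 : S.y - algebraMap ℂ L (d / c) * S.x = S.x * algebraMap (Ef Q) L
        (sE Q - algebraMap ℂ (Ef Q) (d / c)) := by
      rw [map_sub, ← IsScalarTower.algebraMap_apply]
      change _ = S.x * (Q.x - _)
      rw [h1]
      have := S.x_ne
      field_simp
    have h6 : sE Q - algebraMap ℂ (Ef Q) (d / c) ≠ 0 := by
      intro h0
      apply sE_tr Q
      refine ⟨X - C (d / c), X_sub_C_ne_zero _, ?_⟩
      rw [map_sub, aeval_X, aeval_C, h0]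
    have h7 : algebraMap (Ef Q) L (sE Q - algebraMap ℂ (Ef Q) (d / c)) ≠ 0 := by
      rwa [Ne, map_eq_zero]
    rw [h5] at h3
    rcases h3 with h8 | h8
    · exact mul_ne_zero S.x_ne h7 h8
    · rw [v.map_mul _ _ S.x_ne h7, hvx, hR.horiz hPi hv h6] at h8
      omega
  obtain ⟨π, hπ, hπ1⟩ := v.exists_unif
  obtain ⟨⟨a, b⟩, ha, hb, hab⟩ := H62.rep S hπ
  dsimp only at ha hb hab
  have hposa : v.Pos (ev S.x S.y a) := by
    right
    rw [hab, v.map_div (S.ne ha) (S.ne hb)] at hπ1
    have := (v.int_ev hix hiy b).resolve_left (S.ne hb)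
    omega
  obtain ⟨p, hp, hpp, hall⟩ := exists_prime_centre v S hix hiy hnc ha hposa
  have hadic := H81.adic_of_centre S hp (v.int_ev hix hiy) hpp hall
  refine ⟨p, hadic, ?_⟩
  have hp0 := hp.ne_zero
  have hG0 := toE_ne (Q := Q) hp0
  have hmult : multiplicity P (toE Q (H81.sT p)) = 1 := by
    have h3 := H81.IsAdic.self hadic
    rw [← aeval_pencil h1 h2 p, hv _ hG0] at h3
    exact_mod_cast h3
  obtain ⟨b', hb'⟩ := pow_multiplicity_dvd X (toE Q (H81.sT p))
  have hb'0 : b' ≠ 0 := by
    rintro rfl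
    exact hG0 (by rw [hb', mul_zero])
  have hPd : P ∣ b' := by
    have h3 : P ∣ toE Q (H81.sT p) := by
      by_contra hnd
      rw [mult_eq_zero hnd] at hmult
      omega
    rw [hb'] at h3
    rcases hPi.prime.dvd_or_dvd h3 with h4 | h4
    · exfalso
      have h5 := hPi.prime.dvd_of_dvd_pow h4
      exact hPX (eq_of_monic_of_associated hP monic_X
        (hPi.associated_of_dvd irreducible_X h5))
    · exact h4
  have hdeg : (toE Q (H81.sT p)).natDegree = multiplicity X (toE Q (H81.sT p))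
      + b'.natDegree := by
    conv_lhs => rw [hb']
    rw [natDegree_mul (pow_ne_zero _ X_ne_zero) hb'0, natDegree_X_pow]
  rw [toE_natDegree hp0, mult_X hG0, toE_trailing hp0] at hdeg
  have h3 := natDegree_le_of_dvd hPd hb'0
  omega

end

end LCY.H89
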