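import Pool.Agent.Helper89.LCY.CovO
import Pool.Agent.Helper89.LCY.CovL
import Pool.Agent.Helper99.LCY.CovMain

/-!
Block COV of MP_f7e214_ag, part P: the cover is ruled; the theorem ST_COVG.
-/

open Polynomial Pool.Agent.Helper82.LCY

namespace LCY.H89

noncomputable section

variable {L : Type} [Field L] [Algebra ℂ L] {k N : ℕ}

theorem mul_le_zero {R : Subalgebra ℂ L} {v : DVal L} (h : ¬ Through R v) : mul R v ≤ 0 := by
  unfold mul
  split_ifs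
  · norm_num
  · exact le_rfl

theorem adic_cf {S : Coord L} {v : DVal L} {g g' : ℂ[X][X]} (h : IsAdic S g v)
    (h' : IsAdic S g' v) (h0 : cf g' (0, 0) = 0) : cf g (0, 0) = 0 := by
  have hd : g ∣ g' := by
    by_contra hnd
    have h1 := h.2 0 g' hnd
    have h2 := h'.2 1 1 (fun hu => h'.1.not_isUnit (isUnit_of_dvd_one hu))
    rw [pow_zero, one_mul] at h1
    rw [pow_one, mul_one] at h2
    rw [h1] at h2
    norm_num at h2
  obtain ⟨u, hu⟩ := (h.1.associated_of_dvd h'.1 hd).symm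
  rw [← hu]
  have h3 : cf (g' * (u : ℂ[X][X])) (0, 0) = cf g' (0, 0) * cf (u : ℂ[X][X]) (0, 0) := by
    simp [cf, mul_coeff_zero]
  rw [h3, h0, zero_mul]

theorem hpl_plof (h6 : ST_A6) (h7 : ST_A7) (h8 : ST_A8) (h17 : ST_A17) (h18 : ST_A18)
    {T : PStr L k} (hk : 0 < k) (hloc : T.S.loc = T.R ⟨0, hk⟩) {Q : Coord L}
    (h1 : Q.x = T.S.y / T.S.x) (h2 : Q.y = T.S.x) (hR : Rul (Ef Q) Q.y) {P : (Ef Q)[X]}
    (hP : P.Monic) (hPi : Irreducible P) {v : DVal L} (hv : PlOf (Ef Q) Q.y P v) :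
    T.Cur v ∧ (P.natDegree : ℤ) ≤ ip (fcl k 1) (T.cl v) := by
  rw [fcl_one_eq hk]
  change T.Cur v ∧ (P.natDegree : ℤ) ≤ deg T.S v - mul (T.R ⟨0, hk⟩) v
  by_cases hX : P = X
  · subst hX
    have h3 := pencil_zero h1 h2 hv
    rw [hloc] at h3
    obtain ⟨-, g2, -, -, -⟩ := h18 L k T ⟨0, hk⟩ v h3
    refine ⟨(h17 L k T v).2 (Or.inr ⟨_, h3⟩), ?_⟩
    rw [g2, natDegree_X]
    unfold mul
    rw [if_pos h3]
    norm_num
  · obtain ⟨g, hg, hgd⟩ := pencil_fin h1 h2 hR hP hPi hX hv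
    refine ⟨(h17 L k T v).2 (Or.inl (Or.inr ⟨g, hg⟩)), ?_⟩
    obtain ⟨g1, g2, g3⟩ := h8 L T.S v g hg
    rw [g1, ← hloc]
    by_cases h0 : cf g (0, 0) = 0
    · obtain ⟨g4, -⟩ := h7 L T.S v g hg h0
      rw [g4]
      omega
    · have hnt : ¬ Through T.S.loc v := by
        intro ht
        obtain ⟨g', hg', h0'⟩ := (h6 L T.S v).1 ht
        exact h0 (adic_cf hg hg' h0')
      have := mul_le_zero hnt
      omega

theorem hpl_inf (h6 : ST_A6) (h8 : ST_A8) (h17 : ST_A17) {T : PStr L k} (hk : 0 < k)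
    (hloc : T.S.loc = T.R ⟨0, hk⟩) {Q : Coord L} (h1 : Q.x = T.S.y / T.S.x) (h2 : Q.y = T.S.x)
    {v : DVal L} (hv : ∀ a : (Ef Q)[X], a ≠ 0 → v.v (aeval Q.y a) = - a.natDegree) :
    T.Cur v ∧ 1 ≤ ip (fcl k 1) (T.cl v) := by
  rw [fcl_one_eq hk]
  change T.Cur v ∧ 1 ≤ deg T.S v - mul (T.R ⟨0, hk⟩) v
  have h3 := pencil_inf h1 h2 hv
  refine ⟨(h17 L k T v).2 (Or.inl (Or.inl h3)), ?_⟩
  have hnt : ¬ Through T.S.loc v := by
    intro ht
    obtain ⟨g', hg', -⟩ := (h6 L T.S v).1 ht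
    exact (h8 L T.S v g' hg').2.2 h3
  rw [hloc] at hnt
  have h4 := mul_le_zero hnt
  have h5 : deg T.S v = 1 := by
    unfold deg
    rw [if_pos h3]
  omega

theorem hpl_cur (h6 : ST_A6) (h7 : ST_A7) (h8 : ST_A8) (h17 : ST_A17) (h18 : ST_A18)
    {T : PStr L k} (hk : 0 < k) (hloc : T.S.loc = T.R ⟨0, hk⟩) {Q : Coord L}
    (h1 : Q.x = T.S.y / T.S.x) (h2 : Q.y = T.S.x) (hR : Rul (Ef Q) Q.y) {v : DVal L}
    (hv : HPl (Ef Q) Q.y v) : T.Cur v ∧ 1 ≤ ip (fcl k 1) (T.cl v) := by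
  rcases hv with ⟨P, hP, hPi, hv⟩ | hv
  · obtain ⟨g1, g2⟩ := hpl_plof h6 h7 h8 h17 h18 hk hloc h1 h2 hR hP hPi hv
    have := hPi.natDegree_pos
    exact ⟨g1, by omega⟩
  · exact hpl_inf h6 h8 h17 hk hloc h1 h2 hv

variable {ω : Bracket L} {x : Fin (N + 1) → L} {T : PStr L k} {p : ℕ} {B : Type} [Fintype B]
  {w : B → DVal L} {c : B → ℤ} {τ : Cl ℤ (Fin k)}

/-- **The cover is ruled.** -/
theorem Sel.ruled (h6 : ST_A6) (h7 : ST_A7) (h8 : ST_A8) (h17 : ST_A17) (h18 : ST_A18)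
    (hA : Adm ω x) (hk : 0 < k) (hloc : T.S.loc = T.R ⟨0, hk⟩) (h : Sel ω x T p w c τ)
    (hG : Good (fun b => T.cl (w b))) {g : L} (hg : g ≠ 0) {D : DVal L → ℤ}
    (hgD : ∀ v, T.Cur v → (∀ b, ¬ v.Same (w b)) → v.v g = p * D (H97.nrm v))
    {L' : Type} [Field L'] [Algebra ℂ L'] [Algebra L L'] [IsScalarTower ℂ L L']
    [FiniteDimensional L L'] (κ : Kum L L' p g) :
    ∃ (E' : IntermediateField ℂ L') (t' : L'), IsRuling E' t' := by
  obtain ⟨Q, h1, h2⟩ := exists_bl T.S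
  have hrul := H2.isRuling Q
  have hR : Rul (Ef Q) Q.y := rul_of_ruling hrul hA.trdeg
  have hE : Algebra.trdeg ℂ (Ef Q) = 1 := hrul.1
  have hexc : ∀ v, T.Cur v → ¬ (p : ℤ) ∣ v.v g → ∃ b, v.Same (w b) := by
    intro v hv hnd
    by_contra hno
    push Not at hno
    exact hnd ⟨_, hgD v hv hno⟩
  have hgood : ∀ v, T.Cur v → 1 ≤ ip (fcl k 1) (T.cl v) → ¬ (p : ℤ) ∣ v.v g →
      ip (fcl k 1) (T.cl v) = 1 ∧ ∃ b1 b2, (∀ b, 1 ≤ ip (fcl k 1) (T.cl (w b)) →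
        b = b1 ∨ b = b2) := by
    intro v hv h3 hnd
    obtain ⟨b, hb⟩ := hexc v hv hnd
    have h4 : T.cl v = T.cl (w b) := H97.cl_congr hb T
    rw [h4] at h3 ⊢
    rcases hG with hG | ⟨b1, b2, -, hb1, hb2, hb3⟩
    · have := hG b
      dsimp only at this
      omega
    · have h5 : ∀ b, 1 ≤ ip (fcl k 1) (T.cl (w b)) → b = b1 ∨ b = b2 := by
        intro b' h6
        by_contra hno
        push Not at hno
        have := hb3 b' hno.1 hno.2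
        dsimp only at this
        omega
      refine ⟨?_, b1, b2, h5⟩
      rcases h5 b h3 with h6 | h6
      · rw [h6]; exact hb1
      · rw [h6]; exact hb2
  refine rul_kum hR hE (sE_tr Q) κ h.pr hg ?_ ?_
  · intro P hP hPi v hv hnd
    obtain ⟨g1, g2⟩ := hpl_plof h6 h7 h8 h17 h18 hk hloc h1 h2 hR hP hPi hv
    have h3 := hPi.natDegree_pos
    have h4 := (hgood v g1 (by omega) hnd).1
    omega
  · intro v1 v2 v3 hv1 hv2 hv3 h12 h13 h23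
    by_contra hno
    push Not at hno
    obtain ⟨n1, n2, n3⟩ := hno
    obtain ⟨c1, f1⟩ := hpl_cur h6 h7 h8 h17 h18 hk hloc h1 h2 hR hv1
    obtain ⟨c2, f2⟩ := hpl_cur h6 h7 h8 h17 h18 hk hloc h1 h2 hR hv2
    obtain ⟨c3, f3⟩ := hpl_cur h6 h7 h8 h17 h18 hk hloc h1 h2 hR hv3
    obtain ⟨-, b1, b2, hb⟩ := hgood v1 c1 f1 n1
    obtain ⟨a1, e1⟩ := hexc v1 c1 n1
    obtain ⟨a2, e2⟩ := hexc v2 c2 n2
    obtain ⟨a3, e3⟩ := hexc v3 c3 n3
    have k1 := hb a1 (by rw [← H97.cl_congr e1 T]; exact f1)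
    have k2 := hb a2 (by rw [← H97.cl_congr e2 T]; exact f2)
    have k3 := hb a3 (by rw [← H97.cl_congr e3 T]; exact f3)
    have d12 : a1 ≠ a2 := by
      rintro rfl
      exact h12 (H97.same_trans e1 (H97.same_symm e2))
    have d13 : a1 ≠ a3 := by
      rintro rfl
      exact h13 (H97.same_trans e1 (H97.same_symm e3))
    have d23 : a2 ≠ a3 := by
      rintro rfl
      exact h23 (H97.same_trans e2 (H97.same_symm e3))
    rcases k1 with rfl | rfl <;> rcases k2 with rfl | rfl <;> rcases k3 with rfl | rfl <;>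
      simp_all

/-- **The step of the induction over covers.** -/
theorem covg (h6 : ST_A6) (h7 : ST_A7) (h8 : ST_A8) (h9 : ST_A9) (h15 : ST_A15) (h16 : ST_A16)
    (h17 : ST_A17) (h18 : ST_A18) (hTY : ST_TY) (hB2 : ST_B2K) (hB3 : ST_B3) (hB4 : ST_B4)
    (hD0 : ST_D0) (hC3 : ST_C3) (hC4 : ST_C4) (hC5 : ST_C5) (hPG : ST_PG) (hST : ST_STEP)
    (hWP : ∀ (L : Type) [Field L] [Algebra ℂ L] (N : ℕ) (ω : Bracket L) (x : Fin (N + 1) → L),
      Adm ω x → ∀ v k, ω.Wt v k → WtProp ω v k) : ST_COVG := by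
  intro L _ _ N ω x hA k T hk hS hF hZ
  have hWP' := hWP L N ω x hA
  have hex : ∀ v : DVal L, ∃ n, ω.Wt v n := fun v => H73.exists_wt hA.trdeg hA.fg ω v
  choose wt hwt using hex
  have hu : ∀ v k, ω.Wt v k → k = wt v := fun v k hk =>
    (H73.wt_all hA.trdeg hA.fg ω v (hwt v)).2.2.2 k hk
  obtain ⟨p, B, _, w, c, τ, ⟨b0⟩, hsel⟩ := exists_sel hS hF hZ
  obtain ⟨T1, B1, _, w1, c1, τ1, -, ⟨b1⟩, hsel1, hG, hk1⟩ :=
    hsel.good hTY hC3 hC5 hST h17 h18 b0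
  obtain ⟨T2, hX2, hR2, hcl2, hloc⟩ := exists_norm hPG T1 hk1
  have hsel2 := hsel1.congr hX2 hcl2
  obtain ⟨g, hg, hgb, D, hD, hgD⟩ := hsel2.exists_g hB3 hB4
  refine ⟨p, g, hsel.pr, hg, ?_, ?_, ?_⟩
  · intro b hb
    have hb0 : b ≠ 0 := by
      rintro rfl
      rw [zero_pow hsel.pr.ne_zero] at hb
      exact hg hb.symm
    apply hgb b1
    rw [← hb, (w1 b1).map_pow hb0]
    exact dvd_mul_right _ _
  · intro v n hn hv
    have hn' := hu v n hn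
    exact hsel2.dvd h9 h15 h16 hC3 hC4 hB2 hD0 hA hWP' hwt hu hg hD hgD v (by rwa [← hn'])
  · intro L' _ _ _ _ _ κ
    have hG2 : Good (fun b => T2.cl (w1 b)) := by
      have h1 : (fun b => T2.cl (w1 b)) = fun b => T1.cl (w1 b) := funext fun b => hcl2 _
      rw [h1]
      exact hG
    exact hsel2.ruled h6 h7 h8 h17 h18 hA hk1 hloc hG2 hg hgD κ

end

end LCY.H89
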