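import Pool.Agent.Helper82.LCY.Step

/-!
Block COV of MP_f7e214_ag, part B: configurations of curves orthogonal to the canonical class
carrying a class divisible by a prime.  Positivity functional, test vectors, the forest lemma.
-/

namespace LCY.H89

open Finset Pool.Agent.Helper82.LCY

variable {k : ℕ}

/-- The class is `e_p - e_q`. -/
def Exc (C : Cl ℤ (Fin k)) (p q : Fin k) : Prop :=
  p < q ∧ C.1 = 0 ∧ ∀ l, C.2 l = (if l = q then 1 else 0) - (if l = p then 1 else 0)

theorem exc_of_typeB {C : Cl ℤ (Fin k)} {p : Fin k} (h : TypeB p C) (hK : ip KK C = 0) :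
    ∃ q, Exc C p q := by
  classical
  obtain ⟨h0, h1, h2, h3⟩ := h
  rw [ip_KK, h0, mul_zero, zero_add] at hK
  rw [← Finset.add_sum_erase _ _ (Finset.mem_univ p), h1] at hK
  have hnn : ∀ i ∈ Finset.univ.erase p, 0 ≤ C.2 i := by
    intro i hi
    rw [Finset.mem_erase] at hi
    rcases lt_trichotomy i p with h | h | h
    · rw [h2 i h]
    · exact absurd h hi.1
    · rcases h3 i h with h' | h' <;> rw [h']
      norm_num
  obtain ⟨q, hq, hq1⟩ : ∃ q ∈ Finset.univ.erase p, C.2 q ≠ 0 := by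
    by_contra hno
    push Not at hno
    rw [Finset.sum_eq_zero hno] at hK
    norm_num at hK
  have hqp : p < q := by
    rw [Finset.mem_erase] at hq
    rcases lt_trichotomy q p with h | h | h
    · exact absurd (h2 q h) hq1
    · exact absurd h hq.1
    · exact h
  have hq2 : C.2 q = 1 := (h3 q hqp).resolve_left hq1
  rw [← Finset.add_sum_erase _ _ hq, hq2] at hK
  have hz : ∑ i ∈ (Finset.univ.erase p).erase q, C.2 i = 0 := by linarith
  have hz' := (Finset.sum_eq_zero_iff_of_nonneg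
    (fun i hi => hnn i (Finset.mem_of_mem_erase hi))).1 hz
  refine ⟨q, hqp, h0, fun l => ?_⟩
  by_cases hl : l = q
  · subst hl
    rw [if_pos rfl, if_neg hqp.ne', hq2, sub_zero]
  · by_cases hl' : l = p
    · subst hl'
      rw [if_neg hl, if_pos rfl, h1]; norm_num
    · rw [if_neg hl, if_neg hl', sub_zero]
      exact hz' l (by simp [hl, hl'])

/-- A finite configuration of curves of square `-2` orthogonal to the canonical class. -/
structure Conf {B : Type*} (C : B → Cl ℤ (Fin k)) : Prop where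
  hk : k ≤ 8
  types : ∀ b, TypeA (C b) ∨ ∃ p, TypeB p (C b)
  perp : ∀ b, ip KK (C b) = 0
  sq : ∀ b, ip (C b) (C b) = -2
  off : ∀ b b', b ≠ b' → 0 ≤ ip (C b) (C b')

variable {B : Type*} {C : B → Cl ℤ (Fin k)}

theorem Conf.form (h : Conf C) (b : B) : TypeA (C b) ∨ ∃ p q, Exc (C b) p q := by
  rcases h.types b with h1 | ⟨p, h1⟩
  · exact Or.inl h1
  · obtain ⟨q, hq⟩ := exc_of_typeB h1 (h.perp b)
    exact Or.inr ⟨p, q, hq⟩

theorem Conf.roots (h : Conf C) {b : B} (hA : TypeA (C b)) :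
    ((C b).1 = 1 ∧ ∀ i, (C b).2 i = 0 ∨ (C b).2 i = 1) ∨
    ((C b).1 = 2 ∧ ∀ i, (C b).2 i = 0 ∨ (C b).2 i = 1) ∨
    ((C b).1 = 3 ∧ k = 8 ∧ ∃ i0, (C b).2 i0 = 2 ∧ ∀ i, i ≠ i0 → (C b).2 i = 1) := by
  have := Pool.Agent.Helper82.LCY.roots (C := C b) (by simpa using h.hk)
    (by have := hA.1; omega) (fun i => (hA.2 i).1) (h.sq b) (h.perp b)
  simpa using this

/-- the positivity functional -/
def phi (k : ℕ) (x : Cl ℤ (Fin k)) : ℤ :=
  (3 * (k : ℤ) + 1) * x.1 - ∑ i : Fin k, x.2 i * ((k : ℤ) - (i : ℕ))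

theorem phi_sum {κ : Type*} (s : Finset κ) (n : κ → ℤ) (f : κ → Cl ℤ (Fin k)) :
    phi k (∑ c ∈ s, n c • f c) = ∑ c ∈ s, n c * phi k (f c) := by
  classical
  induction s using Finset.induction_on with
  | empty => simp [phi]
  | insert a s ha ih =>
    rw [Finset.sum_insert ha, Finset.sum_insert ha, ← ih]
    simp only [phi, Prod.fst_add, Prod.snd_add, Prod.smul_fst, Prod.smul_snd, Pi.add_apply,
      Pi.smul_apply, smul_eq_mul, add_mul, Finset.sum_add_distrib, mul_assoc, ← Finset.mul_sum]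
    ring

theorem Conf.phi_pos (h : Conf C) (b : B) : 0 < phi k (C b) := by
  classical
  rcases h.form b with hA | ⟨p, q, hpq, h0, hm⟩
  · have hK := h.perp b
    rw [ip_KK] at hK
    have h1 : ∑ i : Fin k, (C b).2 i * ((k : ℤ) - (i : ℕ)) ≤ ∑ i : Fin k, (C b).2 i * (k : ℤ) :=
      Finset.sum_le_sum fun i _ => mul_le_mul_of_nonneg_left (by omega) (hA.2 i).1
    rw [← Finset.sum_mul] at h1
    have h2 : ∑ i : Fin k, (C b).2 i = 3 * (C b).1 := by linarith
    rw [h2] at h1
    have h3 := hA.1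
    simp only [phi]
    nlinarith
  · simp only [phi, h0, mul_zero, zero_sub]
    have : ∑ i : Fin k, (C b).2 i * ((k : ℤ) - (i : ℕ))
        = ((k : ℤ) - (q : ℕ)) - ((k : ℤ) - (p : ℕ)) := by
      simp only [hm, sub_mul, ite_mul, one_mul, zero_mul, Finset.sum_sub_distrib,
        Finset.sum_ite_eq', Finset.mem_univ, if_true]
    rw [this]
    have : (p : ℕ) < (q : ℕ) := hpq
    omega

variable [Fintype B]

theorem Conf.ip_KK_sum (h : Conf C) (y : B → ℤ) : ip KK (∑ b, y b • C b) = 0 := by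
  rw [ip_sum_right]
  exact Finset.sum_eq_zero fun b _ => by rw [ip_smul_right, h.perp, mul_zero]

/-- **Test vectors.** -/
theorem Conf.test (h : Conf C) (y : B → ℤ) (h0 : ∀ b, 0 ≤ y b)
    (h1 : ∀ b, 0 < y b → 0 ≤ ip (∑ b', y b' • C b') (C b)) : ∀ b, y b = 0 := by
  have hsq : 0 ≤ ip (∑ b', y b' • C b') (∑ b', y b' • C b') := by
    rw [ip_sum_right]
    refine Finset.sum_nonneg fun b _ => ?_
    rw [ip_smul_right]
    rcases (h0 b).eq_or_lt with h2 | h2
    · rw [← h2, zero_mul]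
    · exact mul_nonneg h2.le (h1 b h2)
  have hz := eq_zero_of_perp (by simpa using h.hk) (h.ip_KK_sum y) hsq
  have hphi := phi_sum (k := k) Finset.univ y C
  rw [hz] at hphi
  have hp0 : phi k 0 = 0 := by simp [phi]
  rw [hp0] at hphi
  have := (Finset.sum_eq_zero_iff_of_nonneg
    (fun b _ => mul_nonneg (h0 b) (h.phi_pos b).le)).1 hphi.symm
  intro b
  exact (mul_eq_zero.1 (this b (Finset.mem_univ b))).resolve_right (h.phi_pos b).ne'

theorem Conf.ip_sum (y : B → ℤ) (b : B) :
    ip (∑ b', y b' • C b') (C b) = ∑ b', y b' * ip (C b') (C b) := by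
  rw [ip_sum_left]
  exact Finset.sum_congr rfl fun b' _ => ip_smul_left _ _ _

theorem Conf.ip_sum' [DecidableEq B] (h : Conf C) (y : B → ℤ) (b : B) :
    ip (∑ b', y b' • C b') (C b)
      = -2 * y b + ∑ b' ∈ Finset.univ.erase b, y b' * ip (C b') (C b) := by
  rw [Conf.ip_sum, ← Finset.add_sum_erase _ _ (Finset.mem_univ b), h.sq b]
  ring

omit [Fintype B] in
theorem Conf.off_le (h : Conf C) (b b' : B) : ip (C b) (C b') ≤ 1 := by
  classical
  by_contra hcon
  push Not at hcon
  have h1 : 0 ≤ ip (C b + C b') (C b + C b') := by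
    rw [ip_add_left, ip_add_right, ip_add_right, h.sq, h.sq, ip_comm (C b')]
    linarith
  have h2 : ip KK (C b + C b') = 0 := by rw [ip_add_right, h.perp, h.perp, add_zero]
  have h3 := eq_zero_of_perp (by simpa using h.hk) h2 h1
  have h4 : phi k (C b + C b') = phi k (C b) + phi k (C b') := by
    simp only [phi, Prod.fst_add, Prod.snd_add, Pi.add_apply, add_mul, Finset.sum_add_distrib]
    ring
  rw [h3] at h4
  have h5 : phi k 0 = 0 := by simp [phi]
  have := h.phi_pos b
  have := h.phi_pos b'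
  linarith

omit [Fintype B] in
theorem Conf.off_eq (h : Conf C) {b b' : B} (hb : b ≠ b') :
    ip (C b) (C b') = 0 ∨ ip (C b) (C b') = 1 := by
  have := h.off b b' hb
  have := h.off_le b b'
  omega

end LCY.H89
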