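import Pool.Agent.Helper89.LCY.CovB

/-!
Block COV of MP_f7e214_ag, part C: the forest lemma and its consequences for the classes `f_j`.
-/

namespace LCY.H89

open Finset Pool.Agent.Helper82.LCY

variable {k : ℕ}

theorem ip_exc {C D : Cl ℤ (Fin k)} {p q : Fin k} (h : Exc C p q) :
    ip D C = D.2 p - D.2 q := by
  obtain ⟨_, h0, hm⟩ := h
  simp only [ip, h0, hm, mul_zero, zero_sub, mul_sub, mul_ite, mul_one, Finset.sum_sub_distrib,
    Finset.sum_ite_eq', Finset.mem_univ, if_true]
  ring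

theorem Exc.at_p {C : Cl ℤ (Fin k)} {p q : Fin k} (h : Exc C p q) : C.2 p = -1 := by
  rw [h.2.2, if_neg h.1.ne, if_pos rfl]; norm_num

theorem Exc.at_q {C : Cl ℤ (Fin k)} {p q : Fin k} (h : Exc C p q) : C.2 q = 1 := by
  rw [h.2.2, if_pos rfl, if_neg h.1.ne']; norm_num

theorem Exc.at_ne {C : Cl ℤ (Fin k)} {p q l : Fin k} (h : Exc C p q) (hp : l ≠ p)
    (hq : l ≠ q) : C.2 l = 0 := by
  rw [h.2.2, if_neg hq, if_neg hp]; norm_num

/-- two curves `e_p - e_q`, `e_p - e_q'` have negative intersection number -/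
theorem exc_exc_neg {C C' : Cl ℤ (Fin k)} {p q q' : Fin k} (h : Exc C p q) (h' : Exc C' p q') :
    ip C' C < 0 := by
  rw [ip_exc h, h'.at_p]
  have : 0 ≤ C'.2 q := by
    rw [h'.2.2, if_neg h.1.ne']
    split_ifs <;> norm_num
  linarith

/-- `f_j` and the tail of the multiplicities -/
theorem fcl_tail {C : Cl ℤ (Fin k)} (hK : ip KK C = 0) {j : ℕ} (hj : 3 ≤ j) :
    ip (fcl k j) C = ∑ i : Fin k, if j ≤ (i : ℕ) then C.2 i else 0 := by
  rw [ip_KK] at hK
  simp only [ip, fcl]
  rw [if_neg (by omega), if_neg (by omega), if_neg (by omega)]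
  have h1 : ∑ i : Fin k, C.2 i = ∑ i : Fin k, (if (i : ℕ) < j then 1 else 0) * C.2 i
      + ∑ i : Fin k, if j ≤ (i : ℕ) then C.2 i else 0 := by
    rw [← Finset.sum_add_distrib]
    refine Finset.sum_congr rfl fun i _ => ?_
    by_cases h : (i : ℕ) < j
    · rw [if_pos h, if_neg (by omega)]; ring
    · rw [if_neg h, if_pos (by omega)]; ring
  linarith

theorem exc_tail {C : Cl ℤ (Fin k)} {p q : Fin k} (h : Exc C p q) (j : ℕ) :
    (∑ i : Fin k, if j ≤ (i : ℕ) then C.2 i else 0)
      = (if j ≤ (q : ℕ) then 1 else 0) - (if j ≤ (p : ℕ) then 1 else 0) := by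
  have h1 : ∀ i : Fin k, (if j ≤ (i : ℕ) then C.2 i else 0)
      = (if i = q then (if j ≤ (q : ℕ) then (1 : ℤ) else 0) else 0)
        - (if i = p then (if j ≤ (p : ℕ) then (1 : ℤ) else 0) else 0) := by
    intro i
    rw [h.2.2]
    by_cases hq : i = q
    · subst hq
      rw [if_pos rfl, if_pos rfl, if_neg h.1.ne', if_neg h.1.ne']
      simp
    · by_cases hp : i = p
      · subst hp
        rw [if_neg hq, if_neg hq, if_pos rfl, if_pos rfl]
        split_ifs <;> norm_num
      · rw [if_neg hq, if_neg hq, if_neg hp, if_neg hp]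
        simp
  rw [Finset.sum_congr rfl fun i _ => h1 i, Finset.sum_sub_distrib]
  simp

variable {B : Type*} {C : B → Cl ℤ (Fin k)}

/-- The class is supported on the first `j` points. -/
def Loc (j : ℕ) (x : Cl ℤ (Fin k)) : Prop := ∀ i : Fin k, j ≤ (i : ℕ) → x.2 i = 0

theorem Conf.loc (h : Conf C) {b : B} {j : ℕ} (hj : 3 ≤ j)
    (hf : ip (fcl k j) (C b) = 0) : Loc j (C b) ∨ ∃ p q, Exc (C b) p q ∧ j ≤ (p : ℕ) := by
  rw [fcl_tail (h.perp b) hj] at hf
  rcases h.form b with hA | ⟨p, q, he⟩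
  · left
    have hnn : ∀ i ∈ (Finset.univ : Finset (Fin k)), 0 ≤ (if j ≤ (i : ℕ) then (C b).2 i else 0) := by
      intro i _
      split_ifs
      · exact (hA.2 i).1
      · exact le_rfl
    have := (Finset.sum_eq_zero_iff_of_nonneg hnn).1 hf
    intro i hi
    have h1 := this i (Finset.mem_univ i)
    rwa [if_pos hi] at h1
  · rw [exc_tail he] at hf
    have hpq : (p : ℕ) < (q : ℕ) := he.1
    by_cases hp : j ≤ (p : ℕ)
    · exact Or.inr ⟨p, q, he, hp⟩
    · left
      have hq : ¬ j ≤ (q : ℕ) := by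
        intro hq
        rw [if_pos hq, if_neg hp] at hf
        norm_num at hf
      intro i hi
      refine he.at_ne ?_ ?_
      · rintro rfl; exact hp hi
      · rintro rfl; exact hq hi

variable [Fintype B]

theorem coord_eq {m : ℤ} {c : B → ℤ} {τ : Cl ℤ (Fin k)} (hτ : ∑ b, c b • C b = m • τ)
    (i : Fin k) : ∑ b, c b * (C b).2 i = m * τ.2 i := by
  have h1 := congrArg (fun x : Cl ℤ (Fin k) => x.2 i) hτ
  simpa [Prod.snd_sum] using h1

theorem deg_eq {m : ℤ} {c : B → ℤ} {τ : Cl ℤ (Fin k)} (hτ : ∑ b, c b • C b = m • τ) :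
    ∑ b, c b * (C b).1 = m * τ.1 := by
  have h1 := congrArg (fun x : Cl ℤ (Fin k) => x.1) hτ
  simpa [Prod.fst_sum] using h1

theorem ip_eq {m : ℤ} {c : B → ℤ} {τ : Cl ℤ (Fin k)} (hτ : ∑ b, c b • C b = m • τ)
    (x : Cl ℤ (Fin k)) : ∑ b, c b * ip x (C b) = m * ip x τ := by
  rw [← ip_smul_right, ← hτ, ip_sum_right]
  exact Finset.sum_congr rfl fun b _ => (ip_smul_right _ _ _).symm

/-- **FOREST.** No curve `e_p - e_q` with `j ≤ p` can occur if all other curves are supported
on the first `j` points. -/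
theorem Conf.forest (h : Conf C) {m : ℤ} {c : B → ℤ} {τ : Cl ℤ (Fin k)}
    (hc : ∀ b, ¬ m ∣ c b) (hτ : ∑ b, c b • C b = m • τ) {j : ℕ}
    (hj : ∀ b, Loc j (C b) ∨ ∃ p q, Exc (C b) p q ∧ j ≤ (p : ℕ)) (b : B) : Loc j (C b) := by
  classical
  by_contra hb
  obtain ⟨p0, q0, he0, hp0⟩ := (hj b).resolve_left hb
  have hex : ∃ n : ℕ, ∃ (b : B) (p q : Fin k), Exc (C b) p q ∧ j ≤ (p : ℕ) ∧ (p : ℕ) = n :=
    ⟨_, b, p0, q0, he0, hp0, rfl⟩
  obtain ⟨b1, p, q, he, hjp, hpn⟩ := Nat.find_spec hex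
  have hz : ∀ b', b' ≠ b1 → (C b').2 p = 0 := by
    intro b' hb'
    rcases hj b' with h1 | ⟨p', q', he', hp'⟩
    · exact h1 p hjp
    · have hmin : (p : ℕ) ≤ (p' : ℕ) := by
        rw [hpn]
        exact Nat.find_min' hex ⟨b', p', q', he', hp', rfl⟩
      have hpq' : (p' : ℕ) < (q' : ℕ) := he'.1
      refine he'.at_ne ?_ ?_
      · intro heq
        rw [← heq] at he'
        have h1 := exc_exc_neg he he'
        have h2 := h.off b' b1 hb'
        linarith
      · intro heq
        rw [← heq] at hpq'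
        omega
  have h1 := coord_eq hτ p
  rw [Finset.sum_eq_single b1 (fun b' _ hb' => by rw [hz b' hb', mul_zero])
    (fun hn => absurd (Finset.mem_univ _) hn), he.at_p] at h1
  exact hc b1 ⟨-τ.2 p, by linarith⟩

/-- `j = 0` is impossible -/
theorem Conf.ne_zero (h : Conf C) {m : ℤ} {c : B → ℤ} {τ : Cl ℤ (Fin k)}
    (hc : ∀ b, ¬ m ∣ c b) (hτ : ∑ b, c b • C b = m • τ) (b0 : B)
    (hf : ∀ b, ip (fcl k 0) (C b) = 0) : False := by
  have h1 : ∀ b, ∃ p q, Exc (C b) p q := by
    intro b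
    rcases h.form b with hA | hB
    · exfalso
      have := hf b
      simp only [ip, fcl] at this
      have h2 := hA.1
      simp at this
      omega
    · exact hB
  obtain ⟨p, q, he⟩ := h1 b0
  have h2 := h.forest hc hτ (j := 0)
    (fun b => Or.inr (by obtain ⟨p, q, he⟩ := h1 b; exact ⟨p, q, he, Nat.zero_le _⟩)) b0
  have := h2 p (Nat.zero_le _)
  rw [he.at_p] at this
  norm_num at this

theorem ip_fcl_two (hk : 2 ≤ k) (D : Cl ℤ (Fin k)) :
    ip (fcl k 2) D = 2 * D.1 - D.2 ⟨0, by omega⟩ - D.2 ⟨1, by omega⟩ := by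
  rw [ip_fcl]
  have h0 : 0 < k := by omega
  have h1 : 1 < k := by omega
  simp [fdeg, Finset.sum_range_succ, Pool.Agent.Helper82.LCY.ext, h0, h1]
  ring

/-- `j = 2` is impossible -/
theorem Conf.ne_two (h : Conf C) (hk : 2 ≤ k) {m : ℤ} {c : B → ℤ} {τ : Cl ℤ (Fin k)}
    (hc : ∀ b, ¬ m ∣ c b) (hτ : ∑ b, c b • C b = m • τ) (b0 : B)
    (hf : ∀ b, ip (fcl k 2) (C b) = 0) : False := by
  classical
  set i0 : Fin k := ⟨0, by omega⟩ with hi0
  set i1 : Fin k := ⟨1, by omega⟩ with hi1
  have hf' : ∀ b, 2 * (C b).1 - (C b).2 i0 - (C b).2 i1 = 0 := fun b => by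
    rw [← ip_fcl_two hk]; exact hf b
  -- type A curves
  have hA : ∀ b, TypeA (C b) → (C b).1 = 1 ∧ (C b).2 i0 = 1 ∧ (C b).2 i1 = 1 := by
    intro b hb
    have h1 := hf' b
    rcases h.roots hb with ⟨h2, h3⟩ | ⟨h2, h3⟩ | ⟨h2, -, l, h4, h5⟩
    · rcases h3 i0 with h6 | h6 <;> rcases h3 i1 with h7 | h7 <;> omega
    · exfalso
      rcases h3 i0 with h6 | h6 <;> rcases h3 i1 with h7 | h7 <;> omega
    · exfalso
      have h01 : i0 ≠ i1 := by
        intro heq
        have := congrArg Fin.val heq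
        simp [hi0, hi1] at this
      have h6 : (C b).2 i0 ≤ 2 := by
        by_cases hl : i0 = l
        · rw [hl, h4]
        · rw [h5 _ hl]; norm_num
      have h7 : (C b).2 i1 ≤ 2 := by
        by_cases hl : i1 = l
        · rw [hl, h4]
        · rw [h5 _ hl]; norm_num
      omega
  -- type B curves
  have hB : ∀ b p q, Exc (C b) p q → (p = i0 ∧ q = i1) ∨ 2 ≤ (p : ℕ) := by
    intro b p q he
    have h1 := hf' b
    rw [he.2.1] at h1
    have hpq : (p : ℕ) < (q : ℕ) := he.1
    by_cases hp2 : 2 ≤ (p : ℕ)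
    · exact Or.inr hp2
    · left
      have hp01 : p = i0 ∨ p = i1 := by
        rcases (by omega : (p : ℕ) = 0 ∨ (p : ℕ) = 1) with h2 | h2
        · exact Or.inl (Fin.ext h2)
        · exact Or.inr (Fin.ext h2)
      rcases hp01 with h2 | h2
      · refine ⟨h2, ?_⟩
        by_contra hq
        subst h2
        have h3 := he.at_p
        have h4 := he.at_ne (l := i1) (by
          intro heq
          have := congrArg Fin.val heq
          simp [hi0, hi1] at this) (Ne.symm hq)
        omega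
      · exfalso
        subst h2
        have h3 := he.at_p
        have h5 : (i1 : ℕ) = 1 := rfl
        have h4 := he.at_ne (l := i0) (by
          intro heq
          have := congrArg Fin.val heq
          simp [hi0, hi1] at this) (by
          intro heq
          have := congrArg Fin.val heq
          simp [hi0] at this
          omega)
        omega
  -- no type A curve
  have hnoA : ∀ b, ¬ TypeA (C b) := by
    intro b hb
    obtain ⟨h1, h2, h3⟩ := hA b hb
    have hz : ∀ b', b' ≠ b → (C b').2 i0 + (C b').2 i1 - (C b').1 = 0 := by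
      intro b' hb'
      rcases h.form b' with hA' | ⟨p, q, he⟩
      · exfalso
        obtain ⟨g1, g2, g3⟩ := hA b' hA'
        have h4 := h.off b' b hb'
        have h5 : ∑ i ∈ ({i0, i1} : Finset (Fin k)), (C b').2 i * (C b).2 i
            ≤ ∑ i, (C b').2 i * (C b).2 i :=
          Finset.sum_le_sum_of_subset_of_nonneg (Finset.subset_univ _) fun i _ _ =>
            mul_nonneg (hA'.2 i).1 (hb.2 i).1
        rw [Finset.sum_pair (by
          intro heq
          have := congrArg Fin.val heq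
          simp [hi0, hi1] at this), g2, g3, h2, h3] at h5
        simp only [ip, g1, h1] at h4
        linarith
      · have h4 := hf' b'
        rw [he.2.1] at h4 ⊢
        omega
    have h4 := coord_eq hτ i0
    have h5 := coord_eq hτ i1
    have h6 := deg_eq hτ
    have h7 : ∑ b', c b' * ((C b').2 i0 + (C b').2 i1 - (C b').1)
        = m * (τ.2 i0 + τ.2 i1 - τ.1) := by
      have : ∑ b', c b' * ((C b').2 i0 + (C b').2 i1 - (C b').1)
          = ∑ b', c b' * (C b').2 i0 + ∑ b', c b' * (C b').2 i1 - ∑ b', c b' * (C b').1 := by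
        rw [← Finset.sum_add_distrib, ← Finset.sum_sub_distrib]
        exact Finset.sum_congr rfl fun b' _ => by ring
      rw [this, h4, h5, h6]; ring
    rw [Finset.sum_eq_single b (fun b' _ hb' => by rw [hz b' hb', mul_zero])
      (fun hn => absurd (Finset.mem_univ _) hn), h1, h2, h3] at h7
    exact hc b ⟨τ.2 i0 + τ.2 i1 - τ.1, by linarith⟩
  have hexc : ∀ b, ∃ p q, Exc (C b) p q := fun b => (h.form b).resolve_left (hnoA b)
  -- no curve e_0 - e_1
  have hno01 : ∀ b p q, Exc (C b) p q → 2 ≤ (p : ℕ) := by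
    intro b p q he
    rcases hB b p q he with ⟨h1, h2⟩ | h1
    · exfalso
      have hz : ∀ b', b' ≠ b → (C b').2 p = 0 := by
        intro b' hb'
        obtain ⟨p', q', he'⟩ := hexc b'
        rcases hB b' p' q' he' with ⟨g1, g2⟩ | g1
        · exfalso
          rw [g1, ← h1] at he'
          have h4 := exc_exc_neg he he'
          have h5 := h.off b' b hb'
          linarith
        · have hpq' : (p' : ℕ) < (q' : ℕ) := he'.1
          have hp0 : (p : ℕ) = 0 := by rw [h1]
          refine he'.at_ne ?_ ?_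
          · intro heq; rw [← heq] at g1; omega
          · intro heq; rw [← heq] at hpq'; omega
      have h4 := coord_eq hτ p
      rw [Finset.sum_eq_single b (fun b' _ hb' => by rw [hz b' hb', mul_zero])
        (fun hn => absurd (Finset.mem_univ _) hn), he.at_p] at h4
      exact hc b ⟨-τ.2 p, by linarith⟩
    · exact h1
  obtain ⟨p, q, he⟩ := hexc b0
  have h2 := h.forest hc hτ (j := 2)
    (fun b => Or.inr (by
      obtain ⟨p, q, he⟩ := hexc b
      exact ⟨p, q, he, hno01 b p q he⟩)) b0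
  have := h2 p (hno01 b0 p q he)
  rw [he.at_p] at this
  norm_num at this

/-- for `3 ≤ j` everything is supported on the first `j` points -/
theorem Conf.all_loc (h : Conf C) {m : ℤ} {c : B → ℤ} {τ : Cl ℤ (Fin k)}
    (hc : ∀ b, ¬ m ∣ c b) (hτ : ∑ b, c b • C b = m • τ) {j : ℕ} (hj : 3 ≤ j)
    (hf : ∀ b, ip (fcl k j) (C b) = 0) (b : B) : Loc j (C b) :=
  h.forest hc hτ (fun b => h.loc hj (hf b)) b

end LCY.H89
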