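import Pool.Agent.Helper89.LCY.CovC

/-!
Block COV of MP_f7e214_ag, part D: the primes two and three.
-/

namespace LCY.H89

open Finset Pool.Agent.Helper82.LCY

variable {k : ℕ}

/-! ### Generalities -/

/-- squares of classes orthogonal to `K` are even -/
theorem even_sq {x : Cl ℤ (Fin k)} (h : ip KK x = 0) : ∃ n, ip x x = 2 * n := by
  have h1 : ∀ a : ℤ, ∃ n, a * a = a + 2 * n := by
    intro a
    obtain ⟨n, hn⟩ := Int.even_mul_succ_self a
    exact ⟨n - a, by linarith⟩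
  choose g hg using h1
  rw [ip_KK] at h
  refine ⟨g x.1 - ∑ i, g (x.2 i) - x.1, ?_⟩
  simp only [ip]
  rw [Finset.sum_congr rfl fun i _ => hg (x.2 i), Finset.sum_add_distrib, ← Finset.mul_sum,
    hg x.1]
  linarith

theorem fcl_sq {j : ℕ} (hj : 3 ≤ j) (hjk : j ≤ k) : ip (fcl k j) (fcl k j) = 9 - (j : ℤ) := by
  rw [ip_fcl]
  have h1 : fdeg j = 3 := by
    unfold fdeg
    rw [if_neg (by omega), if_neg (by omega), if_neg (by omega)]
  have h2 : ∑ i ∈ range j, Pool.Agent.Helper82.LCY.ext (fcl k j).2 i = j := by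
    have : ∀ i ∈ range j, Pool.Agent.Helper82.LCY.ext (fcl k j).2 i = 1 := by
      intro i hi
      have hi' := Finset.mem_range.1 hi
      have hik : i < k := by omega
      simp [Pool.Agent.Helper82.LCY.ext, hik, fcl, hi']
    rw [Finset.sum_congr rfl this]
    simp
  rw [h1, h2]
  simp only [fcl]
  rw [if_neg (by omega), if_neg (by omega), if_neg (by omega)]
  ring

theorem loc_fcl (j : ℕ) : Loc j (fcl k j) := by
  intro i hi
  simp only [fcl]
  rw [if_neg (by omega)]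

theorem Loc.add {j : ℕ} {x y : Cl ℤ (Fin k)} (hx : Loc j x) (hy : Loc j y) : Loc j (x + y) := by
  intro i hi
  simp only [Prod.snd_add, Pi.add_apply, hx i hi, hy i hi, add_zero]

theorem Loc.smul {j : ℕ} {x : Cl ℤ (Fin k)} (a : ℤ) (hx : Loc j x) : Loc j (a • x) := by
  intro i hi
  simp only [Prod.smul_snd, Pi.smul_apply, hx i hi, smul_zero]

theorem Loc.sum {j : ℕ} {κ : Type*} (s : Finset κ) {f : κ → Cl ℤ (Fin k)}
    (h : ∀ c ∈ s, Loc j (f c)) : Loc j (∑ c ∈ s, f c) := by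
  intro i hi
  rw [Prod.snd_sum, Finset.sum_apply]
  exact Finset.sum_eq_zero fun c hc => h c hc i hi

/-- the unit vector -/
def uv (i : Fin k) : Cl ℤ (Fin k) := (0, fun l => if l = i then 1 else 0)

theorem ip_uv (i : Fin k) (x : Cl ℤ (Fin k)) : ip (uv i) x = -x.2 i := by
  simp [ip, uv]

theorem loc_uv {i : Fin k} {j : ℕ} (h : (i : ℕ) < j) : Loc j (uv i) := by
  intro l hl
  simp only [uv]
  rw [if_neg]
  intro heq
  rw [heq] at hl
  omega

variable {B : Type*} {C : B → Cl ℤ (Fin k)}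

/-- The classes span the classes on the first `j` points orthogonal to `f_j`. -/
def SpansLoc (C : B → Cl ℤ (Fin k)) (j : ℕ) : Prop :=
  ∀ x : Cl ℤ (Fin k), ip (fcl k j) x = 0 → Loc j x →
    ∃ n : ℤ, n ≠ 0 ∧ n • x ∈ Submodule.span ℤ (Set.range C)

theorem zero_of_span {j : ℕ} (hj : 3 ≤ j) (hjk : j ≤ k) (hk : k ≤ 8) (hs : SpansLoc C j)
    {z : Cl ℤ (Fin k)} (hz : ip (fcl k j) z = 0) (hl : Loc j z) (hC : ∀ b, ip z (C b) = 0) :
    z = 0 := by
  obtain ⟨n, hn, hmem⟩ := hs z hz hl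
  have h1 : ∀ y ∈ Submodule.span ℤ (Set.range C), ip z y = 0 := by
    intro y hy
    induction hy using Submodule.span_induction with
    | mem y hy => obtain ⟨b, rfl⟩ := hy; exact hC b
    | zero => exact ip_zero_right z
    | add x y _ _ hx hy => rw [ip_add_right, hx, hy, add_zero]
    | smul a x _ hx => rw [ip_smul_right, hx, mul_zero]
  have h2 := h1 _ hmem
  rw [ip_smul_right] at h2
  have h3 : ip z z = 0 := (mul_eq_zero.1 h2).resolve_left hn
  refine hodge (A := fcl k j) ?_ hz h3.ge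
  rw [fcl_sq hj hjk]
  omega

variable [Fintype B] [DecidableEq B]

/-- the congruences -/
theorem Conf.congr_dvd (h : Conf C) {m : ℤ} {c : B → ℤ} {τ : Cl ℤ (Fin k)}
    (hτ : ∑ b, c b • C b = m • τ) (b : B) :
    m ∣ -2 * c b + ∑ b' ∈ Finset.univ.erase b, c b' * ip (C b') (C b) := by
  rw [← h.ip_sum', hτ, ip_smul_left]
  exact Dvd.intro _ rfl

omit [DecidableEq B] in
theorem Conf.ip_KK_tau (h : Conf C) {m : ℤ} (hm : m ≠ 0) {c : B → ℤ} {τ : Cl ℤ (Fin k)}
    (hτ : ∑ b, c b • C b = m • τ) : ip KK τ = 0 := by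
  have h1 := h.ip_KK_sum c
  rw [hτ, ip_smul_right] at h1
  exact (mul_eq_zero.1 h1).resolve_left hm

/-! ### The prime two -/

theorem Conf.two_disjoint (h : Conf C) {c : B → ℤ} {τ : Cl ℤ (Fin k)}
    (hc : ∀ b, ¬ (2 : ℤ) ∣ c b) (hτ : ∑ b, c b • C b = (2 : ℤ) • τ) {b b' : B} (hb : b ≠ b') :
    ip (C b) (C b') = 0 := by
  classical
  set y : B → ℤ := fun b => if ∃ b', b' ≠ b ∧ ip (C b') (C b) = 1 then 1 else 0 with hy
  have hy0 : ∀ b, 0 ≤ y b := by
    intro b
    simp only [hy]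
    split_ifs <;> norm_num
  have hN : ∀ b, (2 : ℤ) ∣ ∑ b' ∈ Finset.univ.erase b, ip (C b') (C b) := by
    intro b
    have h1 := h.congr_dvd hτ b
    have h2 : (2 : ℤ) ∣ ∑ b' ∈ Finset.univ.erase b, c b' * ip (C b') (C b) := by
      have := (Int.dvd_add_right (⟨-c b, by ring⟩ : (2 : ℤ) ∣ -2 * c b)).1 h1
      exact this
    have h3 : (2 : ℤ) ∣ ∑ b' ∈ Finset.univ.erase b, (c b' - 1) * ip (C b') (C b) := by
      refine Finset.dvd_sum fun b' _ => Dvd.dvd.mul_right ?_ _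
      have := hc b'
      omega
    have h4 : ∑ b' ∈ Finset.univ.erase b, ip (C b') (C b)
        = ∑ b' ∈ Finset.univ.erase b, c b' * ip (C b') (C b)
          - ∑ b' ∈ Finset.univ.erase b, (c b' - 1) * ip (C b') (C b) := by
      rw [← Finset.sum_sub_distrib]
      exact Finset.sum_congr rfl fun b' _ => by ring
    rw [h4]
    exact dvd_sub h2 h3
  have hnn : ∀ b, ∀ b' ∈ Finset.univ.erase b, 0 ≤ ip (C b') (C b) := fun b b' hb' =>
    h.off _ _ (Finset.ne_of_mem_erase hb')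
  have h1 : ∀ b, 0 < y b → 0 ≤ ip (∑ b', y b' • C b') (C b) := by
    intro b hyb
    have hex : ∃ b', b' ≠ b ∧ ip (C b') (C b) = 1 := by
      by_contra hno
      simp only [hy, if_neg hno] at hyb
      exact lt_irrefl _ hyb
    have hyb1 : y b = 1 := by simp only [hy]; rw [if_pos hex]
    rw [h.ip_sum', hyb1]
    have h2 : ∑ b' ∈ Finset.univ.erase b, y b' * ip (C b') (C b)
        = ∑ b' ∈ Finset.univ.erase b, ip (C b') (C b) := by
      refine Finset.sum_congr rfl fun b' hb' => ?_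
      have hne := Finset.ne_of_mem_erase hb'
      rcases h.off_eq hne with h0 | h0
      · rw [h0, mul_zero]
      · have : y b' = 1 := by
          simp only [hy]
          rw [if_pos ⟨b, hne.symm, by rw [ip_comm]; exact h0⟩]
        rw [this, one_mul]
    rw [h2]
    obtain ⟨b', hb', hb1⟩ := hex
    have h3 : ip (C b') (C b) ≤ ∑ b' ∈ Finset.univ.erase b, ip (C b') (C b) :=
      Finset.single_le_sum (f := fun b' => ip (C b') (C b)) (hnn b)
        (Finset.mem_erase.2 ⟨hb', Finset.mem_univ _⟩)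
    obtain ⟨n, hn⟩ := hN b
    omega
  have h2 := h.test y hy0 h1 b'
  rcases h.off_eq hb with h3 | h3
  · exact h3
  · exfalso
    simp only [hy] at h2
    rw [if_pos ⟨b, hb, h3⟩] at h2
    norm_num at h2

/-- the number of curves is divisible by four -/
theorem Conf.two_card (h : Conf C) {c : B → ℤ} {τ : Cl ℤ (Fin k)}
    (hc : ∀ b, ¬ (2 : ℤ) ∣ c b) (hτ : ∑ b, c b • C b = (2 : ℤ) • τ) :
    (4 : ℤ) ∣ Fintype.card B := by
  have hK := h.ip_KK_tau (by norm_num) hτ
  obtain ⟨n, hn⟩ := even_sq hK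
  have h1 : ip (∑ b, c b • C b) (∑ b, c b • C b) = ∑ b, -2 * (c b * c b) := by
    rw [ip_sum_right]
    refine Finset.sum_congr rfl fun b _ => ?_
    rw [ip_smul_right, h.ip_sum', Finset.sum_eq_zero]
    · ring
    · intro b' hb'
      rw [h.two_disjoint hc hτ (Finset.ne_of_mem_erase hb'), mul_zero]
  rw [hτ, ip_smul_left, ip_smul_right, hn, ← Finset.mul_sum] at h1
  have h2 : ∀ b, ∃ a, c b * c b = 1 + 4 * a := by
    intro b
    have h3 := hc b
    obtain ⟨a, ha⟩ : ∃ a, c b = 2 * a + 1 := ⟨c b / 2, by omega⟩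
    exact ⟨a * a + a, by rw [ha]; ring⟩
  choose a ha using h2
  rw [Finset.sum_congr rfl fun b _ => ha b, Finset.sum_add_distrib, ← Finset.mul_sum] at h1
  simp only [Finset.sum_const, Finset.card_univ, nsmul_eq_mul, mul_one] at h1
  exact ⟨-n - ∑ b, a b, by linarith⟩

/-- the projection formula for disjoint curves -/
theorem Conf.two_proj (h : Conf C) {j : ℕ} (hj : 3 ≤ j) (hjk : j ≤ k) (hs : SpansLoc C j)
    (hl : ∀ b, Loc j (C b)) (hf : ∀ b, ip (fcl k j) (C b) = 0)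
    (hd : ∀ b b', b ≠ b' → ip (C b) (C b') = 0) {x : Cl ℤ (Fin k)} (hx : Loc j x) :
    (2 * (9 - (j : ℤ))) • x - (2 * ip (fcl k j) x) • fcl k j
      + ∑ b, ((9 - (j : ℤ)) * ip x (C b)) • C b = 0 := by
  refine zero_of_span hj hjk h.hk hs ?_ ?_ ?_
  · rw [ip_add_right, ip_sub_right, ip_smul_right, ip_smul_right, fcl_sq hj hjk, ip_sum_right,
      Finset.sum_eq_zero fun b _ => by rw [ip_smul_right, hf b, mul_zero]]
    ring
  · have h1 : Loc j ((2 * (9 - (j : ℤ))) • x - (2 * ip (fcl k j) x) • fcl k j) := by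
      rw [sub_eq_add_neg, ← neg_smul]
      exact (hx.smul _).add ((loc_fcl j).smul _)
    exact h1.add (Loc.sum _ fun b _ => (hl b).smul _)
  · intro b
    rw [ip_add_left, ip_sub_left, ip_smul_left, ip_smul_left, hf b, h.ip_sum',
      Finset.sum_eq_zero (fun b' hb' => by
        rw [hd _ _ (Finset.ne_of_mem_erase hb'), mul_zero])]
    ring

theorem Conf.two_norm (h : Conf C) {j : ℕ} (hj : 3 ≤ j) (hjk : j ≤ k) (hs : SpansLoc C j)
    (hl : ∀ b, Loc j (C b)) (hf : ∀ b, ip (fcl k j) (C b) = 0)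
    (hd : ∀ b b', b ≠ b' → ip (C b) (C b') = 0) {x : Cl ℤ (Fin k)} (hx : Loc j x) :
    (2 * (9 - (j : ℤ))) * ip x x - 2 * ip (fcl k j) x * ip (fcl k j) x
      + (9 - (j : ℤ)) * ∑ b, ip x (C b) * ip x (C b) = 0 := by
  have h1 := congrArg (fun z => ip x z) (h.two_proj hj hjk hs hl hf hd hx)
  simp only [ip_zero_right] at h1
  rw [ip_add_right, ip_sub_right, ip_smul_right, ip_smul_right, ip_sum_right,
    ip_comm x (fcl k j)] at h1
  rw [Finset.mul_sum, ← h1]
  congr 1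
  exact Finset.sum_congr rfl fun b _ => by rw [ip_smul_right]; ring

theorem ip_loc {j : ℕ} (hjk : j ≤ k) {x y : Cl ℤ (Fin k)} (hx : Loc j x) :
    ip x y = x.1 * y.1 - ∑ i : Fin j, x.2 (Fin.castLE hjk i) * y.2 (Fin.castLE hjk i) := by
  classical
  simp only [ip]
  congr 1
  have h1 : ∑ i ∈ (Finset.univ : Finset (Fin j)).map (Fin.castLEEmb hjk), x.2 i * y.2 i
      = ∑ i : Fin k, x.2 i * y.2 i := by
    refine Finset.sum_subset (Finset.subset_univ _) fun i _ hi => ?_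
    rw [hx i, zero_mul]
    by_contra hlt
    exact hi (Finset.mem_map.2 ⟨⟨i, by omega⟩, Finset.mem_univ _, by
      ext; simp⟩)
  rw [← h1, Finset.sum_map]
  rfl

end LCY.H89
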