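import Pool.Agent.Helper89.LCY.CovD

/-!
Block COV of MP_f7e214_ag, part E: the prime two, counting.
-/

namespace LCY.H89

open Finset Pool.Agent.Helper82.LCY

variable {k : ℕ}

theorem ip_H (x : Cl ℤ (Fin k)) : ip ((1, 0) : Cl ℤ (Fin k)) x = x.1 := by
  simp [ip]

theorem loc_H (j : ℕ) : Loc j ((1, 0) : Cl ℤ (Fin k)) := by
  intro i _
  rfl

theorem ip_fcl_H {j : ℕ} (hj : 3 ≤ j) : ip (fcl k j) ((1, 0) : Cl ℤ (Fin k)) = 3 := by
  rw [ip_comm, ip_H]
  simp only [fcl]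
  rw [if_neg (by omega), if_neg (by omega), if_neg (by omega)]

theorem ip_fcl_uv {j : ℕ} {i : Fin k} (hi : (i : ℕ) < j) : ip (fcl k j) (uv i) = -1 := by
  rw [ip_comm, ip_uv]
  simp only [fcl]
  rw [if_pos hi]

theorem ip_uv_self (i : Fin k) : ip (uv i) (uv i) = -1 := by
  rw [ip_uv]
  simp [uv]

/-- the class `H - e_0` -/
theorem fcl_one_eq (hk : 0 < k) (x : Cl ℤ (Fin k)) :
    ip (fcl k 1) x = x.1 - x.2 ⟨0, hk⟩ := by
  rw [ip_fcl]
  simp [fdeg, Pool.Agent.Helper82.LCY.ext, hk]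

theorem loc_fcl_one {j : ℕ} (hj : 1 ≤ j) : Loc j (fcl k 1) := by
  intro i hi
  simp only [fcl]
  rw [if_neg (by omega)]

theorem ip_fcl_one_self (hk : 0 < k) : ip (fcl k 1) (fcl k 1) = 0 := by
  rw [fcl_one_eq hk]
  simp [fcl]

theorem ip_fcl_fcl_one {j : ℕ} (hj : 3 ≤ j) (hk : 0 < k) :
    ip (fcl k j) (fcl k 1) = 2 := by
  rw [ip_comm, fcl_one_eq hk]
  simp only [fcl]
  rw [if_neg (by omega), if_neg (by omega), if_neg (by omega), if_pos (by omega)]
  norm_num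

variable {B : Type*} {C : B → Cl ℤ (Fin k)} [Fintype B] [DecidableEq B]

theorem Conf.two_trace (h : Conf C) {j : ℕ} (hj : 3 ≤ j) (hjk : j ≤ k) (hs : SpansLoc C j)
    (hl : ∀ b, Loc j (C b)) (hf : ∀ b, ip (fcl k j) (C b) = 0)
    (hd : ∀ b b', b ≠ b' → ip (C b) (C b') = 0) :
    Fintype.card B = j ∧ (9 - (j : ℤ)) ∣ 2 := by
  have hk8 := h.hk
  have hdpos : (0 : ℤ) < 9 - (j : ℤ) := by omega
  have e1 : ∀ i : Fin j, (9 - (j : ℤ)) * ∑ b, (C b).2 (Fin.castLE hjk i) * (C b).2 (Fin.castLE hjk i)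
      = 2 * (9 - (j : ℤ)) + 2 := by
    intro i
    have hi : ((Fin.castLE hjk i : Fin k) : ℕ) < j := i.2
    have h1 := h.two_norm hj hjk hs hl hf hd (loc_uv hi)
    rw [ip_uv_self, ip_fcl_uv hi] at h1
    have h2 : ∑ b, ip (uv (Fin.castLE hjk i)) (C b) * ip (uv (Fin.castLE hjk i)) (C b)
        = ∑ b, (C b).2 (Fin.castLE hjk i) * (C b).2 (Fin.castLE hjk i) :=
      Finset.sum_congr rfl fun b _ => by rw [ip_uv]; ring
    rw [h2] at h1
    linarith
  have e2 : (9 - (j : ℤ)) * ∑ b, (C b).1 * (C b).1 = 18 - 2 * (9 - (j : ℤ)) := by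
    have h1 := h.two_norm hj hjk hs hl hf hd (loc_H j)
    rw [ip_fcl_H hj, ip_H] at h1
    have h2 : ∑ b, ip ((1, 0) : Cl ℤ (Fin k)) (C b) * ip ((1, 0) : Cl ℤ (Fin k)) (C b)
        = ∑ b, (C b).1 * (C b).1 :=
      Finset.sum_congr rfl fun b _ => by rw [ip_H]
    rw [h2] at h1
    linarith
  have e3 : ∑ b, (C b).1 * (C b).1
      - ∑ i : Fin j, ∑ b, (C b).2 (Fin.castLE hjk i) * (C b).2 (Fin.castLE hjk i)
      = -2 * (Fintype.card B : ℤ) := by
    rw [Finset.sum_comm, ← Finset.sum_sub_distrib]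
    have : ∀ b, (C b).1 * (C b).1
        - ∑ i : Fin j, (C b).2 (Fin.castLE hjk i) * (C b).2 (Fin.castLE hjk i) = -2 := by
      intro b
      rw [← ip_loc hjk (hl b), h.sq b]
    rw [Finset.sum_congr rfl fun b _ => this b]
    simp
    ring
  have e4 : (9 - (j : ℤ)) * ∑ i : Fin j, ∑ b, (C b).2 (Fin.castLE hjk i) * (C b).2 (Fin.castLE hjk i)
      = j * (2 * (9 - (j : ℤ)) + 2) := by
    rw [Finset.mul_sum, Finset.sum_congr rfl fun i _ => e1 i]
    simp
  have e5 : (9 - (j : ℤ)) * (-2 * (Fintype.card B : ℤ)) = 18 - 2 * (9 - (j : ℤ))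
      - j * (2 * (9 - (j : ℤ)) + 2) := by
    rw [← e3, mul_sub, e2, e4]
  constructor
  · have h1 : (9 - (j : ℤ)) * ((Fintype.card B : ℤ) - j) = 0 := by
      have : (9 - (j : ℤ)) * (-2 * (Fintype.card B : ℤ)) = (9 - (j : ℤ)) * (-2 * j) := by
        rw [e5]; ring
      have h2 : (9 - (j : ℤ)) * (-2 * ((Fintype.card B : ℤ) - j)) = 0 := by
        have h3 : (9 - (j : ℤ)) * (-2 * ((Fintype.card B : ℤ) - j))
          = (9 - (j : ℤ)) * (-2 * (Fintype.card B : ℤ)) - (9 - (j : ℤ)) * (-2 * j) := by ring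
        rw [h3, this]; ring
      rcases mul_eq_zero.1 h2 with h4 | h4
      · rw [h4, zero_mul]
      · have : (Fintype.card B : ℤ) - j = 0 := by linarith
        rw [this, mul_zero]
    have h2 := (mul_eq_zero.1 h1).resolve_left hdpos.ne'
    have : (Fintype.card B : ℤ) = j := by linarith
    exact_mod_cast this
  · have h1 := e1 ⟨0, by omega⟩
    refine (Int.dvd_add_right (⟨2, by ring⟩ : (9 - (j : ℤ)) ∣ 2 * (9 - (j : ℤ)))).1 ?_
    rw [← h1]
    exact Dvd.intro _ rfl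

/-- For the prime two a spanning configuration has eight curves on eight points. -/
theorem Conf.two_eight (h : Conf C) {j : ℕ} (hj : 3 ≤ j) (hjk : j ≤ k) (hs : SpansLoc C j)
    (hl : ∀ b, Loc j (C b)) (hf : ∀ b, ip (fcl k j) (C b) = 0) {c : B → ℤ} {τ : Cl ℤ (Fin k)}
    (hc : ∀ b, ¬ (2 : ℤ) ∣ c b) (hτ : ∑ b, c b • C b = (2 : ℤ) • τ) :
    j = 8 ∧ k = 8 ∧ Fintype.card B = 8 := by
  have hk8 := h.hk
  obtain ⟨h1, h2⟩ := h.two_trace hj hjk hs hl hf fun b b' hb => h.two_disjoint hc hτ hb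
  have h3 := h.two_card hc hτ
  rw [h1] at h3
  have h4 : 9 - (j : ℤ) ≤ 2 := Int.le_of_dvd (by norm_num) h2
  omega

omit [Fintype B] [DecidableEq B] in
/-- two different roots are different modulo two -/
theorem Conf.not_congr_two (h : Conf C) {b b' : B} (hb : ip (C b) (C b') = 0)
    (h1 : (2 : ℤ) ∣ (C b).1 - (C b').1) (h2 : ∀ i, (2 : ℤ) ∣ (C b).2 i - (C b').2 i) : False := by
  choose g hg using h2
  obtain ⟨a, ha⟩ := h1
  have h3 : C b - C b' = (2 : ℤ) • ((a, g) : Cl ℤ (Fin k)) := by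
    refine Prod.ext ?_ (funext fun i => ?_)
    · simpa using ha
    · simpa using hg i
  have h4 : ip KK ((a, g) : Cl ℤ (Fin k)) = 0 := by
    have h5 := congrArg (fun z => ip KK z) h3
    simp only [ip_sub_right, ip_smul_right, h.perp] at h5
    linarith
  obtain ⟨n, hn⟩ := even_sq h4
  have h5 := congrArg (fun z => ip z z) h3
  simp only [ip_sub_left, ip_sub_right, ip_smul_left, ip_smul_right, h.sq, hn, hb,
    ip_comm (C b') (C b)] at h5
  omega

omit [Fintype B] [DecidableEq B] in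
theorem Conf.not_zero_two (h : Conf C) {b : B} (h1 : (2 : ℤ) ∣ (C b).1)
    (h2 : ∀ i, (2 : ℤ) ∣ (C b).2 i) : False := by
  choose g hg using h2
  obtain ⟨a, ha⟩ := h1
  have h3 : C b = (2 : ℤ) • ((a, g) : Cl ℤ (Fin k)) := by
    refine Prod.ext ?_ (funext fun i => ?_)
    · simpa using ha
    · simpa using hg i
  have h5 := congrArg (fun z => ip z z) h3
  simp only [ip_smul_left, ip_smul_right, h.sq] at h5
  omega

omit [Fintype B] [DecidableEq B] in
/-- a class meeting `C b` oddly and `C b'` evenly -/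
theorem Conf.sep_two (h : Conf C) {b b' : B} (hb : ip (C b) (C b') = 0) :
    ∃ x : Cl ℤ (Fin k), ¬ (2 : ℤ) ∣ ip x (C b) ∧ (2 : ℤ) ∣ ip x (C b') := by
  by_contra hno
  push Not at hno
  -- every class meeting `C b` oddly meets `C b'` oddly
  have key : ∀ x y : Cl ℤ (Fin k), ¬ (2 : ℤ) ∣ ip x (C b) → ¬ (2 : ℤ) ∣ ip y (C b') →
      (2 : ℤ) ∣ ip y (C b) → False := by
    intro x y hx hy hy'
    have h1 := hno x hx
    have h2 : ¬ (2 : ℤ) ∣ ip (x + y) (C b) := by rw [ip_add_left]; omega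
    have h3 := hno _ h2
    rw [ip_add_left] at h3
    omega
  have hex : ∃ x : Cl ℤ (Fin k), ¬ (2 : ℤ) ∣ ip x (C b) := by
    by_contra hn
    push Not at hn
    refine h.not_zero_two (b := b) ?_ fun i => ?_
    · have := hn (1, 0); rwa [ip_H] at this
    · have := hn (uv i); rwa [ip_uv, dvd_neg] at this
  obtain ⟨x, hx⟩ := hex
  refine h.not_congr_two hb ?_ fun i => ?_
  · by_cases h1 : (2 : ℤ) ∣ (C b).1
    · have h2 : (2 : ℤ) ∣ (C b').1 := by
        by_contra h3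
        exact key x (1, 0) hx (by rwa [ip_H]) (by rwa [ip_H])
      exact dvd_sub h1 h2
    · have h2 := hno (1, 0) (by rwa [ip_H])
      rw [ip_H] at h2
      omega
  · by_cases h1 : (2 : ℤ) ∣ (C b).2 i
    · have h2 : (2 : ℤ) ∣ (C b').2 i := by
        by_contra h3
        exact key x (uv i) hx (by rwa [ip_uv, dvd_neg]) (by rwa [ip_uv, dvd_neg])
      exact dvd_sub h1 h2
    · have h2 := hno (uv i) (by rwa [ip_uv, dvd_neg])
      rw [ip_uv, dvd_neg] at h2
      omega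

/-- A subset of the curves is again a configuration. -/
theorem Conf.sub {B : Type*} {C : B → Cl ℤ (Fin k)} (h : Conf C) (P : B → Prop) :
    Conf (fun b : {b // P b} => C b.1) where
  hk := h.hk
  types b := h.types b.1
  perp b := h.perp b.1
  sq b := h.sq b.1
  off b b' hb := h.off b.1 b'.1 fun h' => hb (Subtype.ext h')

/-- **Weight four.** If the configuration for the prime two spans, there is a smaller one, with
four curves. -/
theorem Conf.two_sub (h : Conf C) {j : ℕ} (hj : 3 ≤ j) (hjk : j ≤ k) (hs : SpansLoc C j)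
    (hl : ∀ b, Loc j (C b)) (hf : ∀ b, ip (fcl k j) (C b) = 0) {c : B → ℤ} {τ : Cl ℤ (Fin k)}
    (hc : ∀ b, ¬ (2 : ℤ) ∣ c b) (hτ : ∑ b, c b • C b = (2 : ℤ) • τ) :
    ∃ (P : B → Prop) (c' : {b // P b} → ℤ) (τ' : Cl ℤ (Fin k)) (_ : Fintype {b // P b}),
      Fintype.card {b // P b} = 4 ∧ (∀ b, ¬ (2 : ℤ) ∣ c' b) ∧
      ∑ b : {b // P b}, c' b • C b.1 = (2 : ℤ) • τ' := by
  classical
  obtain ⟨hj8, hk8, hcard⟩ := h.two_eight hj hjk hs hl hf hc hτ
  have hdis : ∀ b b', b ≠ b' → ip (C b) (C b') = 0 := fun b b' hb => h.two_disjoint hc hτ hb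
  obtain ⟨b1, b2, hb12⟩ : ∃ b1 b2 : B, b1 ≠ b2 :=
    Fintype.exists_pair_of_one_lt_card (by omega)
  obtain ⟨x, hx1, hx2⟩ := h.sep_two (hdis b1 b2 hb12)
  have hxl : Loc j x := by
    intro i hi
    have := i.2
    omega
  have hp := h.two_proj hj hjk hs hl hf hdis hxl
  have hj1 : (9 - (j : ℤ)) = 1 := by omega
  rw [hj1] at hp
  simp only [one_mul, mul_one] at hp
  set P : B → Prop := fun b => ¬ (2 : ℤ) ∣ ip x (C b) with hP
  have hsplit : ∑ b, (ip x (C b)) • C b = ∑ b : {b // P b}, (ip x (C b.1)) • C b.1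
      + ∑ b : {b // ¬ P b}, (ip x (C b.1)) • C b.1 := by
    rw [← Finset.sum_add_sum_compl (Finset.univ.filter P) (fun b => (ip x (C b)) • C b)]
    congr 1
    · exact (Finset.sum_subtype _ (by simp) _)
    · exact (Finset.sum_subtype _ (by simp) _)
  have heven : ∀ b : {b // ¬ P b}, ∃ a, ip x (C b.1) = 2 * a := by
    intro b
    have := b.2
    simp only [hP, not_not] at this
    exact this
  choose a ha using heven
  have hτ' : ∑ b : {b // P b}, (ip x (C b.1)) • C b.1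
      = (2 : ℤ) • ((ip (fcl k j) x) • fcl k j - x - ∑ b : {b // ¬ P b}, a b • C b.1) := by
    have h1 : ∑ b : {b // ¬ P b}, (ip x (C b.1)) • C b.1
        = (2 : ℤ) • ∑ b : {b // ¬ P b}, a b • C b.1 := by
      rw [Finset.smul_sum]
      exact Finset.sum_congr rfl fun b _ => by rw [ha b, mul_smul]
    rw [hsplit, h1] at hp
    rw [smul_sub, smul_sub, smul_smul]
    have h2 : ∑ b : {b // P b}, (ip x (C b.1)) • C b.1
        = -((2 : ℤ) • x - (2 * ip (fcl k j) x) • fcl k j)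
          - (2 : ℤ) • ∑ b : {b // ¬ P b}, a b • C b.1 := by
      rw [eq_sub_iff_add_eq, eq_neg_iff_add_eq_zero, ← hp]
      abel
    rw [h2]
    abel
  refine ⟨P, fun b => ip x (C b.1), _, inferInstance, ?_, fun b => b.2, hτ'⟩
  have h4 := (h.sub P).two_card (fun b => b.2) hτ'
  have hlt : Fintype.card {b // P b} < 8 := by
    rw [← hcard]
    exact Fintype.card_subtype_lt (x := b2) (by simpa [hP] using hx2)
  have hpos : 0 < Fintype.card {b // P b} := Fintype.card_pos_iff.2 ⟨⟨b1, hx1⟩⟩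
  omega

end LCY.H89
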