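import Pool.Agent.Helper89.LCY.CovE

/-!
Block COV of MP_f7e214_ag, part F: the prime three.
-/

namespace LCY.H89

open Finset Pool.Agent.Helper82.LCY

variable {k : ℕ} {B : Type*} {C : B → Cl ℤ (Fin k)} [Fintype B] [DecidableEq B]

/-- For the prime three and coefficients `±1` neighbours have opposite signs. -/
theorem Conf.three_opp (h : Conf C) {s : B → ℤ} {τ : Cl ℤ (Fin k)}
    (hs : ∀ b, s b = 1 ∨ s b = -1) (hτ : ∑ b, s b • C b = (3 : ℤ) • τ) {b b' : B} (hb : b' ≠ b)
    (h1 : ip (C b') (C b) = 1) : s b' = -s b := by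
  classical
  by_contra hcon
  have hsame : s b' = s b := by
    rcases hs b with h2 | h2 <;> rcases hs b' with h3 | h3 <;> omega
  set S : B → Prop := fun b => ∃ b', b' ≠ b ∧ ip (C b') (C b) = 1 ∧ s b' = s b with hS
  set T : B → Prop := fun b => ∃ b', b' ≠ b ∧ ip (C b') (C b) = 1 ∧ S b' with hT
  set y : B → ℤ := fun b => if S b then 2 else if T b then 1 else 0 with hy
  have hy0 : ∀ b, 0 ≤ y b := by
    intro b
    simp only [hy]
    split_ifs <;> norm_num
  have hyS : ∀ b, S b → y b = 2 := fun b hb => by simp only [hy]; rw [if_pos hb]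
  have hyT : ∀ b, T b → 1 ≤ y b := by
    intro b hb
    simp only [hy]
    by_cases h2 : S b
    · rw [if_pos h2]; norm_num
    · rw [if_neg h2, if_pos hb]
  have hnn : ∀ b, ∀ b' ∈ Finset.univ.erase b, 0 ≤ ip (C b') (C b) := fun b b' hb' =>
    h.off _ _ (Finset.ne_of_mem_erase hb')
  have htest : ∀ b, 0 < y b → 0 ≤ ip (∑ b', y b' • C b') (C b) := by
    intro b hyb
    rw [h.ip_sum']
    by_cases hSb : S b
    · rw [hyS b hSb]
      -- numbers of neighbours with the same and with the opposite sign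
      set U := Finset.univ.erase b with hU
      set Ns := ∑ b' ∈ U.filter (fun b' => s b' = s b), ip (C b') (C b) with hNs
      set No := ∑ b' ∈ U.filter (fun b' => ¬ s b' = s b), ip (C b') (C b) with hNo
      have hNs1 : 1 ≤ Ns := by
        obtain ⟨b1, g1, g2, g3⟩ := hSb
        rw [← g2, hNs]
        refine Finset.single_le_sum (f := fun b' => ip (C b') (C b)) (fun b' hb' => ?_) ?_
        · exact hnn b b' (Finset.mem_of_mem_filter _ hb')
        · exact Finset.mem_filter.2 ⟨Finset.mem_erase.2 ⟨g1, Finset.mem_univ _⟩, g3⟩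
      have hNo0 : 0 ≤ No := Finset.sum_nonneg fun b' hb' =>
        hnn b b' (Finset.mem_of_mem_filter _ hb')
      have hcong : (3 : ℤ) ∣ 1 + Ns - No := by
        have g1 := h.congr_dvd hτ b
        have g2 : ∑ b' ∈ U, s b' * ip (C b') (C b) = s b * Ns - s b * No := by
          rw [← Finset.sum_filter_add_sum_filter_not U (fun b' => s b' = s b)]
          have g3 : ∑ b' ∈ U.filter (fun b' => s b' = s b), s b' * ip (C b') (C b)
              = s b * Ns := by
            rw [hNs, Finset.mul_sum]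
            refine Finset.sum_congr rfl fun b' hb' => ?_
            rw [(Finset.mem_filter.1 hb').2]
          have g4 : ∑ b' ∈ U.filter (fun b' => ¬ s b' = s b), s b' * ip (C b') (C b)
              = - (s b * No) := by
            rw [hNo, Finset.mul_sum, ← Finset.sum_neg_distrib]
            refine Finset.sum_congr rfl fun b' hb' => ?_
            have g5 := (Finset.mem_filter.1 hb').2
            have g6 : s b' = - s b := by
              rcases hs b with h2 | h2 <;> rcases hs b' with h3 | h3 <;> omega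
            rw [g6]; ring
          rw [g3, g4]; ring
        rw [g2] at g1
        rcases hs b with g7 | g7
        · rw [g7] at g1; omega
        · rw [g7] at g1; omega
      have hsum : 2 * Ns + No ≤ ∑ b' ∈ U, y b' * ip (C b') (C b) := by
        rw [← Finset.sum_filter_add_sum_filter_not U (fun b' => s b' = s b)]
        refine add_le_add ?_ ?_
        · rw [hNs, Finset.mul_sum]
          refine Finset.sum_le_sum fun b' hb' => ?_
          obtain ⟨g1, g2⟩ := Finset.mem_filter.1 hb'
          have g3 := Finset.ne_of_mem_erase g1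
          rcases h.off_eq g3 with g4 | g4
          · rw [g4, mul_zero, mul_zero]
          · have : S b' := ⟨b, g3.symm, by rw [ip_comm]; exact g4, g2.symm⟩
            rw [hyS b' this]
        · rw [hNo]
          refine Finset.sum_le_sum fun b' hb' => ?_
          obtain ⟨g1, g2⟩ := Finset.mem_filter.1 hb'
          have g3 := Finset.ne_of_mem_erase g1
          rcases h.off_eq g3 with g4 | g4
          · rw [g4, mul_zero]
          · have : T b' := ⟨b, g3.symm, by rw [ip_comm]; exact g4, hSb⟩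
            have := hyT b' this
            rw [g4]
            linarith
      omega
    · have hTb : T b := by
        by_contra hTb
        simp only [hy] at hyb
        rw [if_neg hSb, if_neg hTb] at hyb
        exact lt_irrefl _ hyb
      have hyb1 : y b = 1 := by simp only [hy]; rw [if_neg hSb, if_pos hTb]
      obtain ⟨b1, g1, g2, g3⟩ := hTb
      have g4 : y b1 * ip (C b1) (C b) ≤ ∑ b' ∈ Finset.univ.erase b, y b' * ip (C b') (C b) :=
        Finset.single_le_sum (f := fun b' => y b' * ip (C b') (C b))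
          (fun b' hb' => mul_nonneg (hy0 b') (hnn b b' hb'))
          (Finset.mem_erase.2 ⟨g1, Finset.mem_univ _⟩)
      rw [hyS b1 g3, g2] at g4
      rw [hyb1]
      linarith
  have h2 := h.test y hy0 htest b
  rw [hyS b ⟨b', hb, h1, hsame⟩] at h2
  norm_num at h2

/-- Every curve has exactly one neighbour. -/
theorem Conf.three_nbr (h : Conf C) {s : B → ℤ} {τ : Cl ℤ (Fin k)}
    (hs : ∀ b, s b = 1 ∨ s b = -1) (hτ : ∑ b, s b • C b = (3 : ℤ) • τ) (b : B) :
    ∑ b' ∈ Finset.univ.erase b, ip (C b') (C b) = 1 := by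
  classical
  set U := Finset.univ.erase b with hU
  set No := ∑ b' ∈ U, ip (C b') (C b) with hNo
  have hnn : ∀ b, ∀ b' ∈ Finset.univ.erase b, 0 ≤ ip (C b') (C b) := fun b b' hb' =>
    h.off _ _ (Finset.ne_of_mem_erase hb')
  have h1 : ∑ b' ∈ U, s b' * ip (C b') (C b) = - (s b * No) := by
    rw [hNo, Finset.mul_sum, ← Finset.sum_neg_distrib]
    refine Finset.sum_congr rfl fun b' hb' => ?_
    have g3 := Finset.ne_of_mem_erase hb'
    rcases h.off_eq g3 with g4 | g4
    · rw [g4]; ring
    · rw [h.three_opp hs hτ g3 g4]; ring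
  have hcong : (3 : ℤ) ∣ 1 - No := by
    have g1 := h.congr_dvd hτ b
    rw [h1] at g1
    rcases hs b with g7 | g7
    · rw [g7] at g1; omega
    · rw [g7] at g1; omega
  have hNo0 : 0 ≤ No := Finset.sum_nonneg fun b' hb' => hnn b b' hb'
  by_contra hne
  have hNo4 : 4 ≤ No := by omega
  set y : B → ℤ := fun b' => if b' = b then 2 else ip (C b') (C b) with hy
  have hyb : y b = 2 := by simp [hy]
  have hy1 : ∀ b', b' ≠ b → y b' = ip (C b') (C b) := fun b' hb' => by
    simp only [hy]; rw [if_neg hb']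
  have hy0 : ∀ b', 0 ≤ y b' := by
    intro b'
    by_cases hb' : b' = b
    · rw [hb', hyb]; norm_num
    · rw [hy1 b' hb']; exact h.off _ _ hb'
  have htest : ∀ b', 0 < y b' → 0 ≤ ip (∑ b', y b' • C b') (C b') := by
    intro b' hyb'
    rw [h.ip_sum']
    by_cases hb' : b' = b
    · subst hb'
      rw [hyb]
      have : ∑ b1 ∈ Finset.univ.erase b', y b1 * ip (C b1) (C b') = No := by
        rw [hNo]
        refine Finset.sum_congr rfl fun b1 hb1 => ?_
        have g3 := Finset.ne_of_mem_erase hb1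
        rw [hy1 b1 g3]
        rcases h.off_eq g3 with g4 | g4 <;> rw [g4] <;> norm_num
      rw [this]
      linarith
    · have g1 : ip (C b') (C b) = 1 := by
        rcases h.off_eq hb' with g4 | g4
        · rw [hy1 b' hb', g4] at hyb'; exact absurd hyb' (lt_irrefl _)
        · exact g4
      have g4 : y b * ip (C b) (C b') ≤ ∑ b1 ∈ Finset.univ.erase b', y b1 * ip (C b1) (C b') :=
        Finset.single_le_sum (f := fun b1 => y b1 * ip (C b1) (C b'))
          (fun b1 hb1 => mul_nonneg (hy0 b1) (hnn b' b1 hb1))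
          (Finset.mem_erase.2 ⟨Ne.symm hb', Finset.mem_univ _⟩)
      rw [hyb, ip_comm, g1] at g4
      rw [hy1 b' hb', g1]
      linarith
  have h2 := h.test y hy0 htest b
  rw [hyb] at h2
  norm_num at h2

/-- The matching. -/
theorem Conf.three_match (h : Conf C) {s : B → ℤ} {τ : Cl ℤ (Fin k)}
    (hs : ∀ b, s b = 1 ∨ s b = -1) (hτ : ∑ b, s b • C b = (3 : ℤ) • τ) :
    ∃ σ : B → B, (∀ b, σ b ≠ b) ∧ (∀ b, σ (σ b) = b) ∧ (∀ b, s (σ b) = -s b) ∧
      ∀ (f : B → ℤ) (b : B), ∑ b', f b' * ip (C b') (C b) = -2 * f b + f (σ b) := by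
  classical
  have hex : ∀ b, ∃ b', b' ≠ b ∧ ip (C b') (C b) = 1 := by
    intro b
    by_contra hno
    push Not at hno
    have h1 := h.three_nbr hs hτ b
    rw [Finset.sum_eq_zero fun b' hb' => ?_] at h1
    · norm_num at h1
    · have g3 := Finset.ne_of_mem_erase hb'
      exact (h.off_eq g3).resolve_right (hno b' g3)
  choose σ hσ1 hσ2 using hex
  have huniq : ∀ b b', b' ≠ b → b' ≠ σ b → ip (C b') (C b) = 0 := by
    intro b b' hb' hne
    rcases h.off_eq hb' with g4 | g4
    · exact g4
    · exfalso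
      have h1 := h.three_nbr hs hτ b
      have h2 : ∑ b1 ∈ ({b', σ b} : Finset B), ip (C b1) (C b)
          ≤ ∑ b1 ∈ Finset.univ.erase b, ip (C b1) (C b) := by
        refine Finset.sum_le_sum_of_subset_of_nonneg ?_ fun b1 hb1 _ =>
          h.off _ _ (Finset.ne_of_mem_erase hb1)
        intro b1 hb1
        rcases Finset.mem_insert.1 hb1 with h3 | h3
        · rw [h3]; exact Finset.mem_erase.2 ⟨hb', Finset.mem_univ _⟩
        · rw [Finset.mem_singleton.1 h3]; exact Finset.mem_erase.2 ⟨hσ1 b, Finset.mem_univ _⟩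
      rw [Finset.sum_pair hne, g4, hσ2 b, h1] at h2
      norm_num at h2
  refine ⟨σ, hσ1, fun b => ?_, fun b => h.three_opp hs hτ (hσ1 b) (hσ2 b), fun f b => ?_⟩
  · by_contra hne
    have h1 := huniq (σ b) b (Ne.symm (hσ1 b)) (Ne.symm hne)
    rw [ip_comm, hσ2 b] at h1
    norm_num at h1
  · rw [← Finset.add_sum_erase _ _ (Finset.mem_univ b), h.sq b,
      Finset.sum_eq_single (σ b)]
    · rw [hσ2 b]; ring
    · intro b' hb' hne
      rw [huniq b b' (Finset.ne_of_mem_erase hb') hne, mul_zero]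
    · intro hn
      exact absurd (Finset.mem_erase.2 ⟨hσ1 b, Finset.mem_univ _⟩) hn

/-- the number of curves is divisible by six -/
theorem Conf.three_card (h : Conf C) {s : B → ℤ} {τ : Cl ℤ (Fin k)}
    (hs : ∀ b, s b = 1 ∨ s b = -1) (hτ : ∑ b, s b • C b = (3 : ℤ) • τ) :
    (6 : ℤ) ∣ Fintype.card B := by
  obtain ⟨σ, -, -, hσs, hσ⟩ := h.three_match hs hτ
  have hK := h.ip_KK_tau (by norm_num) hτ
  obtain ⟨n, hn⟩ := even_sq hK
  have h1 : ip (∑ b, s b • C b) (∑ b, s b • C b) = -3 * (Fintype.card B : ℤ) := by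
    rw [ip_sum_right]
    have : ∀ b, ip (∑ b, s b • C b) (s b • C b) = -3 := by
      intro b
      rw [ip_smul_right, Conf.ip_sum, hσ s b, hσs b]
      rcases hs b with h2 | h2 <;> rw [h2] <;> norm_num
    rw [Finset.sum_congr rfl fun b _ => this b]
    simp
    ring
  rw [hτ, ip_smul_left, ip_smul_right, hn] at h1
  exact ⟨-n, by linarith⟩

omit [DecidableEq B] in
/-- the projection formula for pairs of curves -/
theorem Conf.three_proj (h : Conf C) {j : ℕ} (hj : 3 ≤ j) (hjk : j ≤ k) (hsp : SpansLoc C j)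
    (hl : ∀ b, Loc j (C b)) (hf : ∀ b, ip (fcl k j) (C b) = 0) {σ : B → B}
    (hσσ : ∀ b, σ (σ b) = b)
    (hσ : ∀ (f : B → ℤ) (b : B), ∑ b', f b' * ip (C b') (C b) = -2 * f b + f (σ b))
    {x : Cl ℤ (Fin k)} (hx : Loc j x) :
    (3 * (9 - (j : ℤ))) • x - (3 * ip (fcl k j) x) • fcl k j
      + ∑ b, ((9 - (j : ℤ)) * (2 * ip x (C b) + ip x (C (σ b)))) • C b = 0 := by
  refine zero_of_span hj hjk h.hk hsp ?_ ?_ ?_
  · rw [ip_add_right, ip_sub_right, ip_smul_right, ip_smul_right, fcl_sq hj hjk, ip_sum_right,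
      Finset.sum_eq_zero fun b _ => by rw [ip_smul_right, hf b, mul_zero]]
    ring
  · have h1 : Loc j ((3 * (9 - (j : ℤ))) • x - (3 * ip (fcl k j) x) • fcl k j) := by
      rw [sub_eq_add_neg, ← neg_smul]
      exact (hx.smul _).add ((loc_fcl j).smul _)
    exact h1.add (Loc.sum _ fun b _ => (hl b).smul _)
  · intro b
    rw [ip_add_left, ip_sub_left, ip_smul_left, ip_smul_left, hf b, Conf.ip_sum, hσ, hσσ]
    ring

omit [DecidableEq B] in
theorem Conf.three_norm (h : Conf C) {j : ℕ} (hj : 3 ≤ j) (hjk : j ≤ k) (hsp : SpansLoc C j)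
    (hl : ∀ b, Loc j (C b)) (hf : ∀ b, ip (fcl k j) (C b) = 0) {σ : B → B}
    (hσσ : ∀ b, σ (σ b) = b)
    (hσ : ∀ (f : B → ℤ) (b : B), ∑ b', f b' * ip (C b') (C b) = -2 * f b + f (σ b))
    {x : Cl ℤ (Fin k)} (hx : Loc j x) :
    (3 * (9 - (j : ℤ))) * ip x x - 3 * ip (fcl k j) x * ip (fcl k j) x
      + (9 - (j : ℤ)) * ∑ b, (2 * (ip x (C b) * ip x (C b)) + ip x (C b) * ip x (C (σ b))) = 0 := by
  have h1 := congrArg (fun z => ip x z) (h.three_proj hj hjk hsp hl hf hσσ hσ hx)
  simp only [ip_zero_right] at h1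
  rw [ip_add_right, ip_sub_right, ip_smul_right, ip_smul_right, ip_sum_right,
    ip_comm x (fcl k j)] at h1
  rw [Finset.mul_sum, ← h1]
  congr 1
  exact Finset.sum_congr rfl fun b _ => by rw [ip_smul_right]; ring

end LCY.H89
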