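import Pool.Agent.Helper89.LCY.CovF

/-!
Block COV of MP_f7e214_ag, part G: the prime three, conclusion; primes at least five.
-/

namespace LCY.H89

open Finset Pool.Agent.Helper82.LCY

variable {k : ℕ} {B : Type*} {C : B → Cl ℤ (Fin k)} [Fintype B] [DecidableEq B]

omit [DecidableEq B] in
theorem Conf.three_trace (h : Conf C) {j : ℕ} (hj : 3 ≤ j) (hjk : j ≤ k) (hsp : SpansLoc C j)
    (hl : ∀ b, Loc j (C b)) (hf : ∀ b, ip (fcl k j) (C b) = 0) {σ : B → B}
    (hσσ : ∀ b, σ (σ b) = b)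
    (hσ : ∀ (f : B → ℤ) (b : B), ∑ b', f b' * ip (C b') (C b) = -2 * f b + f (σ b))
    (hσ1 : ∀ b, ip (C b) (C (σ b)) = 1) :
    Fintype.card B = j ∧ (9 - (j : ℤ)) ∣ 3 := by
  have hk8 := h.hk
  have hdpos : (0 : ℤ) < 9 - (j : ℤ) := by omega
  have e1 : ∀ i : Fin j, (9 - (j : ℤ)) * ∑ b, (2 * ((C b).2 (Fin.castLE hjk i)
      * (C b).2 (Fin.castLE hjk i)) + (C b).2 (Fin.castLE hjk i) * (C (σ b)).2 (Fin.castLE hjk i))
      = 3 * (9 - (j : ℤ)) + 3 := by
    intro i
    have hi : ((Fin.castLE hjk i : Fin k) : ℕ) < j := i.2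
    have h1 := h.three_norm hj hjk hsp hl hf hσσ hσ (loc_uv hi)
    rw [ip_uv_self, ip_fcl_uv hi] at h1
    have h2 : ∑ b, (2 * (ip (uv (Fin.castLE hjk i)) (C b) * ip (uv (Fin.castLE hjk i)) (C b))
        + ip (uv (Fin.castLE hjk i)) (C b) * ip (uv (Fin.castLE hjk i)) (C (σ b)))
        = ∑ b, (2 * ((C b).2 (Fin.castLE hjk i)
      * (C b).2 (Fin.castLE hjk i)) + (C b).2 (Fin.castLE hjk i) * (C (σ b)).2 (Fin.castLE hjk i)) :=
      Finset.sum_congr rfl fun b _ => by rw [ip_uv, ip_uv]; ring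
    rw [h2] at h1
    linarith
  have e2 : (9 - (j : ℤ)) * ∑ b, (2 * ((C b).1 * (C b).1) + (C b).1 * (C (σ b)).1)
      = 27 - 3 * (9 - (j : ℤ)) := by
    have h1 := h.three_norm hj hjk hsp hl hf hσσ hσ (loc_H j)
    rw [ip_fcl_H hj, ip_H] at h1
    simp only [ip_H] at h1
    linarith
  have e3 : ∑ b, (2 * ((C b).1 * (C b).1) + (C b).1 * (C (σ b)).1)
      - ∑ i : Fin j, ∑ b, (2 * ((C b).2 (Fin.castLE hjk i)
      * (C b).2 (Fin.castLE hjk i)) + (C b).2 (Fin.castLE hjk i) * (C (σ b)).2 (Fin.castLE hjk i))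
      = -3 * (Fintype.card B : ℤ) := by
    rw [Finset.sum_comm, ← Finset.sum_sub_distrib]
    have : ∀ b, (2 * ((C b).1 * (C b).1) + (C b).1 * (C (σ b)).1)
        - ∑ i : Fin j, (2 * ((C b).2 (Fin.castLE hjk i)
      * (C b).2 (Fin.castLE hjk i)) + (C b).2 (Fin.castLE hjk i) * (C (σ b)).2 (Fin.castLE hjk i))
        = -3 := by
      intro b
      have g1 := h.sq b
      have g2 := hσ1 b
      rw [ip_loc hjk (hl b)] at g1 g2
      rw [Finset.sum_add_distrib, ← Finset.mul_sum]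
      linarith
    rw [Finset.sum_congr rfl fun b _ => this b]
    simp
    ring
  have e4 : (9 - (j : ℤ)) * ∑ i : Fin j, ∑ b, (2 * ((C b).2 (Fin.castLE hjk i)
      * (C b).2 (Fin.castLE hjk i)) + (C b).2 (Fin.castLE hjk i) * (C (σ b)).2 (Fin.castLE hjk i))
      = j * (3 * (9 - (j : ℤ)) + 3) := by
    rw [Finset.mul_sum, Finset.sum_congr rfl fun i _ => e1 i]
    simp
  have e5 : (9 - (j : ℤ)) * (-3 * (Fintype.card B : ℤ)) = 27 - 3 * (9 - (j : ℤ))
      - j * (3 * (9 - (j : ℤ)) + 3) := by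
    rw [← e3, mul_sub, e2, e4]
  constructor
  · have h1 : (9 - (j : ℤ)) * ((Fintype.card B : ℤ) - j) = 0 := by
      have h2 : 3 * ((9 - (j : ℤ)) * ((Fintype.card B : ℤ) - j)) = 0 := by
        have h3 : 3 * ((9 - (j : ℤ)) * ((Fintype.card B : ℤ) - j))
          = - ((9 - (j : ℤ)) * (-3 * (Fintype.card B : ℤ))) - 3 * (9 - (j : ℤ)) * j := by ring
        rw [h3, e5]; ring
      linarith
    have h2 := (mul_eq_zero.1 h1).resolve_left hdpos.ne'
    have : (Fintype.card B : ℤ) = j := by linarith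
    exact_mod_cast this
  · have h1 := e1 ⟨0, by omega⟩
    refine (Int.dvd_add_right (⟨3, by ring⟩ : (9 - (j : ℤ)) ∣ 3 * (9 - (j : ℤ)))).1 ?_
    rw [← h1]
    exact Dvd.intro _ rfl

omit [Fintype B] [DecidableEq B] in
/-- `f_1` is nonnegative on the curves of the configuration -/
theorem Conf.f_one_nonneg (h : Conf C) (b : B) : 0 ≤ ip (fcl k 1) (C b) :=
  fcl_small_nonneg (h.types b) (by norm_num)

/-- **The prime three**, coefficients `±1`: exactly two curves meet `f_1`, once each. -/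
theorem Conf.three_pm (h : Conf C) {j : ℕ} (hj : 3 ≤ j) (hjk : j ≤ k) (hsp : SpansLoc C j)
    (hl : ∀ b, Loc j (C b)) (hf : ∀ b, ip (fcl k j) (C b) = 0) {s : B → ℤ} {τ : Cl ℤ (Fin k)}
    (hs : ∀ b, s b = 1 ∨ s b = -1) (hτ : ∑ b, s b • C b = (3 : ℤ) • τ) (b0 : B) :
    ∃ b1 b2, b1 ≠ b2 ∧ ip (fcl k 1) (C b1) = 1 ∧ ip (fcl k 1) (C b2) = 1 ∧
      ∀ b, b ≠ b1 → b ≠ b2 → ip (fcl k 1) (C b) = 0 := by
  classical
  have hk8 := h.hk
  obtain ⟨σ, hσ0, hσσ, hσs, hσ⟩ := h.three_match hs hτ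
  have hσ1 : ∀ b, ip (C b) (C (σ b)) = 1 := by
    intro b
    have h1 := hσ (fun b' => if b' = b then 1 else 0) (σ b)
    simp only [ite_mul, one_mul, zero_mul, Finset.sum_ite_eq', Finset.mem_univ, if_true,
      hσσ b] at h1
    rw [h1, if_neg (hσ0 b)]
    norm_num
  obtain ⟨hcard, hdvd⟩ := h.three_trace hj hjk hsp hl hf hσσ hσ hσ1
  have h6 := h.three_card hs hτ
  have hpos : 0 < Fintype.card B := Fintype.card_pos_iff.2 ⟨b0⟩
  have hj6 : j = 6 := by
    rw [hcard] at h6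
    omega
  subst hj6
  have hn := h.three_norm hj hjk hsp hl hf hσσ hσ (loc_fcl_one (k := k) (j := 6) (by norm_num))
  rw [ip_fcl_one_self (by omega), ip_fcl_fcl_one hj (by omega)] at hn
  set l : B → ℤ := fun b => ip (fcl k 1) (C b) with hldef
  have hl0 : ∀ b, 0 ≤ l b := h.f_one_nonneg
  have hsum : 2 * ∑ b, l b * l b + ∑ b, l b * l (σ b) = 4 := by
    rw [Finset.mul_sum, ← Finset.sum_add_distrib]
    push_cast at hn
    have hn' : (9 - (6 : ℤ)) * ∑ b, (2 * (l b * l b) + l b * l (σ b)) = 12 := by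
      have := hn
      simp only [hldef]
      linarith
    linarith
  have hsq0 : 0 ≤ ∑ b, l b * l (σ b) := Finset.sum_nonneg fun b _ => mul_nonneg (hl0 _) (hl0 _)
  have hsq2 : ∑ b, l b * l b ≤ 2 := by linarith
  have hle1 : ∀ b, l b = 0 ∨ l b = 1 := by
    intro b
    have h1 : l b * l b ≤ ∑ b, l b * l b :=
      Finset.single_le_sum (f := fun b => l b * l b) (fun b _ => mul_nonneg (hl0 b) (hl0 b))
        (Finset.mem_univ b)
    have h2 := hl0 b
    have h3 : l b < 2 := by nlinarith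
    omega
  have hcount : ∑ b, l b * l b = ((Finset.univ.filter fun b => l b = 1).card : ℤ) := by
    rw [Finset.card_filter]
    push_cast
    refine Finset.sum_congr rfl fun b _ => ?_
    rcases hle1 b with h1 | h1 <;> rw [h1] <;> simp
  have hcard2 : (Finset.univ.filter fun b => l b = 1).card = 2 := by
    have h1 : (Finset.univ.filter fun b => l b = 1).card ≤ 2 := by
      have := hsq2
      rw [hcount] at this
      exact_mod_cast this
    have h2 : (Finset.univ.filter fun b => l b = 1).card ≠ 0 := by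
      intro h3
      rw [hcount, h3] at hsum
      rw [Finset.card_eq_zero, Finset.filter_eq_empty_iff] at h3
      have h4 : ∑ b, l b * l (σ b) = 0 := Finset.sum_eq_zero fun b _ => by
        rw [(hle1 b).resolve_right (h3 (Finset.mem_univ b)), zero_mul]
      rw [h4] at hsum
      norm_num at hsum
    have h3 : (Finset.univ.filter fun b => l b = 1).card ≠ 1 := by
      intro h3
      obtain ⟨a, ha⟩ := Finset.card_eq_one.1 h3
      rw [hcount, h3] at hsum
      have h4 : ∑ b, l b * l (σ b) = 0 := Finset.sum_eq_zero fun b _ => by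
        by_cases hb : l b = 1
        · have hba : b = a := by
            have : b ∈ Finset.univ.filter fun b => l b = 1 :=
              Finset.mem_filter.2 ⟨Finset.mem_univ _, hb⟩
            rw [ha] at this
            exact Finset.mem_singleton.1 this
          have hσb : l (σ b) ≠ 1 := by
            intro hσb
            have : σ b ∈ Finset.univ.filter fun b => l b = 1 :=
              Finset.mem_filter.2 ⟨Finset.mem_univ _, hσb⟩
            rw [ha] at this
            exact hσ0 b ((Finset.mem_singleton.1 this).trans hba.symm)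
          rw [(hle1 _).resolve_right hσb, mul_zero]
        · rw [(hle1 b).resolve_right hb, zero_mul]
      rw [h4] at hsum
      norm_num at hsum
    omega
  obtain ⟨b1, b2, hb12, heq⟩ := Finset.card_eq_two.1 hcard2
  have hb1 : b1 ∈ Finset.univ.filter fun b => l b = 1 := by rw [heq]; simp
  have hb2 : b2 ∈ Finset.univ.filter fun b => l b = 1 := by rw [heq]; simp
  refine ⟨b1, b2, hb12, (Finset.mem_filter.1 hb1).2, (Finset.mem_filter.1 hb2).2,
    fun b h1 h2 => ?_⟩
  refine (hle1 b).resolve_right fun h3 => ?_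
  have : b ∈ Finset.univ.filter fun b => l b = 1 :=
    Finset.mem_filter.2 ⟨Finset.mem_univ _, h3⟩
  rw [heq] at this
  rcases Finset.mem_insert.1 this with h4 | h4
  · exact h1 h4
  · exact h2 (Finset.mem_singleton.1 h4)

/-- **The prime three.** -/
theorem Conf.three (h : Conf C) {j : ℕ} (hj : 3 ≤ j) (hjk : j ≤ k) (hsp : SpansLoc C j)
    (hl : ∀ b, Loc j (C b)) (hf : ∀ b, ip (fcl k j) (C b) = 0) {c : B → ℤ} {τ : Cl ℤ (Fin k)}
    (hc : ∀ b, ¬ (3 : ℤ) ∣ c b) (hτ : ∑ b, c b • C b = (3 : ℤ) • τ) (b0 : B) :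
    ∃ b1 b2, b1 ≠ b2 ∧ ip (fcl k 1) (C b1) = 1 ∧ ip (fcl k 1) (C b2) = 1 ∧
      ∀ b, b ≠ b1 → b ≠ b2 → ip (fcl k 1) (C b) = 0 := by
  have h1 : ∀ b, ∃ s a : ℤ, (s = 1 ∨ s = -1) ∧ c b = s + 3 * a := by
    intro b
    have := hc b
    rcases (by omega : c b % 3 = 1 ∨ c b % 3 = 2) with h2 | h2
    · exact ⟨1, c b / 3, Or.inl rfl, by omega⟩
    · exact ⟨-1, c b / 3 + 1, Or.inr rfl, by omega⟩
  choose s a hs ha using h1
  refine h.three_pm hj hjk hsp hl hf (s := s) (τ := τ - ∑ b, a b • C b) hs ?_ b0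
  rw [smul_sub, ← hτ, Finset.smul_sum, ← Finset.sum_sub_distrib]
  refine Finset.sum_congr rfl fun b _ => ?_
  rw [ha b, add_smul, mul_smul, add_sub_cancel_right]

end LCY.H89
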