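import Pool.Agent.Helper89.LCY.CovG

/-!
Block COV of MP_f7e214_ag, part H: primes at least five.
-/

namespace LCY.H89

open Finset Pool.Agent.Helper82.LCY

variable {k : ℕ} {B : Type*} {C : B → Cl ℤ (Fin k)}

theorem Conf.indep (h : Conf C) : LinearIndependent ℤ C := by
  refine ind (A := KK) (KK_sq_pos (by simpa using h.hk)) C h.perp
    (fun b b' hb => h.off b b' hb) fun s n hn hz b hb => ?_
  have h1 := phi_sum (k := k) s n C
  rw [hz] at h1
  have h0 : phi k 0 = 0 := by simp [phi]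
  rw [h0] at h1
  have h2 := (Finset.sum_eq_zero_iff_of_nonneg
    (fun b hb => mul_nonneg (hn b hb) (h.phi_pos b).le)).1 h1.symm b hb
  exact (mul_eq_zero.1 h2).resolve_right (h.phi_pos b).ne'

theorem Conf.ne_zero' (h : Conf C) (b : B) : C b ≠ 0 := by
  intro h0
  have := h.phi_pos b
  rw [h0] at this
  simp [phi] at this

/-- a linear functional vanishing on a set vanishes on a multiple lying in the span -/
theorem span_functional {T : Set (Cl ℤ (Fin k))} (g : Cl ℤ (Fin k) →+ ℤ)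
    (hg : ∀ y ∈ T, g y = 0) {x : Cl ℤ (Fin k)} (hx : ∃ n : ℤ, n ≠ 0 ∧ n • x ∈ Submodule.span ℤ T) :
    g x = 0 := by
  obtain ⟨n, hn, hmem⟩ := hx
  have h1 : ∀ y ∈ Submodule.span ℤ T, g y = 0 := by
    intro y hy
    induction hy using Submodule.span_induction with
    | mem y hy => exact hg y hy
    | zero => exact map_zero g
    | add x y _ _ hx hy => rw [map_add, hx, hy, add_zero]
    | smul a x _ hx => rw [map_zsmul, hx, smul_zero]
  have h2 := h1 _ hmem
  rw [map_zsmul, smul_eq_mul] at h2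
  exact (mul_eq_zero.1 h2).resolve_left hn

/-- the functional `x ↦ x.2 i - x.1` -/
def gfun (i : Fin k) : Cl ℤ (Fin k) →+ ℤ where
  toFun x := x.2 i - x.1
  map_zero' := by simp
  map_add' x y := by simp; ring

/-- the functional `x ↦ x.1` -/
def dfun : Cl ℤ (Fin k) →+ ℤ where
  toFun x := x.1
  map_zero' := by simp
  map_add' x y := by simp

theorem fcl_snd_le (j : ℕ) (i : Fin k) : 0 ≤ (fcl k j).2 i ∧ (fcl k j).2 i ≤ 1 := by
  simp only [fcl]
  split_ifs <;> norm_num

variable [Fintype B] [DecidableEq B]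

/-- For a prime at least five some curve has two neighbours. -/
theorem Conf.big_nbrs (h : Conf C) {p : ℕ} (hp : p.Prime) (h5 : 5 ≤ p) {c : B → ℤ}
    {τ : Cl ℤ (Fin k)} (hc : ∀ b, ¬ (p : ℤ) ∣ c b) (hτ : ∑ b, c b • C b = (p : ℤ) • τ) (b : B) :
    ∃ b0 b1 b2, b1 ≠ b0 ∧ b2 ≠ b0 ∧ b1 ≠ b2 ∧ ip (C b1) (C b0) = 1 ∧ ip (C b2) (C b0) = 1 := by
  classical
  by_contra hno
  push Not at hno
  have hpp : Prime (p : ℤ) := Nat.prime_iff_prime_int.1 hp
  have hn2 : ¬ (p : ℤ) ∣ 2 := by
    intro hd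
    have := Int.le_of_dvd (by norm_num) hd
    omega
  have hn3 : ¬ (p : ℤ) ∣ 3 := by
    intro hd
    have := Int.le_of_dvd (by norm_num) hd
    omega
  have hex : ∀ b, ∃ b', b' ≠ b ∧ ip (C b') (C b) = 1 := by
    intro b
    by_contra hnone
    push Not at hnone
    have h1 := h.congr_dvd hτ b
    rw [Finset.sum_eq_zero fun b' hb' => ?_, add_zero] at h1
    · have h2 : (p : ℤ) ∣ 2 * c b := by
        have := (dvd_neg (α := ℤ)).2 h1
        have h3 : -(-2 * c b) = 2 * c b := by ring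
        rwa [h3] at this
      rcases hpp.dvd_or_dvd h2 with h3 | h3
      · exact hn2 h3
      · exact hc b h3
    · have g3 := Finset.ne_of_mem_erase hb'
      rw [(h.off_eq g3).resolve_right (hnone b' g3), mul_zero]
  have hone : ∀ b b', b' ≠ b → ip (C b') (C b) = 1 → (p : ℤ) ∣ -2 * c b + c b' := by
    intro b b' hb' h1
    have h2 := h.congr_dvd hτ b
    rw [Finset.sum_eq_single b' (fun b2 hb2 hne => ?_) (fun hn => ?_), h1, mul_one] at h2
    · exact h2
    · have g3 := Finset.ne_of_mem_erase hb2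
      rcases h.off_eq g3 with g4 | g4
      · rw [g4, mul_zero]
      · exact absurd g4 (hno b b' b2 hb' g3 (Ne.symm hne) h1)
    · exact absurd (Finset.mem_erase.2 ⟨hb', Finset.mem_univ _⟩) hn
  obtain ⟨b', hb', h1⟩ := hex b
  have h2 := hone b b' hb' h1
  have h3 := hone b' b (Ne.symm hb') (by rw [ip_comm]; exact h1)
  have h4 : (p : ℤ) ∣ 3 * c b := by
    have h5 : 3 * c b = -(2 * (-2 * c b + c b') + (-2 * c b' + c b)) := by ring
    rw [h5, dvd_neg]
    exact dvd_add (Dvd.dvd.mul_left h2 _) h3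
  rcases hpp.dvd_or_dvd h4 with h5 | h5
  · exact hn3 h5
  · exact hc b h5

/-- The other curves span on the first three points: the three curves. -/
theorem Conf.span_three (h : Conf C) (hk3 : 3 < k) (b0 : B)
    (hsp : ∀ x : Cl ℤ (Fin k), ip (fcl k 3) x = 0 → Loc 3 x → ∃ n : ℤ, n ≠ 0 ∧
      n • x ∈ Submodule.span ℤ (C '' {b | b ≠ b0 ∧ Loc 3 (C b)})) :
    (∃ b, b ≠ b0 ∧ (C b).1 = 1 ∧ (∀ i : Fin k, (i : ℕ) < 3 → (C b).2 i = 1) ∧
      ∀ i : Fin k, 3 ≤ (i : ℕ) → (C b).2 i = 0) ∧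
    (∃ b, b ≠ b0 ∧ Exc (C b) ⟨0, by omega⟩ ⟨1, by omega⟩) ∧
    (∃ b, b ≠ b0 ∧ Exc (C b) ⟨1, by omega⟩ ⟨2, by omega⟩) ∧
    ∀ b, b ≠ b0 → Loc 3 (C b) → ((C b).1 = 1 ∧ (∀ i : Fin k, (i : ℕ) < 3 → (C b).2 i = 1) ∧
      ∀ i : Fin k, 3 ≤ (i : ℕ) → (C b).2 i = 0) ∨ Exc (C b) ⟨0, by omega⟩ ⟨1, by omega⟩ ∨
      Exc (C b) ⟨1, by omega⟩ ⟨2, by omega⟩ ∨ Exc (C b) ⟨0, by omega⟩ ⟨2, by omega⟩ := by
  classical
  set i0 : Fin k := ⟨0, by omega⟩ with hi0
  set i1 : Fin k := ⟨1, by omega⟩ with hi1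
  set i2 : Fin k := ⟨2, by omega⟩ with hi2
  have h01 : i0 ≠ i1 := by
    intro heq; have := congrArg Fin.val heq; simp [hi0, hi1] at this
  have h02 : i0 ≠ i2 := by
    intro heq; have := congrArg Fin.val heq; simp [hi0, hi2] at this
  have h12 : i1 ≠ i2 := by
    intro heq; have := congrArg Fin.val heq; simp [hi1, hi2] at this
  have hsmall : ∀ i : Fin k, (i : ℕ) < 3 → i = i0 ∨ i = i1 ∨ i = i2 := by
    intro i hi
    rcases (by omega : (i : ℕ) = 0 ∨ (i : ℕ) = 1 ∨ (i : ℕ) = 2) with h1 | h1 | h1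
    · exact Or.inl (Fin.ext h1)
    · exact Or.inr (Or.inl (Fin.ext h1))
    · exact Or.inr (Or.inr (Fin.ext h1))
  have hsum3 : ∀ x : Cl ℤ (Fin k), Loc 3 x → ∑ i, x.2 i = x.2 i0 + x.2 i1 + x.2 i2 := by
    intro x hx
    have h1 : ∑ i ∈ ({i0, i1, i2} : Finset (Fin k)), x.2 i = ∑ i, x.2 i := by
      refine Finset.sum_subset (Finset.subset_univ _) fun i _ hi => ?_
      by_cases h2 : (i : ℕ) < 3
      · exfalso
        apply hi
        rcases hsmall i h2 with h3 | h3 | h3 <;> simp [h3]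
      · exact hx i (by omega)
    rw [← h1, Finset.sum_insert (by simp [h01, h02]), Finset.sum_pair h12]
    ring
  -- classification
  have hcl : ∀ b, Loc 3 (C b) → ((C b).1 = 1 ∧ (∀ i : Fin k, (i : ℕ) < 3 → (C b).2 i = 1) ∧
      ∀ i : Fin k, 3 ≤ (i : ℕ) → (C b).2 i = 0) ∨ Exc (C b) i0 i1 ∨ Exc (C b) i1 i2 ∨
      Exc (C b) i0 i2 := by
    intro b hb
    rcases h.form b with hA | ⟨p, q, he⟩
    · left
      have hK := h.perp b
      rw [ip_KK, hsum3 _ hb] at hK
      rcases h.roots hA with ⟨h2, h3⟩ | ⟨h2, h3⟩ | ⟨h2, -, l, h4, h5⟩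
      · rw [h2] at hK
        refine ⟨h2, fun i hi => ?_, hb⟩
        rcases h3 i0 with g0 | g0 <;> rcases h3 i1 with g1 | g1 <;>
          rcases h3 i2 with g2 | g2 <;> rw [g0, g1, g2] at hK <;> norm_num at hK
        rcases hsmall i hi with g | g | g <;> rw [g] <;> assumption
      · exfalso
        rw [h2] at hK
        rcases h3 i0 with g0 | g0 <;> rcases h3 i1 with g1 | g1 <;>
          rcases h3 i2 with g2 | g2 <;> rw [g0, g1, g2] at hK <;> norm_num at hK
      · exfalso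
        have h6 := hb ⟨3, hk3⟩ le_rfl
        by_cases h7 : (⟨3, hk3⟩ : Fin k) = l
        · rw [h7, h4] at h6; norm_num at h6
        · rw [h5 _ h7] at h6; norm_num at h6
    · right
      have hpq : (p : ℕ) < (q : ℕ) := he.1
      have hq : (q : ℕ) < 3 := by
        by_contra hq
        have h1 := hb q (by omega)
        rw [he.at_q] at h1
        norm_num at h1
      rcases hsmall p (by omega) with g | g | g <;> rcases hsmall q hq with g' | g' | g' <;>
        rw [g, g'] at he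
      · exact absurd he.1 (lt_irrefl _)
      · exact Or.inl he
      · exact Or.inr (Or.inr he)
      · exfalso; rw [g, g'] at hpq; simp [hi0, hi1] at hpq
      · exact absurd he.1 (lt_irrefl _)
      · exact Or.inr (Or.inl he)
      · exfalso; rw [g, g'] at hpq; simp [hi0, hi2] at hpq
      · exfalso; rw [g, g'] at hpq; simp [hi1, hi2] at hpq
      · exact absurd he.1 (lt_irrefl _)
  -- the line class
  have hT : ∀ (g : Cl ℤ (Fin k) →+ ℤ), (∀ b, b ≠ b0 → Loc 3 (C b) → g (C b) = 0) →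
      ∀ x, ip (fcl k 3) x = 0 → Loc 3 x → g x = 0 := by
    intro g hg x hx hx'
    refine span_functional g ?_ (hsp x hx hx')
    rintro y ⟨b, ⟨hb1, hb2⟩, rfl⟩
    exact hg b hb1 hb2
  have hfx : ∀ x : Cl ℤ (Fin k), Loc 3 x → ip (fcl k 3) x = 3 * x.1 - ∑ i, x.2 i := by
    intro x hx
    simp only [ip, fcl]
    norm_num
    refine Finset.sum_congr rfl fun i _ => ?_
    by_cases h1 : (i : ℕ) < 3
    · rw [if_pos h1]
    · rw [if_neg h1, hx i (by omega)]
  have hline : ∃ b, b ≠ b0 ∧ (C b).1 = 1 ∧ (∀ i : Fin k, (i : ℕ) < 3 → (C b).2 i = 1) ∧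
      ∀ i : Fin k, 3 ≤ (i : ℕ) → (C b).2 i = 0 := by
    by_contra hno
    push Not at hno
    set x : Cl ℤ (Fin k) := (1, fun i => if (i : ℕ) < 3 then 1 else 0) with hx
    have hxl : Loc 3 x := by
      intro i hi
      simp only [hx]
      rw [if_neg (by omega)]
    have h1 := hT dfun (fun b hb hbl => by
      rcases hcl b hbl with ⟨g1, g2, g3⟩ | g | g | g
      · obtain ⟨i, g4, g5⟩ := hno b hb g1 g2
        exact absurd (g3 i g4) g5
      · exact g.2.1
      · exact g.2.1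
      · exact g.2.1) x (by
        rw [hfx x hxl, hsum3 x hxl]
        simp [hx, hi0, hi1, hi2]) hxl
    simp [dfun, hx] at h1
  -- products
  have hno2 : ∀ b b', Exc (C b) i0 i2 → Exc (C b') i1 i2 → False := by
    intro b b' g g'
    have h1 := ip_exc g' (D := C b)
    rw [g.at_q, g.at_ne (Ne.symm h01) h12] at h1
    have h2 := h.off b b' (by
      rintro rfl
      have := g.at_ne (Ne.symm h01) h12
      rw [g'.at_p] at this
      norm_num at this)
    omega
  have hno1 : ∀ b b', Exc (C b) i0 i1 → Exc (C b') i0 i2 → False := by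
    intro b b' g g'
    have h1 := exc_exc_neg g' g
    have h2 := h.off b b' (by
      rintro rfl
      have := g.at_ne (Ne.symm h02) (Ne.symm h12)
      rw [g'.at_q] at this
      norm_num at this)
    omega
  have hx1 : ∃ b, b ≠ b0 ∧ Exc (C b) i0 i1 := by
    by_contra hno
    push Not at hno
    set x : Cl ℤ (Fin k) := (0, fun i => (if i = i1 then 1 else 0) - (if i = i0 then 1 else 0))
      with hx
    have hxl : Loc 3 x := by
      intro i hi
      simp only [hx]
      rw [if_neg, if_neg]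
      · norm_num
      · rintro rfl; simp [hi0] at hi
      · rintro rfl; simp [hi1] at hi
    have hfx0 : ip (fcl k 3) x = 0 := by
      rw [hfx x hxl, hsum3 x hxl]
      simp [hx, h01, Ne.symm h01, Ne.symm h02, Ne.symm h12]
    by_cases h2 : ∃ b, b ≠ b0 ∧ Loc 3 (C b) ∧ Exc (C b) i1 i2
    · obtain ⟨b', -, -, hb'⟩ := h2
      have h1 := hT (gfun i0) (fun b hb hbl => by
        rcases hcl b hbl with ⟨g1, g2, g3⟩ | g | g | g
        · simp [gfun, g1, g2 i0 (by simp [hi0])]
        · exact absurd g (hno b hb)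
        · simp [gfun, g.2.1, g.at_ne h01 h02]
        · exact absurd hb' fun hb' => hno2 _ _ g hb') x hfx0 hxl
      simp [gfun, hx, h01] at h1
    · push Not at h2
      have h1 := hT (gfun i1) (fun b hb hbl => by
        rcases hcl b hbl with ⟨g1, g2, g3⟩ | g | g | g
        · simp [gfun, g1, g2 i1 (by simp [hi1])]
        · exact absurd g (hno b hb)
        · exact absurd g (h2 b hb hbl)
        · simp [gfun, g.2.1, g.at_ne (Ne.symm h01) h12]) x hfx0 hxl
      simp [gfun, hx, Ne.symm h01] at h1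
  have hx2 : ∃ b, b ≠ b0 ∧ Exc (C b) i1 i2 := by
    by_contra hno
    push Not at hno
    obtain ⟨b', -, hb'⟩ := hx1
    set x : Cl ℤ (Fin k) := (0, fun i => (if i = i2 then 1 else 0) - (if i = i1 then 1 else 0))
      with hx
    have hxl : Loc 3 x := by
      intro i hi
      simp only [hx]
      rw [if_neg, if_neg]
      · norm_num
      · rintro rfl; simp [hi1] at hi
      · rintro rfl; simp [hi2] at hi
    have hfx0 : ip (fcl k 3) x = 0 := by
      rw [hfx x hxl, hsum3 x hxl]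
      simp [hx, h01, h02, h12, Ne.symm h12]
    have h1 := hT (gfun i2) (fun b hb hbl => by
      rcases hcl b hbl with ⟨g1, g2, g3⟩ | g | g | g
      · simp [gfun, g1, g2 i2 (by simp [hi2])]
      · simp [gfun, g.2.1, g.at_ne (Ne.symm h02) (Ne.symm h12)]
      · exact absurd g (hno b hb)
      · exact absurd g fun g => hno1 _ _ hb' g) x hfx0 hxl
    simp [gfun, hx, Ne.symm h12] at h1
  exact ⟨hline, hx1, hx2, fun b _ hbl => hcl b hbl⟩

end LCY.H89
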