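import Pool.Agent.Helper89.LCY.CovH

/-!
Block COV of MP_f7e214_ag, part I: primes at least five, conclusion.
-/

namespace LCY.H89

open Finset Pool.Agent.Helper82.LCY

variable {k : ℕ} {B : Type*} {C : B → Cl ℤ (Fin k)}

/-- intersection numbers of `f_j` with a root are at most six; the values at least five -/
theorem Conf.big_value (h : Conf C) {j : ℕ} (hjk : j ≤ k) {b : B}
    (h5 : 5 ≤ ip (fcl k j) (C b)) :
    ip (fcl k j) (C b) = 6 ∨
    (j = 3 ∧ k = 8 ∧ ∃ d, (C b).1 = d ∧ (d = 2 ∨ d = 3) ∧ (∀ i, 0 ≤ (C b).2 i) ∧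
      ∑ i : Fin k, (if (i : ℕ) < 3 then (C b).2 i else 0) = 3 * d - 5) ∨
    (j = 4 ∧ k = 8 ∧ (C b).1 = 3 ∧ ∃ i0 : Fin k, 4 ≤ (i0 : ℕ) ∧ (C b).2 i0 = 2 ∧
      ∀ i, i ≠ i0 → (C b).2 i = 1) := by
  classical
  have hk8 := h.hk
  rcases h.form b with hA | ⟨p, q, he⟩
  swap
  · exfalso
    rw [ip_exc he] at h5
    have h1 := fcl_snd_le (k := k) j p
    have h2 := fcl_snd_le (k := k) j q
    omega
  have hval := ip_fcl (k := k) j (C b)
  have hK := h.perp b
  have hroots := h.roots hA
  -- degree one is impossible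
  have hnn : ∀ i, 0 ≤ Pool.Agent.Helper82.LCY.ext (C b).2 i := fun i => hA.ext_nonneg i
  have hfd : fdeg j ≤ 3 := by
    unfold fdeg
    split_ifs <;> norm_num
  have hd1 : (C b).1 ≠ 1 := by
    intro h1
    have h2 : 0 ≤ ∑ i ∈ range j, Pool.Agent.Helper82.LCY.ext (C b).2 i :=
      Finset.sum_nonneg fun i _ => hnn i
    rw [h1] at hval
    omega
  rcases Nat.lt_or_ge j 3 with hj | hj
  · exfalso
    interval_cases j
    · simp [fdeg] at hval
      rcases hroots with ⟨h2, -⟩ | ⟨h2, -⟩ | ⟨h2, -⟩ <;> omega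
    · simp [fdeg] at hval
      have := hnn 0
      rcases hroots with ⟨h2, -⟩ | ⟨h2, -⟩ | ⟨h2, -⟩ <;> omega
    · simp [fdeg, Finset.sum_range_succ] at hval
      have g0 := hnn 0
      have g1 := hnn 1
      rcases hroots with ⟨h2, -⟩ | ⟨h2, -⟩ | ⟨h2, h3, l, h4, h5'⟩
      · omega
      · omega
      · have g2 : 1 ≤ Pool.Agent.Helper82.LCY.ext (C b).2 0 := by
          have h0 : 0 < k := by omega
          simp only [Pool.Agent.Helper82.LCY.ext, h0, dif_pos]
          by_cases hl : (⟨0, h0⟩ : Fin k) = l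
          · rw [hl, h4]; norm_num
          · rw [h5' _ hl]
        have g3 : 1 ≤ Pool.Agent.Helper82.LCY.ext (C b).2 1 := by
          have h0 : 1 < k := by omega
          simp only [Pool.Agent.Helper82.LCY.ext, h0, dif_pos]
          by_cases hl : (⟨1, h0⟩ : Fin k) = l
          · rw [hl, h4]; norm_num
          · rw [h5' _ hl]
        omega
  -- `3 ≤ j`
  have htail := fcl_tail hK hj
  have hsumK : ∑ i, (C b).2 i = 3 * (C b).1 := by
    rw [ip_KK] at hK; linarith
  have hsplit : ∑ i : Fin k, (C b).2 i = ∑ i : Fin k, (if (i : ℕ) < j then (C b).2 i else 0)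
      + ∑ i : Fin k, if j ≤ (i : ℕ) then (C b).2 i else 0 := by
    rw [← Finset.sum_add_distrib]
    refine Finset.sum_congr rfl fun i _ => ?_
    by_cases h : (i : ℕ) < j
    · rw [if_pos h, if_neg (by omega)]; ring
    · rw [if_neg h, if_pos (by omega)]; ring
  have hcount : ∑ i : Fin k, (if j ≤ (i : ℕ) then (1 : ℤ) else 0) = k - j := by
    have h1 : ∑ i : Fin k, (if j ≤ (i : ℕ) then (1 : ℤ) else 0)
        = ∑ i ∈ range k, (if j ≤ i then (1 : ℤ) else 0) := by
      rw [Finset.sum_range]
    rw [h1, Finset.range_eq_Ico, ← Finset.sum_Ico_consecutive _ (Nat.zero_le _) hjk,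
      Finset.sum_eq_zero (s := Finset.Ico 0 j), zero_add,
      Finset.sum_congr (s₂ := Finset.Ico j k) (g := fun _ => (1 : ℤ)) rfl]
    · simp
      omega
    · intro i hi
      rw [if_pos (Finset.mem_Ico.1 hi).1]
    · intro i hi
      rw [if_neg (by have := (Finset.mem_Ico.1 hi).2; omega)]
  rcases hroots with ⟨h2, -⟩ | ⟨h2, h3⟩ | ⟨h2, h3, l, h4, h5'⟩
  · exact absurd h2 hd1
  · -- conics
    have hle : ∑ i : Fin k, (if j ≤ (i : ℕ) then (C b).2 i else 0)
        ≤ ∑ i : Fin k, (if j ≤ (i : ℕ) then (1 : ℤ) else 0) := by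
      refine Finset.sum_le_sum fun i _ => ?_
      split_ifs
      · rcases h3 i with h4 | h4 <;> rw [h4] <;> norm_num
      · exact le_rfl
    rw [hcount, ← htail] at hle
    right; left
    have hj3 : j = 3 := by omega
    subst hj3
    refine ⟨rfl, by omega, 2, h2, Or.inl rfl, fun i => (hA.2 i).1, ?_⟩
    have : ip (fcl k 3) (C b) = 5 := by omega
    rw [this] at htail
    rw [h2] at hsumK
    linarith
  · -- cubics
    have hexp : ∀ i : Fin k, (if j ≤ (i : ℕ) then (C b).2 i else 0)
        = (if j ≤ (i : ℕ) then (1 : ℤ) else 0) + (if i = l then (if j ≤ (l : ℕ) then 1 else 0)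
          else 0) := by
      intro i
      by_cases hl : i = l
      · subst hl
        rw [h4, if_pos rfl]
        split_ifs <;> norm_num
      · rw [h5' _ hl, if_neg hl, add_zero]
    have htail2 : ip (fcl k j) (C b) = (k - j : ℤ) + (if j ≤ (l : ℕ) then 1 else 0) := by
      rw [htail, Finset.sum_congr rfl fun i _ => hexp i, Finset.sum_add_distrib, hcount]
      simp
    by_cases hl : j ≤ (l : ℕ)
    · rw [if_pos hl] at htail2
      rcases (by omega : j = 3 ∨ j = 4) with hj3 | hj4
      · left
        rw [htail2, h3, hj3]; norm_num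
      · right; right
        refine ⟨hj4, h3, h2, l, by omega, h4, h5'⟩
    · rw [if_neg hl, add_zero] at htail2
      right; left
      have hj3 : j = 3 := by omega
      subst hj3
      refine ⟨rfl, h3, 3, h2, Or.inr rfl, fun i => (hA.2 i).1, ?_⟩
      have : ip (fcl k 3) (C b) = 5 := by rw [htail2, h3]; norm_num
      rw [this] at htail
      rw [h2] at hsumK
      linarith

variable [Fintype B] [DecidableEq B]

/-- the conclusion: `f_1` meets no curve of the configuration, or exactly two, once each -/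
def Good (C : B → Cl ℤ (Fin k)) : Prop :=
  (∀ b, ip (fcl k 1) (C b) = 0) ∨ ∃ b1 b2, b1 ≠ b2 ∧ ip (fcl k 1) (C b1) = 1 ∧
    ip (fcl k 1) (C b2) = 1 ∧ ∀ b, b ≠ b1 → b ≠ b2 → ip (fcl k 1) (C b) = 0

/-- **Primes at least five.** `b0` is a curve with two neighbours, and `f_j` is orthogonal to the
other curves. -/
theorem Conf.big (h : Conf C) {p : ℕ} (hp : p.Prime) (h5 : 5 ≤ p) {c : B → ℤ}
    {τ : Cl ℤ (Fin k)} (hc : ∀ b, ¬ (p : ℤ) ∣ c b) (hτ : ∑ b, c b • C b = (p : ℤ) • τ)
    {b0 n1 n2 : B} (hn1 : n1 ≠ b0) (hn2 : n2 ≠ b0) (hn12 : n1 ≠ n2) (hi1 : ip (C n1) (C b0) = 1)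
    (hi2 : ip (C n2) (C b0) = 1) {j : ℕ} (hjk : j ≤ k)
    (hf : ∀ b, b ≠ b0 → ip (fcl k j) (C b) = 0)
    (hsp : 3 ≤ j → ∀ x : Cl ℤ (Fin k), ip (fcl k j) x = 0 → Loc j x → ∃ n : ℤ, n ≠ 0 ∧
      n • x ∈ Submodule.span ℤ (C '' {b | b ≠ b0 ∧ Loc j (C b)})) : Good C := by
  classical
  have hk8 := h.hk
  have hpp : Prime (p : ℤ) := Nat.prime_iff_prime_int.1 hp
  have hdvd : (p : ℤ) ∣ ip (fcl k j) (C b0) := by
    have h1 := ip_eq hτ (fcl k j)
    rw [Finset.sum_eq_single b0 (fun b _ hb => by rw [hf b hb, mul_zero])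
      (fun hn => absurd (Finset.mem_univ _) hn)] at h1
    have h2 : (p : ℤ) ∣ c b0 * ip (fcl k j) (C b0) := ⟨_, h1⟩
    exact (hpp.dvd_or_dvd h2).resolve_left (hc b0)
  have hnn : 0 ≤ ip (fcl k j) (C b0) := fcl_nonneg_of_K (h.types b0) (h.perp b0) hjk
  rcases hnn.eq_or_lt with hz | hpos
  · -- orthogonal to everything
    have hall : ∀ b, ip (fcl k j) (C b) = 0 := by
      intro b
      by_cases hb : b = b0
      · rw [hb, ← hz]
      · exact hf b hb
    rcases Nat.lt_or_ge j 3 with hj | hj
    · interval_cases j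
      · exact absurd (h.ne_zero hc hτ b0 hall) id
      · exact Or.inl hall
      · exact absurd (h.ne_two hjk hc hτ b0 hall) id
    · exfalso
      have hl := h.all_loc hc hτ hj hall
      obtain ⟨n, hn, hmem⟩ := hsp hj (C b0) (hall b0) (hl b0)
      have hsub : Submodule.span ℤ (C '' {b | b ≠ b0 ∧ Loc j (C b)})
          ≤ Submodule.span ℤ (C '' {b0}ᶜ) :=
        Submodule.span_mono (Set.image_mono fun b hb => hb.1)
      have hdis := h.indep.disjoint_span_image (s := {b0}) (t := {b0}ᶜ) disjoint_compl_right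
      have hmem1 : n • C b0 ∈ Submodule.span ℤ (C '' {b0}) :=
        Submodule.smul_mem _ _ (Submodule.subset_span ⟨b0, rfl, rfl⟩)
      have h0 := (Submodule.disjoint_def.1 hdis) _ hmem1 (hsub hmem)
      have h1 := congrArg (fun x => ip x (C b0)) h0
      simp only [ip_smul_left, ip_zero_left, h.sq b0] at h1
      have : n = 0 := by omega
      exact hn this
  · have hge5 : 5 ≤ ip (fcl k j) (C b0) := by
      have := Int.le_of_dvd hpos hdvd
      omega
    rcases h.big_value hjk hge5 with h6 | ⟨hj3, hk, d, hd, hd23, hm0, hsum⟩ |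
      ⟨hj4, hk, hd3, l, hl4, hl2, hl1⟩
    · -- six
      exfalso
      rw [h6] at hdvd
      have h7 : p ≤ 6 := by
        have := Int.le_of_dvd (by norm_num) hdvd
        omega
      rcases (by omega : p = 5 ∨ p = 6) with h8 | h8
      · rw [h8] at hdvd; norm_num at hdvd
      · rw [h8] at hp; norm_num at hp
    · -- three points
      subst hj3
      obtain ⟨⟨bl, hbl0, hbl1, hbl2, hbl3⟩, ⟨ba, hba0, hba⟩, ⟨bb, hbb0, hbb⟩, hcl⟩ :=
        h.span_three (by omega) b0 (hsp le_rfl)
      have hprod : ip (C b0) (C bl) = d - (3 * d - 5) := by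
        simp only [ip, hd, hbl1, mul_one]
        rw [← hsum]
        congr 1
        refine Finset.sum_congr rfl fun i _ => ?_
        by_cases hi : (i : ℕ) < 3
        · rw [if_pos hi, hbl2 i hi, mul_one]
        · rw [if_neg hi, hbl3 i (by omega), mul_zero]
      have h1 := h.off b0 bl (Ne.symm hbl0)
      have hd2 : d = 2 := by omega
      subst hd2
      have g0 : 0 < k := by omega
      have g1 : 1 < k := by omega
      have g2 : 2 < k := by omega
      have ha := h.off b0 ba (Ne.symm hba0)
      have hb := h.off b0 bb (Ne.symm hbb0)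
      rw [ip_exc hba] at ha
      rw [ip_exc hbb] at hb
      have hs3 : (C b0).2 ⟨0, g0⟩ + (C b0).2 ⟨1, g1⟩ + (C b0).2 ⟨2, g2⟩ = 1 := by
        have h2 : ∑ i : Fin k, (if (i : ℕ) < 3 then (C b0).2 i else 0)
            = ∑ i ∈ range 3, Pool.Agent.Helper82.LCY.ext (C b0).2 i := by
          have h3 : ∑ i : Fin k, (if (i : ℕ) < 3 then (C b0).2 i else 0)
              = ∑ i ∈ range k, (if i < 3 then Pool.Agent.Helper82.LCY.ext (C b0).2 i else 0) := by
            rw [Finset.sum_range]
            exact Finset.sum_congr rfl fun i _ => by rw [ext_fin]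
          rw [h3]
          have h4 : ∑ i ∈ range 3, (if i < 3 then Pool.Agent.Helper82.LCY.ext (C b0).2 i else 0)
              = ∑ i ∈ range k, (if i < 3 then Pool.Agent.Helper82.LCY.ext (C b0).2 i else 0) := by
            refine Finset.sum_subset (Finset.range_mono (by omega)) fun i _ hi => ?_
            rw [if_neg (by simpa using hi)]
          rw [← h4]
          exact Finset.sum_congr rfl fun i hi => by rw [if_pos (Finset.mem_range.1 hi)]
        rw [h2] at hsum
        simp only [Finset.sum_range_succ, Finset.sum_range_zero, zero_add,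
          Pool.Agent.Helper82.LCY.ext, g0, g1, g2, dif_pos] at hsum
        linarith
      have hm1 := hm0 ⟨1, g1⟩
      have hm2 := hm0 ⟨2, g2⟩
      have hm : (C b0).2 ⟨0, g0⟩ = 1 := by omega
      refine Or.inr ⟨b0, ba, Ne.symm hba0, ?_, ?_, fun b hb0 hba' => ?_⟩
      · rw [fcl_one_eq g0, hd, hm]; norm_num
      · rw [fcl_one_eq g0, hba.2.1, hba.at_p]; norm_num
      · rcases h.loc (j := 3) le_rfl (hf b hb0) with hloc | ⟨p', q', he', hp'⟩
        · rcases hcl b hb0 hloc with ⟨g3, g4, g5⟩ | g | g | g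
          · rw [fcl_one_eq g0, g3, g4 ⟨0, g0⟩ (by norm_num)]; norm_num
          · exfalso
            have h2 := exc_exc_neg hba g
            have h3 := h.off b ba hba'
            omega
          · rw [fcl_one_eq g0, g.2.1, g.at_ne (l := ⟨0, g0⟩)
              (by intro heq; have := congrArg Fin.val heq; simp at this)
              (by intro heq; have := congrArg Fin.val heq; simp at this)]
            norm_num
          · exfalso
            have h2 := exc_exc_neg hba g
            have h3 := h.off b ba hba'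
            omega
        · have hpq' : (p' : ℕ) < (q' : ℕ) := he'.1
          rw [fcl_one_eq g0, he'.2.1, he'.at_ne (l := ⟨0, g0⟩)
            (by intro heq; have := congrArg Fin.val heq; simp at this; omega)
            (by intro heq; have := congrArg Fin.val heq; simp at this; omega)]
          norm_num
    · -- four points
      exfalso
      subst hj4
      have hexc : ∀ n, n ≠ b0 → ip (C n) (C b0) = 1 → ∃ q', Exc (C n) l q' := by
        intro n hn hi
        rcases h.loc (j := 4) (by norm_num) (hf n hn) with hloc | ⟨p', q', he', hp'⟩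
        · exfalso
          have h1 : ip (C n) (C b0) = - ip KK (C n) := by
            rw [ip_KK]
            simp only [ip, hd3]
            have : ∑ i, (C n).2 i * (C b0).2 i = ∑ i, (C n).2 i := by
              refine Finset.sum_congr rfl fun i _ => ?_
              by_cases hi' : (i : ℕ) < 4
              · rw [hl1 i (by rintro rfl; omega), mul_one]
              · rw [hloc i (by omega), zero_mul]
            rw [this]; ring
          rw [h1, h.perp n] at hi
          norm_num at hi
        · have h1 : ip (C b0) (C n) = 1 := by rw [ip_comm]; exact hi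
          rw [ip_exc he'] at h1
          have hp2 : p' = l := by
            by_contra hne
            rw [hl1 p' hne] at h1
            by_cases hq : q' = l
            · rw [hq, hl2] at h1; norm_num at h1
            · rw [hl1 q' hq] at h1; norm_num at h1
          rw [hp2] at he'
          exact ⟨q', he'⟩
      obtain ⟨q1, he1⟩ := hexc n1 hn1 hi1
      obtain ⟨q2, he2⟩ := hexc n2 hn2 hi2
      have h1 := exc_exc_neg he2 he1
      have h2 := h.off n1 n2 hn12
      omega

end LCY.H89
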