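import Pool.Agent.Helper26.LC.CB2
import Pool.Agent.Helper99.LCY.Kum
import Pool.Agent.Helper48.LCY.Top

/-!
Block COV of MP_f7e214_ag, part J: Kummer extensions of a ruled field whose ramification is
concentrated in at most two sections are ruled.
-/

open Polynomial

namespace LCY.H89

noncomputable section

section Poly

variable {E : Type} [Field E]

theorem mult_of_ne {P Q : E[X]} (hP : P.Monic) (hQ : Q.Monic) (hPi : Irreducible P)
    (hQi : Irreducible Q) (h : P ≠ Q) : multiplicity P Q = 0 := by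
  apply mult_eq_zero
  intro hd
  exact h (eq_of_monic_of_associated hP hQ (hPi.associated_of_dvd hQi hd))

/-- A polynomial all of whose multiplicities, with two exceptions, are divisible by `m`. -/
theorem poly_mod (m : ℕ) (P1 P2 : E[X]) :
    ∀ (N : ℕ) (f : E[X]), f.natDegree ≤ N → f ≠ 0 →
      (∀ P : E[X], P.Monic → Irreducible P → P ≠ P1 → P ≠ P2 → m ∣ multiplicity P f) →
      ∃ (c : E) (n1 n2 : ℕ) (y : E[X]), c ≠ 0 ∧ y ≠ 0 ∧ f = C c * P1 ^ n1 * P2 ^ n2 * y ^ m := by
  intro N
  induction N with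
  | zero =>
    intro f hf hf0 _
    have hd : f.natDegree = 0 := by omega
    obtain ⟨c, hc⟩ := natDegree_eq_zero.1 hd
    refine ⟨c, 0, 0, 1, ?_, one_ne_zero, by rw [← hc]; simp⟩
    rintro rfl
    exact hf0 (by rw [← hc, C_0])
  | succ N ih =>
    intro f hf hf0 H
    by_cases hu : IsUnit f
    · obtain ⟨c, hc, rfl⟩ := isUnit_iff.1 hu
      exact ⟨c, 0, 0, 1, hc.ne_zero, one_ne_zero, by simp⟩
    obtain ⟨P, hPm, hPi, f', hf'⟩ := exists_monic_irreducible_factor f hu
    have hf'0 : f' ≠ 0 := by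
      rintro rfl
      exact hf0 (by rw [hf', mul_zero])
    have hdeg : f.natDegree = P.natDegree + f'.natDegree := by
      rw [hf', natDegree_mul hPm.ne_zero hf'0]
    have hPd := hPi.natDegree_pos
    by_cases hP12 : P = P1 ∨ P = P2
    · obtain ⟨c, n1, n2, y, hc, hy, he⟩ := ih f' (by omega) hf'0 (by
        intro Q hQm hQi hQ1 hQ2
        have h3 := H Q hQm hQi hQ1 hQ2
        rw [hf', mult_mul hQi hPm.ne_zero hf'0, mult_of_ne hQm hPm hQi hPi
          (by rintro rfl; rcases hP12 with h | h; exacts [hQ1 h, hQ2 h]), zero_add] at h3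
        exact h3)
      rcases hP12 with h | h
      · exact ⟨c, n1 + 1, n2, y, hc, hy, by rw [hf', he, h]; ring⟩
      · exact ⟨c, n1, n2 + 1, y, hc, hy, by rw [hf', he, h]; ring⟩
    · push Not at hP12
      have hmd := H P hPm hPi hP12.1 hP12.2
      have hpos : 0 < multiplicity P f := by
        rw [hf', mult_mul hPi hPm.ne_zero hf'0, multiplicity_self]
        omega
      obtain ⟨r, hr⟩ := hmd
      have hm0 : 0 < m := by
        rcases Nat.eq_zero_or_pos m with h | h
        · rw [h, zero_mul] at hr; omega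
        · exact h
      have hr0 : 0 < r := by
        rcases Nat.eq_zero_or_pos r with h | h
        · rw [h, mul_zero] at hr; omega
        · exact h
      have hle : m ≤ multiplicity P f := by rw [hr]; exact Nat.le_mul_of_pos_right m hr0
      obtain ⟨f2, hf2⟩ := (pow_dvd_pow P hle).trans (pow_multiplicity_dvd P f)
      have hf20 : f2 ≠ 0 := by
        rintro rfl
        exact hf0 (by rw [hf2, mul_zero])
      have hPm0 : P ^ m ≠ 0 := pow_ne_zero _ hPm.ne_zero
      have hdeg2 : f.natDegree = m * P.natDegree + f2.natDegree := by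
        rw [hf2, natDegree_mul hPm0 hf20, natDegree_pow]
      have hpd : 0 < m * P.natDegree := Nat.mul_pos hm0 hPd
      have hmp : ∀ Q : E[X], Irreducible Q → multiplicity Q (P ^ m) = m * multiplicity Q P := by
        intro Q hQ
        exact (FiniteMultiplicity.of_prime_left hQ.prime hPm.ne_zero).multiplicity_pow hQ.prime
      obtain ⟨c, n1, n2, y, hc, hy, he⟩ := ih f2 (by omega) hf20 (by
        intro Q hQm hQi hQ1 hQ2
        have h3 := H Q hQm hQi hQ1 hQ2
        rw [hf2, mult_mul hQi hPm0 hf20, hmp Q hQi] at h3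
        exact (Nat.dvd_add_right (Dvd.intro _ rfl)).1 h3)
      refine ⟨c, n1, n2, P * y, hc, mul_ne_zero hPm.ne_zero hy, ?_⟩
      rw [hf2, he, mul_pow]
      ring

end Poly

section Fac

variable {E L : Type} [Field E] [Field L] [Algebra E L] {t : L} [Algebra ℂ E] [Algebra ℂ L]
  [IsScalarTower ℂ E L]

/-- `v` is the place of the polynomial `P`. -/
def PlOf (E : Type) {L : Type} [Field E] [Field L] [Algebra E L] [Algebra ℂ L] (t : L) (P : E[X])
    (v : DVal L) : Prop := ∀ a : E[X], a ≠ 0 → v.v (aeval t a) = multiplicity P a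

theorem rul_factor (h : Rul E t) {s : E} (hs : Transcendental ℂ s) {m : ℕ} (hm : 0 < m)
    (P1 P2 : E[X]) {g : L} (hg : g ≠ 0)
    (H : ∀ P : E[X], P.Monic → Irreducible P → P ≠ P1 → P ≠ P2 → ∀ v : DVal L, PlOf E t P v →
      (m : ℤ) ∣ v.v g) :
    ∃ (c : E) (n1 n2 : ℕ) (y : L), c ≠ 0 ∧ y ≠ 0 ∧
      g = algebraMap E L c * aeval t P1 ^ n1 * aeval t P2 ^ n2 * y ^ m := by
  obtain ⟨a, b, hb, hab⟩ := h.gen g
  have ha : a ≠ 0 := by
    rintro rfl
    exact hg (by rw [hab, map_zero, zero_div])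
  have hbm : b ^ (m - 1) ≠ 0 := pow_ne_zero _ hb
  obtain ⟨c, n1, n2, y, hc, hy, he⟩ := poly_mod m P1 P2 _ (a * b ^ (m - 1)) le_rfl
    (mul_ne_zero ha hbm) (by
      intro P hPm hPi hP1 hP2
      obtain ⟨v, hv⟩ := h.exists_dval hPi hs
      have h3 := H P hPm hPi hP1 hP2 v hv
      rw [hab, h.val_div hv ha hb] at h3
      rw [mult_mul hPi ha hbm,
        (FiniteMultiplicity.of_prime_left hPi.prime hb).multiplicity_pow hPi.prime]
      have h4 : ((multiplicity P a + (m - 1) * multiplicity P b : ℕ) : ℤ)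
          = ((multiplicity P a : ℤ) - multiplicity P b) + m * multiplicity P b := by
        have : ((m - 1 : ℕ) : ℤ) = m - 1 := by omega
        push_cast
        rw [this]
        ring
      have h5 : (m : ℤ) ∣ ((multiplicity P a + (m - 1) * multiplicity P b : ℕ) : ℤ) := by
        rw [h4]
        exact dvd_add h3 (Dvd.intro _ rfl)
      exact_mod_cast h5)
  have hbt := h.ne hb
  refine ⟨c, n1, n2, aeval t y / aeval t b, hc, div_ne_zero (h.ne hy) hbt, ?_⟩
  have h3 := congrArg (aeval t) he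
  simp only [map_mul, map_pow, aeval_C] at h3
  have h4 : aeval t b ^ m = aeval t b ^ (m - 1) * aeval t b := by
    rw [← pow_succ]
    congr 1
    omega
  rw [hab, div_pow, h4]
  rw [div_eq_iff hbt]
  have h5 : aeval t a * aeval t b ^ (m - 1) = algebraMap E L c * aeval t P1 ^ n1
      * aeval t P2 ^ n2 * aeval t y ^ m := h3
  have h6 : aeval t b ^ (m - 1) ≠ 0 := pow_ne_zero _ hbt
  field_simp
  rw [← h5]

end Fac

section Kum

variable {L : Type} [Field L] [Algebra ℂ L] {L' : Type} [Field L'] [Algebra ℂ L']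
  [Algebra L L'] [IsScalarTower ℂ L L'] {m : ℕ} {g : L}

theorem kum_mem (κ : Kum L L' m g) (K : Subfield L') (h1 : ∀ a : L, algebraMap L L' a ∈ K)
    (h2 : κ.η ∈ K) (b : L') : b ∈ K := by
  obtain ⟨a, rfl⟩ := κ.exists_el b
  rw [Kum.el]
  exact sum_mem fun j _ => mul_mem (h1 _) (pow_mem h2 _)

omit [Algebra ℂ L'] [IsScalarTower ℂ L L'] in
theorem rul_mem {E : IntermediateField ℂ L} {z : L} (h : Rul E z) (K : Subfield L')
    (hE : ∀ e : E, algebraMap L L' e ∈ K) (hz : algebraMap L L' z ∈ K) (a : L) :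
    algebraMap L L' a ∈ K := by
  obtain ⟨p, q, -, rfl⟩ := h.gen a
  have key : ∀ p : E[X], algebraMap L L' (aeval z p) ∈ K := by
    intro p
    rw [aeval_eq_sum_range, map_sum]
    refine sum_mem fun i _ => ?_
    rw [Algebra.smul_def, map_mul, map_pow]
    exact mul_mem (hE _) (pow_mem hz _)
  rw [map_div₀]
  exact div_mem (key p) (key q)

/-- the image of `E` in the extension -/
def img (E : IntermediateField ℂ L) (L' : Type) [Field L'] [Algebra ℂ L'] [Algebra L L']
    [IsScalarTower ℂ L L'] : IntermediateField ℂ L' := E.map (IsScalarTower.toAlgHom ℂ L L')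

theorem img_mem {E : IntermediateField ℂ L} (e : E) : algebraMap L L' e ∈ img E L' :=
  ⟨e, e.2, rfl⟩

theorem img_trdeg {E : IntermediateField ℂ L} (hE : Algebra.trdeg ℂ E = 1) :
    Algebra.trdeg ℂ (img E L') = 1 := by
  rw [← hE]
  exact (AlgEquiv.trdeg_eq (E.equivMap (IsScalarTower.toAlgHom ℂ L L'))).symm

theorem ruling_hor {E : IntermediateField ℂ L} {z w : L} (hR : Rul E z)
    (hE : Algebra.trdeg ℂ E = 1) (κ : Kum L L' m g) (hm : m.Prime) {e : E} (he : e ≠ 0)
    {n : ℤ} (hn : ¬ (m : ℤ) ∣ n) {y : L} (hy : y ≠ 0) (hw : w ≠ 0)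
    (hz : ∀ K : Subfield L', (∀ e : E, algebraMap L L' e ∈ K) → algebraMap L L' w ∈ K →
      algebraMap L L' z ∈ K) (hg : g = algebraMap E L e * w ^ n * y ^ m) :
    ∃ (E' : IntermediateField ℂ L') (t' : L'), IsRuling E' t' := by
  have hcop : IsCoprime n (m : ℤ) := by
    rw [isCoprime_comm]
    exact (Nat.prime_iff_prime_int.1 hm).irreducible.coprime_iff_not_dvd.2 hn
  obtain ⟨a, b, hab⟩ := hcop
  set y' := algebraMap L L' y with hy'
  set w' := algebraMap L L' w with hw'
  set e' := algebraMap L L' (algebraMap E L e) with he'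
  have hy0 : y' ≠ 0 := by rw [hy']; simpa using hy
  have hw0 : w' ≠ 0 := by rw [hw']; simpa using hw
  have he0 : e' ≠ 0 := by
    rw [he']
    simpa using he
  set η1 := κ.η / y' with hη1
  have hpow : η1 ^ m = e' * w' ^ n := by
    rw [hη1, div_pow, κ.pow, div_eq_iff (pow_ne_zero _ hy0), hg, map_mul, map_mul, map_zpow₀,
      map_pow]
  have hη0 : η1 ≠ 0 := by
    intro h0
    rw [h0, zero_pow hm.ne_zero] at hpow
    exact mul_ne_zero he0 (zpow_ne_zero _ hw0) hpow.symm
  set θ := η1 ^ a * w' ^ b with hθ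
  have hpowz : η1 ^ (m : ℤ) = e' * w' ^ n := by rw [zpow_natCast]; exact hpow
  have hθ1 : θ ^ (m : ℤ) = e' ^ a * w' := by
    rw [hθ, mul_zpow, ← zpow_mul, ← zpow_mul, mul_comm a, zpow_mul, hpowz, mul_zpow, ← zpow_mul,
      mul_assoc, ← zpow_add₀ hw0]
    have : n * a + b * m = 1 := by linarith
    rw [this, zpow_one]
  have hθ2 : η1 = θ ^ n * e' ^ b := by
    have h1 : θ ^ n = η1 ^ (a * n) * w' ^ (b * n) := by
      rw [hθ, mul_zpow, ← zpow_mul, ← zpow_mul]
    have h2 : a * n = 1 - (m : ℤ) * b := by linarith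
    rw [h1, h2, zpow_sub₀ hη0, zpow_one, zpow_mul, hpowz, mul_zpow, ← zpow_mul]
    have h3 : w' ^ (n * b) ≠ 0 := zpow_ne_zero _ hw0
    have h4 : e' ^ b ≠ 0 := zpow_ne_zero _ he0
    rw [mul_comm b n]
    field_simp
  refine ⟨img E L', θ, img_trdeg hE, ?_⟩
  set K := (IntermediateField.adjoin (img E L') {θ}).toSubfield with hK
  have hθK : θ ∈ K := IntermediateField.subset_adjoin _ _ rfl
  have hEK : ∀ e : E, algebraMap L L' e ∈ K := fun e =>
    (IntermediateField.adjoin (img E L') {θ}).algebraMap_mem ⟨_, img_mem e⟩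
  have hwK : w' ∈ K := by
    have h1 : w' = θ ^ (m : ℤ) * (e' ^ a)⁻¹ := by
      rw [hθ1]
      have : e' ^ a ≠ 0 := zpow_ne_zero _ he0
      field_simp
    rw [h1]
    exact mul_mem (zpow_mem hθK _) (inv_mem (zpow_mem (hEK e) _))
  have hη1K : η1 ∈ K := by
    rw [hθ2]
    exact mul_mem (zpow_mem hθK _) (zpow_mem (hEK e) _)
  have hall : ∀ a : L, algebraMap L L' a ∈ K := rul_mem hR K hEK (hz K hEK hwK)
  have hηK : κ.η ∈ K := by
    have h1 : κ.η = η1 * y' := by rw [hη1]; field_simp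
    rw [h1]
    exact mul_mem hη1K (hall y)
  rw [eq_top_iff]
  intro b _
  exact kum_mem κ K hall hηK b

theorem ruling_vert {E : IntermediateField ℂ L} {z : L} (hR : Rul E z)
    (hE : Algebra.trdeg ℂ E = 1) (κ : Kum L L' m g) (hm : 0 < m) {e : E} {y : L} (hy : y ≠ 0)
    (hg : g = algebraMap E L e * y ^ m) :
    ∃ (E' : IntermediateField ℂ L') (t' : L'), IsRuling E' t' := by
  set y' := algebraMap L L' y with hy'
  have hy0 : y' ≠ 0 := by rw [hy']; simpa using hy
  set η1 := κ.η / y' with hη1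
  have hpow : η1 ^ m = algebraMap L L' (algebraMap E L e) := by
    rw [hη1, div_pow, κ.pow, div_eq_iff (pow_ne_zero _ hy0), hg, map_mul, map_pow]
  set F := IntermediateField.adjoin (img E L') {η1} with hF
  have hint : IsIntegral (img E L') η1 := by
    refine ⟨X ^ m - C ⟨_, img_mem e⟩, monic_X_pow_sub_C _ hm.ne', ?_⟩
    rw [eval₂_sub, eval₂_X_pow, eval₂_C, hpow]
    exact sub_self _
  have halg : Algebra.IsAlgebraic (img E L') F := by
    have := IntermediateField.isAlgebraic_adjoin_simple hint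
    exact this
  have htr : Algebra.trdeg ℂ F = 1 := by
    have h1 := _root_.trdeg_add_eq ℂ (img E L') (A := F)
    rw [← h1, img_trdeg hE, _root_.trdeg_eq_zero, add_zero]
  refine ⟨F.restrictScalars ℂ, algebraMap L L' z, htr, ?_⟩
  set K := (IntermediateField.adjoin (F.restrictScalars ℂ) {algebraMap L L' z}).toSubfield with hK
  have hFK : ∀ x ∈ F, x ∈ K := fun x hx =>
    (IntermediateField.adjoin (F.restrictScalars ℂ) {algebraMap L L' z}).algebraMap_mem ⟨x, hx⟩
  have hEK : ∀ e : E, algebraMap L L' e ∈ K := fun e =>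
    hFK _ (F.algebraMap_mem ⟨_, img_mem e⟩)
  have hzK : algebraMap L L' z ∈ K := IntermediateField.subset_adjoin _ _ rfl
  have hη1K : η1 ∈ K := hFK _ (IntermediateField.subset_adjoin _ _ rfl)
  have hall : ∀ a : L, algebraMap L L' a ∈ K := rul_mem hR K hEK hzK
  have hηK : κ.η ∈ K := by
    have h1 : κ.η = η1 * y' := by rw [hη1]; field_simp
    rw [h1]
    exact mul_mem hη1K (hall y)
  rw [eq_top_iff]
  intro b _
  exact kum_mem κ K hall hηK b

end Kum

end

end LCY.H89
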