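import Pool.Agent.Helper89.LCY.CovJ

/-!
Block COV of MP_f7e214_ag, part K: Kummer extensions with at most two exceptional horizontal
places.
-/

open Polynomial

namespace LCY.H89

noncomputable section

variable {L : Type} [Field L] [Algebra ℂ L] {L' : Type} [Field L'] [Algebra ℂ L']
  [Algebra L L'] [IsScalarTower ℂ L L'] {m : ℕ} {g : L}

/-- the place at infinity -/
theorem exists_inf {E : IntermediateField ℂ L} {z : L} (hR : Rul E z) {s : E}
    (hs : Transcendental ℂ s) : ∃ v : DVal L, Horiz E v ∧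
      ∀ a : E[X], a ≠ 0 → v.v (aeval z a) = - a.natDegree := by
  obtain ⟨v, hv⟩ := hR.inv.exists_dval irreducible_X hs
  refine ⟨v, fun x hx hx0 => ?_, fun a ha => hR.val_inf hv ha⟩
  exact hR.inv.horiz irreducible_X hv (e := ⟨x, hx⟩) (by
    intro h0
    exact hx0 (congrArg Subtype.val h0))

theorem PlOf.horiz {E : IntermediateField ℂ L} {z : L} (hR : Rul E z) {P : E[X]}
    (hP : Irreducible P) {v : DVal L} (hv : PlOf E z P v) : Horiz E v := by
  intro x hx hx0
  exact hR.horiz hP hv (e := ⟨x, hx⟩) (by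
    intro h0
    exact hx0 (congrArg Subtype.val h0))

theorem PlOf.not_same {E : IntermediateField ℂ L} {z : L} {P Q : E[X]} (hP : P.Monic)
    (hPi : Irreducible P) (hQ : Q.Monic) (hQi : Irreducible Q) {v w : DVal L}
    (hv : PlOf E z P v) (hw : PlOf E z Q w) (hPQ : P ≠ Q) (hz : aeval z P ≠ 0) : ¬ v.Same w := by
  intro hs
  have h1 := hs _ hz
  rw [hv P hP.ne_zero, hw P hP.ne_zero, multiplicity_self,
    mult_of_ne hQ hP hQi hPi (Ne.symm hPQ)] at h1
  norm_num at h1

/-- the places of `L = E(z)` over `E` -/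
def HPl (E : IntermediateField ℂ L) (z : L) (v : DVal L) : Prop :=
  (∃ P : E[X], P.Monic ∧ Irreducible P ∧ PlOf E z P v) ∨
    ∀ a : E[X], a ≠ 0 → v.v (aeval z a) = - a.natDegree

/-- **Kummer extensions.** If at most two horizontal places are exceptional, and the exceptional
ones have degree one, then the extension is ruled. -/
theorem rul_kum {E : IntermediateField ℂ L} {z : L} (hR : Rul E z)
    (hE : Algebra.trdeg ℂ E = 1) {s : E} (hs : Transcendental ℂ s) (κ : Kum L L' m g)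
    (hm : m.Prime) (hg : g ≠ 0)
    (Hdeg : ∀ P : E[X], P.Monic → Irreducible P → ∀ v : DVal L, PlOf E z P v →
      ¬ (m : ℤ) ∣ v.v g → P.natDegree = 1)
    (Hthree : ∀ v1 v2 v3 : DVal L, HPl E z v1 → HPl E z v2 → HPl E z v3 → ¬ v1.Same v2 →
      ¬ v1.Same v3 → ¬ v2.Same v3 → (m : ℤ) ∣ v1.v g ∨ (m : ℤ) ∣ v2.v g ∨ (m : ℤ) ∣ v3.v g) :
    ∃ (E' : IntermediateField ℂ L') (t' : L'), IsRuling E' t' := by
  classical
  have hform : ∀ P : E[X], P.Monic → P.natDegree = 1 →
      ∃ a : E, P = X - C a ∧ aeval z P = z - algebraMap E L a := by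
    intro P hP hd
    refine ⟨-P.coeff 0, ?_, ?_⟩
    · rw [C_neg, sub_neg_eq_add]
      exact hP.eq_X_add_C hd
    · have h1 := hP.eq_X_add_C hd
      conv_lhs => rw [h1]
      rw [map_add, aeval_X, aeval_C, map_neg, sub_neg_eq_add]
  by_cases hex : ∃ P1 : E[X], P1.Monic ∧ Irreducible P1 ∧ ∃ v : DVal L, PlOf E z P1 v ∧
      ¬ (m : ℤ) ∣ v.v g
  swap
  · push Not at hex
    obtain ⟨c, n1, n2, y, hc, hy, he⟩ := rul_factor hR hs hm.pos (1 : E[X]) 1 hg
      (fun P hP hPi _ _ v hv => hex P hP hPi v hv)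
    refine ruling_vert hR hE κ hm.pos (e := c) hy ?_
    rw [he, map_one, one_pow, one_pow, mul_one, mul_one]
  obtain ⟨P1, hP1, hP1i, v1, hv1, hn1⟩ := hex
  obtain ⟨a1, ha1, ha1'⟩ := hform P1 hP1 (Hdeg P1 hP1 hP1i v1 hv1 hn1)
  have hz1 : aeval z P1 ≠ 0 := hR.ne hP1.ne_zero
  have hw1 : z - algebraMap E L a1 ≠ 0 := by rw [← ha1']; exact hz1
  have hvc : ∀ {v : DVal L}, Horiz E v → ∀ {c : E}, c ≠ 0 → v.v (algebraMap E L c) = 0 := by
    intro v hv c hc
    exact hv _ c.2 (by simpa using hc)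
  by_cases hex2 : ∃ P2 : E[X], P2.Monic ∧ Irreducible P2 ∧ P2 ≠ P1 ∧ ∃ v : DVal L,
      PlOf E z P2 v ∧ ¬ (m : ℤ) ∣ v.v g
  swap
  · push Not at hex2
    obtain ⟨c, n1, n2, y, hc, hy, he⟩ := rul_factor hR hs hm.pos P1 1 hg
      (fun P hP hPi h1 _ v hv => hex2 P hP hPi h1 v hv)
    rw [map_one, one_pow, mul_one, ha1'] at he
    have hval : v1.v g = n1 + m * v1.v y := by
      rw [he, v1.map_mul _ _ (mul_ne_zero (by simpa using hc) (pow_ne_zero _ hw1))
        (pow_ne_zero _ hy), v1.map_mul _ _ (by simpa using hc) (pow_ne_zero _ hw1),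
        v1.map_pow hw1, v1.map_pow hy, hvc (hv1.horiz hR hP1i) hc, ← ha1', hv1 P1 hP1.ne_zero,
        multiplicity_self]
      push_cast
      ring
    have hn : ¬ (m : ℤ) ∣ (n1 : ℤ) := by
      intro hd
      apply hn1
      rw [hval]
      exact dvd_add hd (Dvd.intro _ rfl)
    refine ruling_hor hR hE κ hm (w := z - algebraMap E L a1) hc hn hy hw1 ?_ ?_
    · intro K hK hwK
      have h1 : algebraMap L L' z = algebraMap L L' (z - algebraMap E L a1)
          + algebraMap L L' (algebraMap E L a1) := by rw [← map_add]; congr 1; ring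
      rw [h1]
      exact add_mem hwK (hK a1)
    · rw [he, zpow_natCast]
  · obtain ⟨P2, hP2, hP2i, hP21, v2, hv2, hn2⟩ := hex2
    obtain ⟨a2, ha2, ha2'⟩ := hform P2 hP2 (Hdeg P2 hP2 hP2i v2 hv2 hn2)
    have hz2 : aeval z P2 ≠ 0 := hR.ne hP2.ne_zero
    have hw2 : z - algebraMap E L a2 ≠ 0 := by rw [← ha2']; exact hz2
    have h12 : ¬ v1.Same v2 := PlOf.not_same hP1 hP1i hP2 hP2i hv1 hv2 (Ne.symm hP21) hz1
    have hoth : ∀ v3 : DVal L, HPl E z v3 → ¬ v1.Same v3 → ¬ v2.Same v3 →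
        (m : ℤ) ∣ v3.v g := by
      intro v3 h3 h13 h23
      rcases Hthree v1 v2 v3 (Or.inl ⟨P1, hP1, hP1i, hv1⟩) (Or.inl ⟨P2, hP2, hP2i, hv2⟩) h3
        h12 h13 h23 with
        h | h | h
      · exact absurd h hn1
      · exact absurd h hn2
      · exact h
    obtain ⟨c, n1, n2, y, hc, hy, he⟩ := rul_factor hR hs hm.pos P1 P2 hg
      (fun P hP hPi h1 h2 v hv => hoth v (Or.inl ⟨P, hP, hPi, hv⟩)
        (PlOf.not_same hP1 hP1i hP hPi hv1 hv (Ne.symm h1) hz1)
        (PlOf.not_same hP2 hP2i hP hPi hv2 hv (Ne.symm h2) hz2))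
    rw [ha1', ha2'] at he
    have hc' : algebraMap E L c ≠ 0 := by simpa using hc
    have hvalg : ∀ v : DVal L, Horiz E v → v.v g = n1 * v.v (z - algebraMap E L a1)
        + n2 * v.v (z - algebraMap E L a2) + m * v.v y := by
      intro v hv
      rw [he, v.map_mul _ _ (mul_ne_zero (mul_ne_zero hc' (pow_ne_zero _ hw1))
        (pow_ne_zero _ hw2)) (pow_ne_zero _ hy), v.map_mul _ _ (mul_ne_zero hc'
        (pow_ne_zero _ hw1)) (pow_ne_zero _ hw2), v.map_mul _ _ hc' (pow_ne_zero _ hw1),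
        v.map_pow hw1, v.map_pow hw2, v.map_pow hy, hvc hv hc]
      ring
    have hn : ¬ (m : ℤ) ∣ (n1 : ℤ) := by
      intro hd
      apply hn1
      rw [hvalg v1 (hv1.horiz hR hP1i), ← ha1', ← ha2', hv1 P1 hP1.ne_zero, hv1 P2 hP2.ne_zero,
        multiplicity_self, mult_of_ne hP1 hP2 hP1i hP2i (Ne.symm hP21)]
      push_cast
      rw [mul_one, mul_zero, add_zero]
      exact dvd_add hd (Dvd.intro _ rfl)
    obtain ⟨vi, hvi, hvi'⟩ := exists_inf hR hs
    have hi1 : vi.v (z - algebraMap E L a1) = -1 := by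
      rw [← ha1', hvi' P1 hP1.ne_zero, Hdeg P1 hP1 hP1i v1 hv1 hn1]; norm_num
    have hi2 : vi.v (z - algebraMap E L a2) = -1 := by
      rw [← ha2', hvi' P2 hP2.ne_zero, Hdeg P2 hP2 hP2i v2 hv2 hn2]; norm_num
    have hdi := hoth vi (Or.inr hvi') (by
      intro hs'
      have h1 := hs' _ hz1
      rw [hv1 P1 hP1.ne_zero, multiplicity_self, ha1', hi1] at h1
      norm_num at h1) (by
      intro hs'
      have h1 := hs' _ hz2
      rw [hv2 P2 hP2.ne_zero, multiplicity_self, ha2', hi2] at h1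
      norm_num at h1)
    rw [hvalg vi hvi, hi1, hi2] at hdi
    have hsum : (m : ℤ) ∣ (n1 : ℤ) + n2 := by
      have h1 : (m : ℤ) ∣ (n1 : ℤ) * -1 + n2 * -1 := (Int.dvd_add_left (Dvd.intro _ rfl)).1 hdi
      have h2 : (n1 : ℤ) * -1 + n2 * -1 = -((n1 : ℤ) + n2) := by ring
      rwa [h2, dvd_neg] at h1
    obtain ⟨q, hq⟩ := hsum
    refine ruling_hor hR hE κ hm (w := (z - algebraMap E L a1) / (z - algebraMap E L a2))
      (y := (z - algebraMap E L a2) ^ q * y) hc hn (mul_ne_zero (zpow_ne_zero _ hw2) hy)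
      (div_ne_zero hw1 hw2) ?_ ?_
    · intro K hK hwK
      rw [map_div₀, map_sub, map_sub] at hwK
      set z' := algebraMap L L' z with hz'
      set b1 := algebraMap L L' (algebraMap E L a1) with hb1
      set b2 := algebraMap L L' (algebraMap E L a2) with hb2
      have hb12 : b1 ≠ b2 := by
        intro h0
        apply hP21
        rw [ha1, ha2]
        have h1 : algebraMap E L a1 = algebraMap E L a2 := (algebraMap L L').injective h0
        have h2 : a1 = a2 := (algebraMap E L).injective h1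
        rw [h2]
      have hzb2 : z' - b2 ≠ 0 := by
        rw [hz', hb2, ← map_sub]
        intro h0
        exact hw2 ((map_eq_zero (algebraMap L L')).1 h0)
      set u := (z' - b1) / (z' - b2) with hu
      have hu1 : (1 : L') - u ≠ 0 := by
        intro h0
        have h1 : u = 1 := by rw [sub_eq_zero] at h0; exact h0.symm
        rw [hu, div_eq_one_iff_eq hzb2] at h1
        apply hb12
        have h2 : b1 = z' - (z' - b1) := by ring
        rw [h2, h1]; ring
      have h3 : z' = b2 + (b1 - b2) / (1 - u) := by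
        have h4 : (1 - u) * (z' - b2) = b1 - b2 := by
          rw [hu]; field_simp; ring
        rw [← h4]
        field_simp
        ring
      rw [h3]
      exact add_mem (hK a2) (div_mem (sub_mem (hK a1) (hK a2)) (sub_mem (one_mem _) hwK))
    · have h1 : (z - algebraMap E L a2) ^ n2 = (z - algebraMap E L a2) ^ ((m : ℤ) * q - n1) := by
        rw [← zpow_natCast]
        congr 1
        linarith
      rw [he, h1, div_zpow, mul_pow, zpow_sub₀ hw2, ← zpow_natCast ((z - algebraMap E L a2) ^ q),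
        ← zpow_mul, mul_comm q, zpow_natCast, zpow_natCast]
      field_simp

end

end LCY.H89
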