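import Pool.Agent.Helper89.LCY.CovI
import Pool.Agent.Helper97.LCY.SBase
import Pool.Agent.Helper11.LCY.Asm3

/-!
Block COV of MP_f7e214_ag, part M: contracted curves have square `-2`; configurations of curves.
-/

open Polynomial Pool.Agent.Helper82.LCY

namespace LCY.H89

noncomputable section

variable {L : Type} [Field L] [Algebra ℂ L] {k : ℕ}

theorem ff_eq (k j : ℕ) : ff k j = fcl k j := by
  unfold ff fcl
  refine Prod.ext ?_ rfl
  dsimp only
  split_ifs <;> first | rfl | omega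

theorem type_of (hTY : ST_TY) (T : PStr L k) {v : DVal L} (hv : T.Cur v) :
    TypeA (T.cl v) ∨ ∃ p, TypeB p (T.cl v) := by
  rcases hTY L k T v hv with h | ⟨h0, p, -, h1, h2, h3⟩
  · exact Or.inl h
  · exact Or.inr ⟨p, h0, h1, h2, h3⟩

theorem clD_sum {T : PStr L k} {D : DVal L → ℤ} (hD : T.IsDiv D) :
    T.clD D = ∑ v ∈ hD.toFinset, D v • T.cl v := by
  unfold PStr.clD
  apply finsum_mem_eq_sum_of_inter_support_eq
  ext v
  simp only [Set.mem_inter_iff, Function.mem_support, Set.Finite.coe_toFinset, Set.mem_ofPred_eq]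
  constructor
  · rintro ⟨h1, h2⟩
    refine ⟨⟨h1, fun h0 => h2 (by rw [h0, zero_smul])⟩, h2⟩
  · rintro ⟨h1, h2⟩
    exact ⟨h1.1, h2⟩

theorem ip_clD {T : PStr L k} {D : DVal L → ℤ} (hD : T.IsDiv D) (x : Cl ℤ (Fin k)) :
    ip (T.clD D) x = ∑ v ∈ hD.toFinset, D v * ip (T.cl v) x := by
  rw [clD_sum hD, ip_sum_left]
  exact Finset.sum_congr rfl fun v _ => ip_smul_left _ _ _

theorem clD_fst' {T : PStr L k} {D : DVal L → ℤ} (hD : T.IsDiv D) :
    (T.clD D).1 = ∑ v ∈ hD.toFinset, D v * (T.cl v).1 := by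
  rw [clD_sum hD, Prod.fst_sum]
  rfl

/-- A plane curve with `m_0 = d` orthogonal to `K` is a line. -/
theorem deg_one (hTY : ST_TY) (hC3 : ST_C3) (hC5 : ST_C5) (T : PStr L k) {v : DVal L}
    (hv : T.Cur v) (hA : TypeA (T.cl v)) (hK : ip KK (T.cl v) = 0) (i0 : Fin k)
    (h0 : (T.cl v).2 i0 = (T.cl v).1) : (T.cl v).1 = 1 := by
  classical
  set C := T.cl v with hC
  by_contra hne
  have hd := hA.1
  have hd2 : 2 ≤ C.1 := by omega
  rw [ip_KK] at hK
  obtain ⟨i1, hi1, hm1⟩ : ∃ i1, i1 ≠ i0 ∧ 1 ≤ C.2 i1 := by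
    by_contra hno
    push Not at hno
    have h1 : ∑ i, C.2 i ≤ C.2 i0 := by
      rw [← Finset.add_sum_erase _ _ (Finset.mem_univ i0)]
      have : ∑ i ∈ Finset.univ.erase i0, C.2 i ≤ 0 :=
        Finset.sum_nonpos fun i hi => by
          have := hno i (Finset.ne_of_mem_erase hi)
          omega
      linarith
    rw [h0] at h1
    omega
  set G : Cl ℤ (Fin k) := (1, fun i => (if i = i0 then 1 else 0) + (if i = i1 then 1 else 0))
    with hG
  have hchi : 0 < chi2 G := by
    unfold chi2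
    have h1 : ∀ i, G.2 i * (G.2 i + 1) = (if i = i0 then 2 else 0) + (if i = i1 then 2 else 0) := by
      intro i
      simp only [hG]
      by_cases h2 : i = i0
      · subst h2
        rw [if_pos rfl, if_neg (Ne.symm hi1), if_pos rfl, if_neg (Ne.symm hi1)]; norm_num
      · by_cases h3 : i = i1
        · subst h3
          rw [if_neg h2, if_pos rfl, if_neg h2, if_pos rfl]; norm_num
        · rw [if_neg h2, if_neg h3, if_neg h2, if_neg h3]; norm_num
    rw [Finset.sum_congr rfl fun i _ => h1 i, Finset.sum_add_distrib]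
    simp [hG]
  obtain ⟨n, hn, hn0, hnG⟩ := hC5 L k T G (by simp [hG]) hchi
  have hipG : ip G C < 0 := by
    have h1 : ip G C = C.1 - C.2 i0 - C.2 i1 := by
      simp only [ip, hG, one_mul, add_mul, ite_mul, zero_mul, Finset.sum_add_distrib,
        Finset.sum_ite_eq', Finset.mem_univ, if_true]
      ring
    rw [h1]
    omega
  rw [← hnG, ip_clD hn] at hipG
  have hex : ∃ w ∈ hn.toFinset, w.Same v := by
    by_contra hno
    push Not at hno
    refine absurd hipG (not_lt.2 (Finset.sum_nonneg fun w hw => ?_))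
    have hw' := (Set.Finite.mem_toFinset hn).1 hw
    exact mul_nonneg (hn0 w hw'.1) (hC3 L k T w v hw'.1.2 hv (hno w hw))
  obtain ⟨w, hw, hs⟩ := hex
  have hw' := (Set.Finite.mem_toFinset hn).1 hw
  have hcl : T.cl w = C := H97.cl_congr hs T
  have hnw : 1 ≤ n w := by
    have := hn0 w hw'.1
    have := hw'.2
    omega
  have hG1 : G.1 = 1 := rfl
  rw [← hnG, clD_fst' hn] at hG1
  have h3 : n w * (T.cl w).1 ≤ ∑ v ∈ hn.toFinset, n v * (T.cl v).1 := by
    refine Finset.single_le_sum (f := fun v => n v * (T.cl v).1) (fun u hu => ?_) hw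
    have hu' := (Set.Finite.mem_toFinset hn).1 hu
    refine mul_nonneg (hn0 u hu'.1) ?_
    rcases hTY L k T u hu'.1.2 with h | h
    · omega
    · rw [h.1]
  rw [hG1, hcl] at h3
  nlinarith

theorem sq_of_one {C : Cl ℤ (Fin k)} (hA : TypeA C) (hK : ip KK C = 0) (h1 : C.1 = 1) :
    ip C C = -2 := by
  rw [ip_KK, h1] at hK
  have h2 : ∀ i, C.2 i * C.2 i = C.2 i := by
    intro i
    have h3 := (hA.2 i).1
    have h4 := (hA.2 i).2
    rw [h1] at h4
    rcases (by omega : C.2 i = 0 ∨ C.2 i = 1) with h | h <;> rw [h] <;> norm_num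
  simp only [ip, h1]
  rw [Finset.sum_congr rfl fun i _ => h2 i]
  linarith

/-- **SQ.** A contracted curve outside the boundary has square `-2`. -/
theorem sq_neg_two (hTY : ST_TY) (hC3 : ST_C3) (hC5 : ST_C5) (hST : ST_STEP) {N : ℕ}
    {ω : Bracket L} {x : Fin (N + 1) → L} {T : PStr L k} (hT : State ω x T) {v : DVal L}
    (hv : T.Cur v) (hK : ip KK (T.cl v) = 0) : ip (T.cl v) (T.cl v) = -2 := by
  classical
  obtain ⟨T', φ, hX, hT', hφ, hφK, hcl, j, hj, hE, -, h3⟩ :=
    hST L N ω x k T hT {v} (fun w hw => by rw [Set.mem_singleton_iff.1 hw]; exact ⟨hv, hK⟩)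
  have hv' : T'.Cur v := by unfold PStr.Cur; rw [hX]; exact hv
  have hf := hE v rfl
  rw [ff_eq] at hf
  rw [← hφ, ← hcl v hv]
  have hK' : ip KK (T'.cl v) = 0 := by rw [hcl v hv, ← hφK, hφ, hK]
  rcases type_of hTY T' hv' with hA | ⟨p, hB⟩
  swap
  · obtain ⟨q, hq⟩ := exc_of_typeB hB hK'
    rw [ip_exc hq, hq.at_p, hq.at_q]; norm_num
  apply sq_of_one hA hK'
  rcases Nat.lt_or_ge j 3 with hj3 | hj3
  · have hd := hA.1
    interval_cases j
    · exfalso
      simp [ip, fcl] at hf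
      omega
    · have hk : 0 < k := hj
      refine deg_one hTY hC3 hC5 T' hv' hA hK' ⟨0, hk⟩ ?_
      rw [fcl_one_eq hk] at hf
      linarith
    · have hk : 2 ≤ k := hj
      refine deg_one hTY hC3 hC5 T' hv' hA hK' ⟨0, by omega⟩ ?_
      rw [ip_fcl_two hk] at hf
      have h1 := (hA.2 ⟨0, by omega⟩).2
      have h2 := (hA.2 ⟨1, by omega⟩).2
      omega
  · exfalso
    obtain ⟨-, hsp, -⟩ := h3 hj3
    set c := (T'.trunc j hj).cl v with hc
    have hsub : ((T'.trunc j hj).cl '' {w | w ∈ ({v} : Set (DVal L)) ∧ (T'.trunc j hj).Cur w})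
        ⊆ {c} := by
      rintro y ⟨w, ⟨hw, -⟩, rfl⟩
      rw [Set.mem_singleton_iff.1 hw]
      rfl
    have key : ∀ y : Cl ℤ (Fin j), ip KK y = 0 → ∃ n a : ℤ, n ≠ 0 ∧ n • y = a • c := by
      intro y hy
      obtain ⟨n, hn, hmem⟩ := hsp y hy
      have h1 := Submodule.span_mono hsub hmem
      obtain ⟨a, ha⟩ := Submodule.mem_span_singleton.1 h1
      exact ⟨n, a, hn, ha.symm⟩
    have h0j : 0 < j := by omega
    have h1j : 1 < j := by omega
    have h2j : 2 < j := by omega
    set i0 : Fin j := ⟨0, h0j⟩ with hi0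
    set i1 : Fin j := ⟨1, h1j⟩ with hi1
    set i2 : Fin j := ⟨2, h2j⟩ with hi2
    have h01 : i0 ≠ i1 := by
      intro heq; have := congrArg Fin.val heq; simp [hi0, hi1] at this
    have h02 : i0 ≠ i2 := by
      intro heq; have := congrArg Fin.val heq; simp [hi0, hi2] at this
    have h12 : i1 ≠ i2 := by
      intro heq; have := congrArg Fin.val heq; simp [hi1, hi2] at this
    obtain ⟨n1, a1, hn1, he1⟩ := key (0, fun i => (if i = i1 then 1 else 0) -
      (if i = i0 then 1 else 0)) (by simp [ip_KK])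
    obtain ⟨n2, a2, hn2, he2⟩ := key (0, fun i => (if i = i2 then 1 else 0) -
      (if i = i1 then 1 else 0)) (by simp [ip_KK])
    have g1 := congrArg (fun z : Cl ℤ (Fin j) => z.2 i0) he1
    have g2 := congrArg (fun z : Cl ℤ (Fin j) => z.2 i0) he2
    have g3 := congrArg (fun z : Cl ℤ (Fin j) => z.2 i2) he2
    simp [h01, h02, h12, Ne.symm h12] at g1 g2 g3
    rcases g2 with h | h
    · rw [h, zero_mul] at g3
      exact hn2 g3
    · rw [h, mul_zero] at g1
      omega

/-- pairwise different curves of the surface orthogonal to `K` form a configuration -/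
theorem conf_of (hTY : ST_TY) (hC3 : ST_C3) (hC5 : ST_C5) (hST : ST_STEP) {N : ℕ}
    {ω : Bracket L} {x : Fin (N + 1) → L} {T : PStr L k} (hT : State ω x T) {B : Type}
    {w : B → DVal L} (hw : ∀ b, T.Cur (w b)) (hK : ∀ b, ip KK (T.cl (w b)) = 0)
    (hne : ∀ b b', b ≠ b' → ¬ (w b).Same (w b')) : Conf (fun b => T.cl (w b)) where
  hk := hT.le
  types b := type_of hTY T (hw b)
  perp := hK
  sq b := sq_neg_two hTY hC3 hC5 hST hT (hw b) (hK b)
  off b b' hb := hC3 L k T _ _ (hw b) (hw b') (hne b b' hb)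

/-- spanning of the truncated classes -/
theorem span_of_trunc {T : PStr L k} {j : ℕ} (hj : j ≤ k) (h3 : 3 ≤ j) {E : Set (DVal L)}
    {W : Set (Cl ℤ (Fin k))}
    (hW : ∀ v ∈ E, (T.trunc j hj).Cur v → Loc j (T.cl v) ∧ T.cl v ∈ W)
    (h : SpansPerp ((T.trunc j hj).cl '' {v | v ∈ E ∧ (T.trunc j hj).Cur v}))
    (x : Cl ℤ (Fin k)) (hx : ip (fcl k j) x = 0) (hl : Loc j x) :
    ∃ n : ℤ, n ≠ 0 ∧ n • x ∈ Submodule.span ℤ W := by
  classical
  set y : Cl ℤ (Fin j) := (x.1, fun i => x.2 (Fin.castLE hj i)) with hy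
  have hyK : ip KK y = 0 := by
    rw [ip_comm, ip_loc hj hl] at hx
    have h1 : ∀ i : Fin j, (fcl k j).2 (Fin.castLE hj i) = 1 := by
      intro i
      have h0 : ((Fin.castLE hj i : Fin k) : ℕ) < j := i.2
      simp only [fcl]
      rw [if_pos h0]
    have h2 : (fcl k j).1 = 3 := by
      simp only [fcl]
      rw [if_neg (by omega), if_neg (by omega), if_neg (by omega)]
    rw [h2, Finset.sum_congr rfl fun i _ => by rw [h1 i, mul_one]] at hx
    rw [ip_KK]
    simp only [hy]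
    linarith
  let ι : Cl ℤ (Fin j) →ₗ[ℤ] Cl ℤ (Fin k) :=
    { toFun := fun z => (z.1, fun i => if h : (i : ℕ) < j then z.2 ⟨i, h⟩ else 0)
      map_add' := by
        intro a b
        refine Prod.ext rfl (funext fun i => ?_)
        simp only [Prod.snd_add, Pi.add_apply]
        split_ifs <;> simp
      map_smul' := by
        intro a b
        refine Prod.ext rfl (funext fun i => ?_)
        simp only [Prod.smul_snd, Pi.smul_apply, RingHom.id_apply]
        split_ifs <;> simp }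
  have hι : ∀ z : Cl ℤ (Fin k), Loc j z → ι (z.1, fun i => z.2 (Fin.castLE hj i)) = z := by
    intro z hz
    refine Prod.ext rfl (funext fun i => ?_)
    change (if h : (i : ℕ) < j then z.2 (Fin.castLE hj ⟨i, h⟩) else 0) = z.2 i
    split_ifs with h
    · rfl
    · exact (hz i (by omega)).symm
  obtain ⟨n, hn, hmem⟩ := h y hyK
  refine ⟨n, hn, ?_⟩
  have h1 : ι (n • y) ∈ Submodule.span ℤ W := by
    have h2 := Submodule.mem_map_of_mem (f := ι) hmem
    rw [Submodule.map_span] at h2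
    refine Submodule.span_mono ?_ h2
    rintro z ⟨u, ⟨v, ⟨hvE, hvC⟩, rfl⟩, rfl⟩
    obtain ⟨hvl, hvW⟩ := hW v hvE hvC
    have h3 : ι ((T.trunc j hj).cl v) = T.cl v := hι _ hvl
    rw [h3]
    exact hvW
  rw [map_smul, hι x hl] at h1
  exact h1

end

end LCY.H89
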