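import Pool.Agent.Helper89.LCY.CovM

/-!
Block COV of MP_f7e214_ag, part N: choice of the prime, the class and the structure.
-/

open Polynomial Pool.Agent.Helper82.LCY

namespace LCY.H89

noncomputable section

variable {L : Type} [Field L] [Algebra ℂ L] {k N : ℕ}

/-- A class divisible by the prime `p` supported on pairwise different contracted curves outside
the boundary, with coefficients prime to `p`. -/
structure Sel (ω : Bracket L) (x : Fin (N + 1) → L) (T : PStr L k) (p : ℕ) {B : Type} [Fintype B]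
    (w : B → DVal L) (c : B → ℤ) (τ : Cl ℤ (Fin k)) : Prop where
  st : State ω x T
  pr : p.Prime
  cur : ∀ b, T.Cur (w b)
  wt : ∀ b, ω.Wt (w b) 0
  con : ∀ b, Contracted x (w b)
  ne : ∀ b b', b ≠ b' → ¬ (w b).Same (w b')
  co : ∀ b, ¬ (p : ℤ) ∣ c b
  eq : ∑ b, c b • T.cl (w b) = (p : ℤ) • τ

variable {ω : Bracket L} {x : Fin (N + 1) → L} {T : PStr L k} {p : ℕ} {B : Type} [Fintype B]
  {w : B → DVal L} {c : B → ℤ} {τ : Cl ℤ (Fin k)}

theorem Sel.perp (h : Sel ω x T p w c τ) (b : B) : ip KK (T.cl (w b)) = 0 :=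
  h.st.con _ (h.cur b) (h.wt b) (h.con b)

theorem Sel.conf (hTY : ST_TY) (hC3 : ST_C3) (hC5 : ST_C5) (hST : ST_STEP)
    (h : Sel ω x T p w c τ) : Conf (fun b => T.cl (w b)) :=
  conf_of hTY hC3 hC5 hST h.st h.cur h.perp h.ne

/-- the result of one application of STEP to a subset of the curves -/
theorem Sel.step (hTY : ST_TY) (hC3 : ST_C3) (hC5 : ST_C5) (hST : ST_STEP) (h17 : ST_A17)
    (h18 : ST_A18) (h : Sel ω x T p w c τ) (P : B → Prop) :
    ∃ (T' : PStr L k) (τ' : Cl ℤ (Fin k)) (j : ℕ), T'.X = T.X ∧ Sel ω x T' p w c τ' ∧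
      (∀ b b', ip (T'.cl (w b)) (T'.cl (w b')) = ip (T.cl (w b)) (T.cl (w b'))) ∧ j ≤ k ∧
      (∀ b, P b → ip (fcl k j) (T'.cl (w b)) = 0) ∧
      (3 ≤ j → ∀ y : Cl ℤ (Fin k), ip (fcl k j) y = 0 → Loc j y → ∃ n : ℤ, n ≠ 0 ∧
        n • y ∈ Submodule.span ℤ ((fun b => T'.cl (w b)) '' {b | P b ∧ Loc j (T'.cl (w b))})) := by
  obtain ⟨T', φ, hX, hT', hφ, hφK, hcl, j, hj, hE, -, h3⟩ :=
    hST L N ω x k T h.st (w '' {b | P b}) (by
      rintro v ⟨b, -, rfl⟩
      exact ⟨h.cur b, h.perp b⟩)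
  have hsel : Sel ω x T' p w c (φ τ) := by
    refine ⟨hT', h.pr, fun b => ?_, h.wt, h.con, h.ne, h.co, ?_⟩
    · have := h.cur b
      unfold PStr.Cur at this ⊢
      rw [hX]
      exact this
    · have h1 := congrArg φ h.eq
      rw [map_sum, map_zsmul] at h1
      rw [← h1]
      exact Finset.sum_congr rfl fun b _ => by rw [map_zsmul, hcl _ (h.cur b)]
  have hconf := hsel.conf hTY hC3 hC5 hST
  have hE' : ∀ b, P b → ip (fcl k j) (T'.cl (w b)) = 0 := by
    intro b hb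
    have := hE (w b) ⟨b, hb, rfl⟩
    rwa [ff_eq] at this
  refine ⟨T', φ τ, j, hX, hsel, fun b b' => ?_, hj, hE', fun hj3 y hy hyl => ?_⟩
  · rw [hcl _ (h.cur b), hcl _ (h.cur b'), hφ]
  · obtain ⟨-, hsp, -⟩ := h3 hj3
    refine span_of_trunc (T := T') hj hj3 (E := w '' {b | P b}) ?_ hsp y hy hyl
    rintro v ⟨b, hb, rfl⟩ htr
    have hloc : Loc j (T'.cl (w b)) := by
      rcases hconf.loc hj3 (hE' b hb) with h1 | ⟨p', q', he, hp'⟩
      · exact h1
      · exfalso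
        have hord : IsOrd (T'.R p') (w b) := by
          rcases hTY L k T' (w b) (hsel.cur b) with h2 | ⟨-, p2, h3, h4, -, -⟩
          · have := h2.1
            rw [he.2.1] at this
            omega
          · have hpp : p2 = p' := by
              by_contra hne
              by_cases hq : p2 = q'
              · rw [hq, he.at_q] at h4; norm_num at h4
              · rw [he.at_ne hne hq] at h4; norm_num at h4
            rw [← hpp]; exact h3
        obtain ⟨g1, -, g2, -, -⟩ := h18 L k T' p' (w b) hord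
        rw [h17] at htr
        rcases htr with h2 | ⟨i, h2⟩
        · exact g1 h2
        · have h3 := g2 (Fin.castLE hj i) h2
          rw [← h3] at hp'
          have := i.2
          simp at hp'
          omega
    exact ⟨hloc, ⟨b, ⟨hb, hloc⟩, rfl⟩⟩

/-- the result of STEP applied to all curves -/
theorem Sel.all (hTY : ST_TY) (hC3 : ST_C3) (hC5 : ST_C5) (hST : ST_STEP) (h17 : ST_A17)
    (h18 : ST_A18) (h : Sel ω x T p w c τ) (b0 : B) :
    ∃ (T' : PStr L k) (τ' : Cl ℤ (Fin k)), T'.X = T.X ∧ Sel ω x T' p w c τ' ∧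
      ((1 ≤ k ∧ ∀ b, ip (fcl k 1) (T'.cl (w b)) = 0) ∨
        ∃ j, 3 ≤ j ∧ j ≤ k ∧ (∀ b, Loc j (T'.cl (w b))) ∧
          (∀ b, ip (fcl k j) (T'.cl (w b)) = 0) ∧ SpansLoc (fun b => T'.cl (w b)) j) := by
  classical
  obtain ⟨T', τ', j, hX, hsel, -, hj, hf, hsp⟩ := h.step hTY hC3 hC5 hST h17 h18 fun _ => True
  have hconf := hsel.conf hTY hC3 hC5 hST
  have hf' : ∀ b, ip (fcl k j) (T'.cl (w b)) = 0 := fun b => hf b trivial
  refine ⟨T', τ', hX, hsel, ?_⟩
  rcases Nat.lt_or_ge j 3 with hj3 | hj3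
  · interval_cases j
    · exact absurd (hconf.ne_zero hsel.co hsel.eq b0 hf') id
    · exact Or.inl ⟨hj, hf'⟩
    · exact absurd (hconf.ne_two hj hsel.co hsel.eq b0 hf') id
  · right
    refine ⟨j, hj3, hj, hconf.all_loc hsel.co hsel.eq hj3 hf', hf', fun y hy hyl => ?_⟩
    obtain ⟨n, hn, hmem⟩ := hsp hj3 y hy hyl
    exact ⟨n, hn, Submodule.span_mono (Set.image_subset_range _ _) hmem⟩

theorem Sel.sub [DecidableEq B] (h : Sel ω x T p w c τ) (P : B → Prop) [Fintype {b // P b}]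
    {c' : {b // P b} → ℤ} {τ' : Cl ℤ (Fin k)} (hc : ∀ b, ¬ (p : ℤ) ∣ c' b)
    (he : ∑ b : {b // P b}, c' b • T.cl (w b.1) = (p : ℤ) • τ') :
    Sel ω x T p (fun b : {b // P b} => w b.1) c' τ' :=
  ⟨h.st, h.pr, fun b => h.cur b.1, fun b => h.wt b.1, fun b => h.con b.1,
    fun b b' hb => h.ne b.1 b'.1 fun h' => hb (Subtype.ext h'), hc, he⟩

/-- **Choice of the structure.** -/
theorem Sel.good (hTY : ST_TY) (hC3 : ST_C3) (hC5 : ST_C5) (hST : ST_STEP) (h17 : ST_A17)
    (h18 : ST_A18) (h : Sel ω x T p w c τ) (b0 : B) :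
    ∃ (T' : PStr L k) (B' : Type) (_ : Fintype B') (w' : B' → DVal L) (c' : B' → ℤ)
      (τ' : Cl ℤ (Fin k)), T'.X = T.X ∧ Nonempty B' ∧ Sel ω x T' p w' c' τ' ∧
      Good (fun b => T'.cl (w' b)) ∧ 1 ≤ k := by
  classical
  have hp := h.pr
  rcases (by
    have := hp.two_le
    have h4 : p ≠ 4 := by rintro rfl; norm_num at hp
    omega : p = 2 ∨ p = 3 ∨ 5 ≤ p) with h2 | h3 | h5
  · subst h2
    obtain ⟨T', τ', hX, hsel, hcase⟩ := h.all hTY hC3 hC5 hST h17 h18 b0
    rcases hcase with ⟨hk, hz⟩ | ⟨j, hj3, hjk, hl, hf, hsp⟩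
    · exact ⟨T', B, inferInstance, w, c, τ', hX, ⟨b0⟩, hsel, Or.inl hz, hk⟩
    · have hconf := hsel.conf hTY hC3 hC5 hST
      obtain ⟨P, c', τ2, hF, hcard, hc', he⟩ := hconf.two_sub hj3 hjk hsp hl hf
        (c := c) (τ := τ') (by exact_mod_cast hsel.co) (by exact_mod_cast hsel.eq)
      have hsel2 : Sel ω x T' 2 (fun b : {b // P b} => w b.1) c' τ2 :=
        hsel.sub P (by exact_mod_cast hc') (by exact_mod_cast he)
      have hne : Nonempty {b // P b} := Fintype.card_pos_iff.1 (by omega)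
      obtain ⟨b1⟩ := hne
      obtain ⟨T2, τ3, hX2, hsel3, hcase2⟩ := hsel2.all hTY hC3 hC5 hST h17 h18 b1
      rcases hcase2 with ⟨hk, hz⟩ | ⟨j', hj3', hjk', hl', hf', hsp'⟩
      · exact ⟨T2, _, inferInstance, _, c', τ3, hX2.trans hX, ⟨b1⟩, hsel3, Or.inl hz, hk⟩
      · exfalso
        have hconf2 := hsel3.conf hTY hC3 hC5 hST
        obtain ⟨-, -, h8⟩ := hconf2.two_eight hj3' hjk' hsp' hl' hf' (c := c') (τ := τ3)
          (by exact_mod_cast hsel3.co) (by exact_mod_cast hsel3.eq)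
        omega
  · subst h3
    obtain ⟨T', τ', hX, hsel, hcase⟩ := h.all hTY hC3 hC5 hST h17 h18 b0
    rcases hcase with ⟨hk, hz⟩ | ⟨j, hj3, hjk, hl, hf, hsp⟩
    · exact ⟨T', B, inferInstance, w, c, τ', hX, ⟨b0⟩, hsel, Or.inl hz, hk⟩
    · have hconf := hsel.conf hTY hC3 hC5 hST
      have hg := hconf.three hj3 hjk hsp hl hf (c := c) (τ := τ') (by exact_mod_cast hsel.co)
        (by exact_mod_cast hsel.eq) b0
      exact ⟨T', B, inferInstance, w, c, τ', hX, ⟨b0⟩, hsel, Or.inr hg, by omega⟩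
  · have hconf := h.conf hTY hC3 hC5 hST
    obtain ⟨b1, n1, n2, hn1, hn2, hn12, hi1, hi2⟩ := hconf.big_nbrs hp h5 h.co h.eq b0
    obtain ⟨T', τ', j, hX, hsel, hiso, hj, hf, hsp⟩ :=
      h.step hTY hC3 hC5 hST h17 h18 fun b => b ≠ b1
    have hconf' := hsel.conf hTY hC3 hC5 hST
    have hg := hconf'.big hp h5 hsel.co hsel.eq hn1 hn2 hn12 (by rw [hiso]; exact hi1)
      (by rw [hiso]; exact hi2) hj hf hsp
    have hk : 1 ≤ k := by
      by_contra hk0
      have hk0' : k = 0 := by omega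
      subst hk0'
      rcases hconf'.form b0 with hA | ⟨q, -, -⟩
      · have h1 := hconf'.sq b0
        have h2 := hA.1
        simp [ip] at h1
        nlinarith
      · exact q.elim0
    exact ⟨T', B, inferInstance, w, c, τ', hX, ⟨b0⟩, hsel, hg, hk⟩

/-- **Choice of the prime and the class.** -/
theorem exists_sel (hS : State ω x T) (hF : Full ω x T) (hZ : ¬ ZSpan ω x T) :
    ∃ (p : ℕ) (B : Type) (_ : Fintype B) (w : B → DVal L) (c : B → ℤ) (τ : Cl ℤ (Fin k)),
      Nonempty B ∧ Sel ω x T p w c τ := by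
  classical
  unfold ZSpan at hZ
  push Not at hZ
  obtain ⟨b, hb, hbZ⟩ := hZ
  obtain ⟨n, hn, hmem⟩ := hF b hb
  set M := Submodule.span ℤ (T.cl '' CSet ω x T) with hM
  have hex : ∃ n : ℕ, 0 < n ∧ (n : ℤ) • b ∈ M := by
    refine ⟨n.natAbs, Int.natAbs_pos.2 hn, ?_⟩
    rcases Int.natAbs_eq n with h | h
    · rw [← h]; exact hmem
    · have : ((n.natAbs : ℕ) : ℤ) = -n := by omega
      rw [this, neg_smul]
      exact M.neg_mem hmem
  obtain ⟨hn0, hn1⟩ := Nat.find_spec hex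
  set n0 := Nat.find hex with hn0def
  have hn01 : n0 ≠ 1 := by
    intro h1
    rw [h1] at hn1
    apply hbZ
    simpa using hn1
  obtain ⟨p, hp, r, hr⟩ := Nat.exists_prime_and_dvd hn01
  have hr0 : 0 < r := by
    rcases Nat.eq_zero_or_pos r with h | h
    · rw [h, mul_zero] at hr; omega
    · exact h
  have hτM : (r : ℤ) • b ∉ M := by
    intro h
    have h1 := Nat.find_min' hex (m := r) ⟨hr0, h⟩
    rw [← hn0def, hr] at h1
    have := hp.two_le
    nlinarith
  have hpτ : (p : ℤ) • ((r : ℤ) • b) ∈ M := by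
    rw [smul_smul]
    have : (p : ℤ) * r = (n0 : ℤ) := by rw [hr]; push_cast; ring
    rw [this]; exact hn1
  -- a finite combination of distinct classes
  obtain ⟨f, hf⟩ := (Finsupp.mem_span_iff_linearCombination ℤ (T.cl '' CSet ω x T) _).1 hpτ
  rw [Finsupp.linearCombination_apply, Finsupp.sum] at hf
  have hch : ∀ u : (T.cl '' CSet ω x T : Set (Cl ℤ (Fin k))), ∃ v, v ∈ CSet ω x T ∧ T.cl v = u.1 :=
    fun u => by obtain ⟨v, hv, hv'⟩ := u.2; exact ⟨v, hv, hv'⟩
  choose vv hvv hvv' using hch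
  set B := {u : f.support // ¬ (p : ℤ) ∣ f u.1} with hB
  have hdvd : ∀ u : {u : f.support // ¬ ¬ (p : ℤ) ∣ f u.1}, ∃ a, f u.1.1 = p * a := fun u =>
    not_not.1 u.2
  choose a ha using hdvd
  have hsum : ∑ u : B, f u.1.1 • T.cl (vv u.1.1)
      = (p : ℤ) • ((r : ℤ) • b - ∑ u : {u : f.support // ¬ ¬ (p : ℤ) ∣ f u.1},
        a u • T.cl (vv u.1.1)) := by
    rw [smul_sub, ← hf, Finset.smul_sum, eq_sub_iff_add_eq]
    have h1 : ∑ u ∈ f.support, f u • (u : Cl ℤ (Fin k))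
        = ∑ u : f.support, f u.1 • T.cl (vv u.1) := by
      rw [← Finset.sum_attach]
      exact Finset.sum_congr rfl fun u _ => by rw [hvv']
    rw [h1, ← Finset.sum_add_sum_compl (Finset.univ.filter fun u : f.support => ¬ (p : ℤ) ∣ f u.1)
      (fun u => f u.1 • T.cl (vv u.1))]
    congr 1
    · exact (Finset.sum_subtype (p := fun u : f.support => ¬ (p : ℤ) ∣ f u.1)
        (Finset.univ.filter fun u : f.support => ¬ (p : ℤ) ∣ f u.1) (by simp)
        (fun u => f u.1 • T.cl (vv u.1))).symm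
    · rw [Finset.sum_subtype (p := fun u : f.support => ¬ ¬ (p : ℤ) ∣ f u.1) _ (by simp)]
      exact Finset.sum_congr rfl fun u _ => by rw [ha u, mul_smul]
  refine ⟨p, B, inferInstance, fun u => vv u.1.1, fun u => f u.1.1, _, ?_,
    ⟨hS, hp, fun u => (hvv _).1, fun u => (hvv _).2.1, fun u => (hvv _).2.2, ?_,
      fun u => u.2, hsum⟩⟩
  · by_contra hem
    rw [not_nonempty_iff] at hem
    rw [Finset.univ_eq_empty, Finset.sum_empty] at hsum
    have hpz : (p : ℤ) ≠ 0 := by exact_mod_cast hp.ne_zero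
    have h1 := (smul_eq_zero.1 hsum.symm).resolve_left hpz
    apply hτM
    rw [sub_eq_zero.1 h1]
    exact sum_mem fun u _ => M.smul_mem _ (Submodule.subset_span ⟨_, hvv _, rfl⟩)
  · intro u u' huu' hs
    apply huu'
    have h1 := H97.cl_congr hs T
    rw [hvv', hvv'] at h1
    exact Subtype.ext (Subtype.ext (Subtype.ext h1))

end

end LCY.H89
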