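import Pool.Agent.Helper89.LCY.CovN
import Pool.Agent.Helper50.LCY.Div
import Pool.Agent.Helper48.LCY.Red
import Pool.Agent.Helper2.LCY.E8

/-!
Block COV of MP_f7e214_ag, part O: normalised structures; the function whose divisor is the class
modulo the prime.
-/

open Polynomial Pool.Agent.Helper82.LCY

namespace LCY.H89

noncomputable section

variable {L : Type} [Field L] [Algebra ℂ L] {k N : ℕ}

/-! ### Normalised structures -/

theorem surf_plane {S S' : Coord L} (h : plane S' = plane S) {k : ℕ} (R : Fin k → Subalgebra ℂ L)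
    (j : ℕ) : surf S' R j = surf S R j := by
  induction j with
  | zero => exact h
  | succ j ih => simp only [surf]; rw [ih]

theorem coordExt {P Q : Coord L} (hx : P.x = Q.x) (hy : P.y = Q.y) : P = Q := by
  cases P; cases Q
  simp only at hx hy
  subst hx hy
  rfl

theorem exists_norm (hPG : ST_PG) (T : PStr L k) (hk : 0 < k) : ∃ T' : PStr L k, T'.X = T.X ∧
    T'.R = T.R ∧ (∀ v, T'.cl v = T.cl v) ∧ T'.S.loc = T'.R ⟨0, hk⟩ := by
  obtain ⟨A, Q, hA, hQ, hx, hy⟩ := T.valid ⟨0, hk⟩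
  obtain ⟨S', hx', hy', hp, hd⟩ := hPG L T.S A hA
  refine ⟨⟨S', T.R, fun i => ?_⟩, ?_, rfl, ?_, ?_⟩
  · rw [surf_plane hp]
    exact T.valid i
  · exact surf_plane hp T.R k
  · intro v
    unfold PStr.cl
    rw [hd]
  · change S'.loc = T.R ⟨0, hk⟩
    rw [← hQ, coordExt (hx'.trans hx.symm) (hy'.trans hy.symm)]

theorem cur_iff {T T' : PStr L k} (hX : T'.X = T.X) (v : DVal L) : T'.Cur v ↔ T.Cur v := by
  unfold PStr.Cur
  rw [hX]

theorem state_congr {ω : Bracket L} {x : Fin (N + 1) → L} {T T' : PStr L k} (hX : T'.X = T.X)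
    (hcl : ∀ v, T'.cl v = T.cl v) (h : State ω x T) : State ω x T' := by
  obtain ⟨h1, h2, h3, h4, a, g, ha, hg, h5, h6, h7⟩ := h
  refine ⟨h1, fun v hv => h2 v ((cur_iff hX v).1 hv), fun v hv => ?_, fun v hv hw hc => ?_,
    a, g, ha, hg, fun v hv => h5 v ((cur_iff hX v).1 hv), h6, h7⟩
  · rw [hcl]; exact h3 v ((cur_iff hX v).1 hv)
  · rw [hcl]; exact h4 v ((cur_iff hX v).1 hv) hw hc

theorem contracted_congr {x : Fin (N + 1) → L} {v w : DVal L} (h : v.Same w)
    (hv : Contracted x v) : Contracted x w := by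
  intro i hi hint j
  obtain ⟨c, hc⟩ := hv i hi (fun j => H97.int_congr (H97.same_symm h) (hint j)) j
  exact ⟨c, H2.pos_same h hc⟩

variable {ω : Bracket L} {x : Fin (N + 1) → L} {T : PStr L k} {p : ℕ} {B : Type} [Fintype B]
  {w : B → DVal L} {c : B → ℤ} {τ : Cl ℤ (Fin k)}

theorem Sel.congr {T' : PStr L k} (hX : T'.X = T.X) (hcl : ∀ v, T'.cl v = T.cl v)
    (h : Sel ω x T p w c τ) : Sel ω x T' p w c τ :=
  ⟨state_congr hX hcl h.st, h.pr, fun b => (cur_iff hX _).2 (h.cur b), h.wt, h.con, h.ne, h.co, by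
    rw [← h.eq]
    exact Finset.sum_congr rfl fun b _ => by rw [hcl]⟩

/-! ### The function -/

omit [Fintype B] in
theorem clD_sgls (T : PStr L k) (w : B → DVal L) (hw : ∀ b, T.Cur (w b)) (c : B → ℤ)
    (s : Finset B) : T.IsDiv (fun v => ∑ b ∈ s, H50.sgl (H97.nrm (w b)) (c b) v) ∧
      T.clD (fun v => ∑ b ∈ s, H50.sgl (H97.nrm (w b)) (c b) v) = ∑ b ∈ s, c b • T.cl (w b) := by
  classical
  induction s using Finset.induction_on with
  | empty =>
    constructor
    · unfold PStr.IsDiv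
      simp
    · unfold PStr.clD
      simp
  | insert b s hb ih =>
    have hmem : H97.nrm (w b) ∈ T.C :=
      ⟨H97.nrm_zero _, H97.cur_congr (H97.nrm_same _) (hw b)⟩
    have h1 := H97.isDiv_add (H50.isDiv_sgl T (H97.nrm (w b)) (c b)) ih.1
    have h2 := H97.clD_add (H50.isDiv_sgl T (H97.nrm (w b)) (c b)) ih.1
    rw [H50.clD_sgl T hmem, ih.2, H97.cl_congr (H97.same_symm (H97.nrm_same (w b))) T] at h2
    refine ⟨?_, ?_⟩
    · simp only [Finset.sum_insert hb]
      exact h1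
    · simp only [Finset.sum_insert hb]
      exact h2

theorem Sel.exists_g (hB3 : ST_B3) (hB4 : ST_B4) (h : Sel ω x T p w c τ) :
    ∃ g : L, g ≠ 0 ∧ (∀ b, ¬ (p : ℤ) ∣ (w b).v g) ∧ ∃ D : DVal L → ℤ, T.IsDiv D ∧
      ∀ v, T.Cur v → (∀ b, ¬ v.Same (w b)) → v.v g = p * D (H97.nrm v) := by
  classical
  obtain ⟨D0, hD0, hcl⟩ := hB4 L k T τ
  obtain ⟨h1, h2⟩ := clD_sgls T w h.cur c Finset.univ
  rw [h.eq] at h2
  have hm := H97.isDiv_smul (-(p : ℤ)) hD0
  have h3 := H97.isDiv_add h1 hm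
  have h4 := H97.clD_add h1 hm
  rw [h2, H97.clD_smul _ hD0, hcl, neg_smul, add_neg_cancel] at h4
  obtain ⟨g, hg, hgv⟩ := hB3 L k T _ h3 h4
  have hval : ∀ v, T.Cur v → v.v g = ∑ b, H50.sgl (H97.nrm (w b)) (c b) (H97.nrm v)
      + -(p : ℤ) * D0 (H97.nrm v) := by
    intro v hv
    have h5 := hgv (H97.nrm v) ⟨H97.nrm_zero _, H97.cur_congr (H97.nrm_same _) hv⟩
    rw [H97.nrm_same v g hg, h5]
  refine ⟨g, hg, fun b => ?_, fun v => -D0 v, H97.isDiv_neg hD0, fun v hv hne => ?_⟩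
  · rw [hval _ (h.cur b)]
    have h5 : ∑ b', H50.sgl (H97.nrm (w b')) (c b') (H97.nrm (w b)) = c b := by
      rw [Finset.sum_eq_single b]
      · simp [H50.sgl]
      · intro b' _ hb'
        unfold H50.sgl
        rw [if_neg]
        intro heq
        apply h.ne b b' (Ne.symm hb')
        have h6 := H97.nrm_same (w b)
        rw [heq] at h6
        exact H97.same_trans h6 (H97.same_symm (H97.nrm_same (w b')))
      · intro h6
        exact absurd (Finset.mem_univ b) h6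
    rw [h5]
    intro hd
    apply h.co b
    have h6 : (p : ℤ) ∣ -(p : ℤ) * D0 (H97.nrm (w b)) := ⟨-D0 (H97.nrm (w b)), by ring⟩
    exact (dvd_add_left h6).1 hd
  · rw [hval _ hv]
    have h5 : ∑ b', H50.sgl (H97.nrm (w b')) (c b') (H97.nrm v) = 0 := by
      refine Finset.sum_eq_zero fun b' _ => ?_
      unfold H50.sgl
      rw [if_neg]
      intro heq
      apply hne b'
      have h6 := H97.nrm_same v
      rw [heq] at h6
      exact H97.same_trans h6 (H97.same_symm (H97.nrm_same (w b')))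
    rw [h5]
    ring

/-! ### Divisibility at the places that are not contracted -/

theorem mem_inv_val {R : Subalgebra ℂ L} {v : DVal L} (h : ∀ z ∈ R, v.Int z) {z : L} (hz0 : z ≠ 0)
    (hz : z ∈ R) (hz' : z⁻¹ ∈ R) : v.v z = 0 := by
  have h1 := (h z hz).resolve_left hz0
  have h2 := (h _ hz').resolve_left (inv_ne_zero hz0)
  rw [v.map_inv hz0] at h2
  omega

/-- a function with value zero at all curves through a point is a unit there -/
theorem unit_of_curves (h9 : ST_A9) (P : Coord L) {z : L} (hz : z ≠ 0)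
    (h : ∀ v, Through P.loc v → v.v z = 0) : z ∈ P.loc ∧ z⁻¹ ∈ P.loc := by
  constructor
  · rw [h9]
    intro v hv
    exact Or.inr (h v hv).ge
  · rw [h9]
    intro v hv
    right
    rw [v.map_inv hz, h v hv]
    norm_num

/-- If a contracted curve outside the boundary passes through a point of the surface, then all
places with centre at this point are contracted or zeros of the 2-form. -/
theorem no_base (h9 : ST_A9) (h16 : ST_A16) (hC3 : ST_C3) (hC4 : ST_C4) (hB2 : ST_B2K)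
    (hWP : ∀ v k, ω.Wt v k → WtProp ω v k) {wt : DVal L → ℤ} (hwt : ∀ v, ω.Wt v (wt v))
    (hu : ∀ v k, ω.Wt v k → k = wt v) (hS : State ω x T) {R : Subalgebra ℂ L} (hR : R ∈ T.X)
    {E : DVal L} (hE : Through R E) (hE0 : ω.Wt E 0) (hEc : Contracted x E) {v : DVal L}
    (hv : Centred R v) : 1 ≤ wt v := by
  obtain ⟨P, rfl⟩ := h16 L k T k R hR
  obtain ⟨hf1, hf2⟩ := H2.b2k hWP hwt
  obtain ⟨hD, hK⟩ := hB2 L k T ω wt hwt hf1 hf2
  have hEcur : T.Cur E := ⟨_, hR, hE⟩
  have hEK := hS.con E hEcur hE0 hEc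
  have hbr := P.br_ne ω
  have hzero : ∀ D, Through P.loc D → D.v (ω.br P.x P.y) = 0 := by
    intro D hDt
    have h1 := H62.through_br (hWP D _ (hwt D)) hDt
    have hDcur : T.Cur D := ⟨_, hR, hDt⟩
    rcases hS.wt D hDcur _ (hwt D) with h2 | h2
    · rw [h1, h2]; norm_num
    · exfalso
      have hw1 : ω.Wt D (-1) := by rw [← h2]; exact hwt D
      have h3 := H48.pole_perp hC3 hS hwt hu hD hK hDcur hw1 hEcur hE0 hEK
      have hns : ¬ D.Same E := by
        intro hs
        have h4 := hu E _ (H48.wt_same hs hw1)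
        have h5 := hu E _ hE0
        omega
      exact ((hC4 L k T D E hDcur hEcur hns).1 h3) _ hR hDt hE
  obtain ⟨hm1, hm2⟩ := unit_of_curves h9 P hbr hzero
  have h1 := mem_inv_val hv.1 hbr hm1 hm2
  obtain ⟨hx, hy⟩ := H98.centred_iff.1 hv
  have h2 := (hWP v _ (hwt v)).br9 P.x P.y P.x_ne P.y_ne hbr
  omega

theorem Sel.dvd (h9 : ST_A9) (h15 : ST_A15) (h16 : ST_A16) (hC3 : ST_C3) (hC4 : ST_C4)
    (hB2 : ST_B2K) (hD0 : ST_D0) (hA : Adm ω x) (hWP : ∀ v k, ω.Wt v k → WtProp ω v k)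
    {wt : DVal L → ℤ} (hwt : ∀ v, ω.Wt v (wt v)) (hu : ∀ v k, ω.Wt v k → k = wt v)
    (h : Sel ω x T p w c τ) {g : L} (hg : g ≠ 0) {D : DVal L → ℤ} (hD : T.IsDiv D)
    (hgD : ∀ v, T.Cur v → (∀ b, ¬ v.Same (w b)) → v.v g = p * D (H97.nrm v)) (v : DVal L)
    (hv : ¬ Contracted x v ∨ wt v = -1) : (p : ℤ) ∣ v.v g := by
  by_cases hc : T.Cur v
  · have hne : ∀ b, ¬ v.Same (w b) := by
      intro b hs
      rcases hv with hv | hv
      · exact hv (contracted_congr (H97.same_symm hs) (h.con b))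
      · have h1 := hu (w b) _ (H48.wt_same hs (hwt v))
        have h2 := hu (w b) _ (h.wt b)
        omega
    exact ⟨_, hgD v hc hne⟩
  rcases h15 L k T v with h1 | ⟨R, hR, hcen⟩
  · exact absurd h1 hc
  by_cases hb : ∃ b, Through R (w b)
  · exfalso
    obtain ⟨b, hb⟩ := hb
    have h2 := no_base h9 h16 hC3 hC4 hB2 hWP hwt hu h.st hR hb (h.wt b) (h.con b) hcen
    rcases hv with hv | hv
    · have h3 := hA.h2 v _ (hwt v) hv
      omega
    · omega
  · push Not at hb
    obtain ⟨⟨t, ht0, ht⟩, -⟩ := hD0 L k T D hD k R hR le_rfl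
    obtain ⟨P, rfl⟩ := h16 L k T k R hR
    have htp : t ^ p ≠ 0 := pow_ne_zero _ ht0
    have hz : g / t ^ p ≠ 0 := div_ne_zero hg htp
    obtain ⟨hm1, hm2⟩ := unit_of_curves h9 P hz (by
      intro u hu'
      have h2 : ∀ b, ¬ u.Same (w b) := fun b hs => hb b (H97.through_congr hs hu')
      have h3 := hgD u ⟨_, hR, hu'⟩ h2
      have h4 := ht (H97.nrm u) ⟨H97.nrm_zero _, H97.through_congr (H97.nrm_same _) hu'⟩
      rw [u.map_div hg htp, u.map_pow ht0, h3, H97.nrm_same u t ht0, h4]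
      ring)
    have h5 := mem_inv_val hcen.1 hz hm1 hm2
    rw [v.map_div hg htp, v.map_pow ht0] at h5
    exact ⟨v.v t, by linarith⟩

end

end LCY.H89
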